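import Pool.Agent.W2helper86.MD.Deg

/-!
# Approximation of circuits with MOD p gates by polynomials (Razborov, Smolensky)
-/

set_option autoImplicit false

namespace Pool.Agent.W2helper86.MD

open Finset

/-- the value of a bit in a field -/
def bv (K : Type) [Field K] (b : Bool) : K := if b = true then 1 else 0

lemma bv_true (K : Type) [Field K] : bv K true = 1 := by simp [bv]
lemma bv_false (K : Type) [Field K] : bv K false = 0 := by simp [bv]

/-- Circuits given by the functions computed at their nodes. -/
structure Ckt (p : ℕ) (I : Type) where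
  Node : Type
  [finite : Finite Node]
  val : Node → (I → Bool) → Bool
  depth : Node → ℕ
  rule : ∀ v,
    (∃ A : Finset I, A.card ≤ 1 ∧ ∀ x y, (∀ i ∈ A, x i = y i) → val v x = val v y) ∨
    (∃ (c : Bool) (J : Finset (Node × Bool)), (∀ u ∈ J, depth u.1 < depth v) ∧
      ∀ x, (val v x = c ↔ ∃ u ∈ J, val u.1 x = u.2)) ∨
    (∃ (a : ZMod p) (J : Finset Node) (w : Node → ZMod p), (∀ u ∈ J, depth u < depth v) ∧
      ∀ x, (val v x = true ↔ ∑ u ∈ J, w u * (if val u x = true then 1 else 0) = a))

/-- recursion along a depth function -/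
lemma exists_rec {ν α : Type} (dep : ν → ℕ) (St : ν → (ν → α) → α) (d : α) :
    ∃ P : ν → α, ∀ i, P i = St i (fun j => if dep j < dep i then P j else d) := by
  classical
  let wf : WellFounded (fun a b : ν => dep a < dep b) := (measure dep).wf
  let P : ν → α := wf.fix fun i prev => St i (fun j => if h : dep j < dep i then prev j h else d)
  refine ⟨P, fun i => ?_⟩
  have h := wf.fix_eq (C := fun _ => α)
    (fun i prev => St i (fun j => if h : dep j < dep i then prev j h else d)) i
  show P i = _
  rw [show P i = wf.fix (C := fun _ => α)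
    (fun i prev => St i (fun j => if h : dep j < dep i then prev j h else d)) i from rfl, h]
  congr 1

section Random
variable {p : ℕ} [Fact p.Prime]

/-- A random linear combination of a nonempty set of coefficients vanishes with probability
`1 / p`. -/
lemma card_zero {W : Type} [Fintype W] [DecidableEq W] {Y : Finset W} (hY : Y.Nonempty) :
    (univ.filter (fun a : W → ZMod p => ∑ u ∈ Y, a u = 0)).card * p =
      Fintype.card (W → ZMod p) := by
  obtain ⟨u0, hu0⟩ := hY
  have h1 : ∀ c : ZMod p, (univ.filter (fun a : W → ZMod p => ∑ u ∈ Y, a u = c)).card =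
      (univ.filter (fun a : W → ZMod p => ∑ u ∈ Y, a u = 0)).card := by
    intro c
    refine Finset.card_bij' (fun a _ => a - Pi.single u0 c) (fun a _ => a + Pi.single u0 c)
      ?_ ?_ ?_ ?_
    · intro a ha
      simp only [Finset.mem_filter, Finset.mem_univ, true_and] at ha ⊢
      simp only [Pi.sub_apply, Finset.sum_sub_distrib, ha, Pi.single_apply]
      rw [Finset.sum_ite_eq' Y u0, if_pos hu0, sub_self]
    · intro a ha
      simp only [Finset.mem_filter, Finset.mem_univ, true_and] at ha ⊢
      simp only [Pi.add_apply, Finset.sum_add_distrib, ha, Pi.single_apply]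
      rw [Finset.sum_ite_eq' Y u0, if_pos hu0, zero_add]
    · intro a _
      simp
    · intro a _
      simp
  have h2 := Finset.card_eq_sum_card_fiberwise (s := (univ : Finset (W → ZMod p)))
    (t := (univ : Finset (ZMod p))) (f := fun a => ∑ u ∈ Y, a u) (by intro a _; simp)
  rw [← Finset.card_univ, h2, Finset.sum_congr rfl (fun c _ => h1 c), Finset.sum_const,
    Finset.card_univ, ZMod.card, smul_eq_mul, mul_comm]

/-- a coefficient vector which vanishes on at most the average part of a weighted family -/
lemma exists_coeff {W X : Type} [Fintype W] [DecidableEq W] [Fintype X] [DecidableEq X]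
    (Y : X → Finset W) (ν : X → ℝ) (hν : ∀ x, 0 ≤ ν x) (B : Finset X)
    (hB : ∀ x ∈ B, (Y x).Nonempty) :
    ∃ a : W → ZMod p, (∑ x ∈ B.filter (fun x => ∑ u ∈ Y x, a u = 0), ν x) * p ≤ ∑ x ∈ B, ν x := by
  by_contra hcon
  push Not at hcon
  have h1 : ∑ a : W → ZMod p, (∑ x ∈ B.filter (fun x => ∑ u ∈ Y x, a u = 0), ν x) * p =
      ∑ x ∈ B, ν x * ((univ.filter (fun a : W → ZMod p => ∑ u ∈ Y x, a u = 0)).card * p) := by
    rw [← Finset.sum_mul]
    simp only [Finset.sum_filter]
    rw [Finset.sum_comm, Finset.sum_mul]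
    refine Finset.sum_congr rfl fun x _ => ?_
    rw [← Finset.sum_filter, Finset.sum_const, nsmul_eq_mul]
    ring
  have h2 : ∑ a : W → ZMod p, (∑ x ∈ B.filter (fun x => ∑ u ∈ Y x, a u = 0), ν x) * p =
      (Fintype.card (W → ZMod p) : ℝ) * ∑ x ∈ B, ν x := by
    rw [h1, Finset.mul_sum]
    refine Finset.sum_congr rfl fun x hx => ?_
    have h3 := card_zero (p := p) (hB x hx)
    have h4 : (((univ.filter (fun a : W → ZMod p => ∑ u ∈ Y x, a u = 0)).card : ℝ) * p) =
        (Fintype.card (W → ZMod p) : ℝ) := by exact_mod_cast h3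
    rw [h4]
    ring
  have h5 : ∑ _a : W → ZMod p, ∑ x ∈ B, ν x <
      ∑ a : W → ZMod p, (∑ x ∈ B.filter (fun x => ∑ u ∈ Y x, a u = 0), ν x) * p := by
    apply Finset.sum_lt_sum_of_nonempty Finset.univ_nonempty
    intro a _
    exact hcon a
  rw [h2, Finset.sum_const, nsmul_eq_mul, Finset.card_univ] at h5
  exact lt_irrefl _ h5

/-- `ℓ` coefficient vectors such that all the combinations vanish only on a small part -/
lemma exists_coeffs {W X : Type} [Fintype W] [DecidableEq W] [Fintype X] [DecidableEq X]
    (Y : X → Finset W) (ν : X → ℝ) (hν : ∀ x, 0 ≤ ν x) (B : Finset X)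
    (hB : ∀ x ∈ B, (Y x).Nonempty) : ∀ ℓ : ℕ,
    ∃ a : ℕ → W → ZMod p, (∑ x ∈ B.filter (fun x => ∀ j < ℓ, ∑ u ∈ Y x, a j u = 0), ν x) *
      (p : ℝ) ^ ℓ ≤ ∑ x ∈ B, ν x := by
  intro ℓ
  induction ℓ with
  | zero =>
    refine ⟨fun _ _ => 0, ?_⟩
    simp
  | succ ℓ ih =>
    obtain ⟨a, ha⟩ := ih
    obtain ⟨b, hb⟩ := exists_coeff (p := p) Y ν hν
      (B.filter (fun x => ∀ j < ℓ, ∑ u ∈ Y x, a j u = 0))
      (fun x hx => hB x (Finset.mem_filter.1 hx).1)
    refine ⟨fun j => if j = ℓ then b else a j, ?_⟩
    have h1 : B.filter (fun x => ∀ j < ℓ + 1, ∑ u ∈ Y x, (if j = ℓ then b else a j) u = 0) =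
        (B.filter (fun x => ∀ j < ℓ, ∑ u ∈ Y x, a j u = 0)).filter
          (fun x => ∑ u ∈ Y x, b u = 0) := by
      ext x
      simp only [Finset.mem_filter]
      constructor
      · rintro ⟨h1, h2⟩
        refine ⟨⟨h1, fun j hj => ?_⟩, ?_⟩
        · have h3 := h2 j (by omega)
          rwa [if_neg (by omega)] at h3
        · have h3 := h2 ℓ (by omega)
          rwa [if_pos rfl] at h3
      · rintro ⟨⟨h1, h2⟩, h3⟩
        refine ⟨h1, fun j hj => ?_⟩
        by_cases hjl : j = ℓ
        · rw [if_pos hjl]; exact h3
        · rw [if_neg hjl]; exact h2 j (by omega)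
    rw [h1, pow_succ]
    have hp : (0 : ℝ) ≤ (p : ℝ) ^ ℓ := by positivity
    calc _ = ((∑ x ∈ (B.filter (fun x => ∀ j < ℓ, ∑ u ∈ Y x, a j u = 0)).filter
          (fun x => ∑ u ∈ Y x, b u = 0), ν x) * p) * (p : ℝ) ^ ℓ := by ring
      _ ≤ (∑ x ∈ B.filter (fun x => ∀ j < ℓ, ∑ u ∈ Y x, a j u = 0), ν x) * (p : ℝ) ^ ℓ :=
        mul_le_mul_of_nonneg_right hb hp
      _ ≤ _ := ha

end Random

lemma sum_biUnion_le' {V X : Type} [DecidableEq V] [DecidableEq X] (S : Finset V)
    (B : V → Finset X) (μ : X → ℝ) (hμ : ∀ x, 0 ≤ μ x) :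
    ∑ x ∈ S.biUnion B, μ x ≤ ∑ v ∈ S, ∑ x ∈ B v, μ x := by
  induction S using Finset.induction_on with
  | empty => simp
  | insert a S ha ih =>
    rw [Finset.biUnion_insert, Finset.sum_insert ha]
    have h1 : ∑ x ∈ B a ∪ S.biUnion B, μ x ≤ ∑ x ∈ B a, μ x + ∑ x ∈ S.biUnion B, μ x := by
      rw [← Finset.sum_union_inter]
      have : 0 ≤ ∑ x ∈ B a ∩ S.biUnion B, μ x := Finset.sum_nonneg fun x _ => hμ x
      linarith
    linarith

section Approx
variable {p : ℕ} [Fact p.Prime] {I : Type} [Fintype I] [DecidableEq I]

/-- the value of a wire from the values of the nodes -/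
def wv {V : Type} (P : V → ZMod p) (u : V × Bool) : ZMod p :=
  if u.2 = true then P u.1 else 1 - P u.1

lemma wv_bv {V : Type} (f : V → Bool) (u : V × Bool) :
    wv (p := p) (fun a => bv _ (f a)) u = if f u.1 = u.2 then 1 else 0 := by
  unfold wv bv
  rcases h1 : f u.1 with _ | _ <;> rcases h2 : u.2 with _ | _ <;> simp [h1]

/-- Every circuit with MOD `p` gates agrees with polynomials of small degree outside a set of
small weight. -/
theorem approx (C : Ckt p I) {s ℓ : ℕ} (hs : Nat.card C.Node ≤ s) (hℓ : 1 ≤ ℓ)
    (μ : (I → Bool) → ℝ) (hμ : ∀ x, 0 ≤ μ x) :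
    ∃ P : C.Node → (I → Bool) → ZMod p, (∀ v, Deg ((ℓ * (p - 1)) ^ (C.depth v)) (P v)) ∧
      ∃ Bad : Finset (I → Bool), (∑ x ∈ Bad, μ x) * (p : ℝ) ^ ℓ ≤ s * ∑ x, μ x ∧
        ∀ x, x ∉ Bad → ∀ v, P v x = bv _ (C.val v x) := by
  classical
  have := C.finite
  let _ : Fintype C.Node := Fintype.ofFinite _
  have hp2 : 2 ≤ p := (Fact.out : p.Prime).two_le
  have hp1 : 1 ≤ ℓ * (p - 1) := Nat.mul_pos hℓ (by omega)
  -- the structure of the nodes
  have hrule : ∀ v, ∃ (k : Fin 3) (c : Bool) (J : Finset (C.Node × Bool)) (a : ZMod p)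
      (J' : Finset C.Node) (w : C.Node → ZMod p),
      (k = 0 → ∃ A : Finset I, A.card ≤ 1 ∧
        ∀ x y, (∀ i ∈ A, x i = y i) → C.val v x = C.val v y) ∧
      (k = 1 → (∀ u ∈ J, C.depth u.1 < C.depth v) ∧
        ∀ x, (C.val v x = c ↔ ∃ u ∈ J, C.val u.1 x = u.2)) ∧
      (k = 2 → (∀ u ∈ J', C.depth u < C.depth v) ∧
        ∀ x, (C.val v x = true ↔ ∑ u ∈ J', w u * (if C.val u x = true then 1 else 0) = a)) := by
    intro v
    rcases C.rule v with h | ⟨c, J, h⟩ | ⟨a, J', w, h⟩
    · exact ⟨0, true, ∅, 0, ∅, 0, fun _ => h, fun h => absurd h (by decide),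
        fun h => absurd h (by decide)⟩
    · exact ⟨1, c, J, 0, ∅, 0, fun h => absurd h (by decide), fun _ => h,
        fun h => absurd h (by decide)⟩
    · exact ⟨2, true, ∅, a, J', w, fun h => absurd h (by decide), fun h => absurd h (by decide),
        fun _ => h⟩
  choose k c J a J' w h0 h1 h2 using hrule
  -- the coefficients
  have hco : ∀ v, ∃ T : ℕ → (C.Node × Bool) → ZMod p,
      (∑ x ∈ (univ.filter (fun x : I → Bool => ((J v).filter
        (fun u => C.val u.1 x = u.2)).Nonempty)).filter
        (fun x => ∀ j < ℓ, ∑ u ∈ (J v).filter (fun u => C.val u.1 x = u.2), T j u = 0), μ x) *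
        (p : ℝ) ^ ℓ ≤ ∑ x, μ x := by
    intro v
    obtain ⟨T, hT⟩ := exists_coeffs (p := p)
      (fun x : I → Bool => (J v).filter (fun u => C.val u.1 x = u.2)) μ hμ
      (univ.filter (fun x : I → Bool => ((J v).filter (fun u => C.val u.1 x = u.2)).Nonempty))
      (fun x hx => (Finset.mem_filter.1 hx).2) ℓ
    refine ⟨T, hT.trans ?_⟩
    exact Finset.sum_le_sum_of_subset_of_nonneg (Finset.subset_univ _) (fun x _ _ => hμ x)
  choose T hT using hco
  set BadAt : C.Node → Finset (I → Bool) := fun v =>
    (univ.filter (fun x : I → Bool => ((J v).filter (fun u => C.val u.1 x = u.2)).Nonempty)).filter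
        (fun x => ∀ j < ℓ, ∑ u ∈ (J v).filter (fun u => C.val u.1 x = u.2), T v j u = 0) with hBadAt
  -- the polynomials
  obtain ⟨P, hP⟩ := exists_rec C.depth (fun v (Q : C.Node → (I → Bool) → ZMod p) x =>
    if k v = 0 then bv _ (C.val v x)
    else if k v = 1 then
      (if c v = true then
        1 - ∏ j ∈ range ℓ, (1 - (∑ u ∈ J v, T v j u * wv (fun b => Q b x) u) ^ (p - 1))
      else ∏ j ∈ range ℓ, (1 - (∑ u ∈ J v, T v j u * wv (fun b => Q b x) u) ^ (p - 1)))
    else 1 - ((∑ u ∈ J' v, w v u * Q u x) - a v) ^ (p - 1)) (fun _ => 0)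
  have hP0 : ∀ v, k v = 0 → ∀ x, P v x = bv _ (C.val v x) := by
    intro v hv x
    rw [hP v]
    simp [hv]
  have hP1 : ∀ v, k v = 1 → ∀ x, P v x = if c v = true then
        1 - ∏ j ∈ range ℓ, (1 - (∑ u ∈ J v, T v j u * wv (fun b => P b x) u) ^ (p - 1))
      else ∏ j ∈ range ℓ, (1 - (∑ u ∈ J v, T v j u * wv (fun b => P b x) u) ^ (p - 1)) := by
    intro v hv x
    have key : ∀ j, ∑ u ∈ J v, T v j u *
        wv (fun b => (if C.depth b < C.depth v then P b else fun _ => 0) x) u =
        ∑ u ∈ J v, T v j u * wv (fun b => P b x) u := by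
      intro j
      refine Finset.sum_congr rfl fun u hu => ?_
      unfold wv
      simp only [if_pos ((h1 v hv).1 u hu)]
    rw [hP v]
    simp only [hv, Fin.reduceEq, if_false, if_true, key]
  have hP2 : ∀ v, k v = 2 → ∀ x,
      P v x = 1 - ((∑ u ∈ J' v, w v u * P u x) - a v) ^ (p - 1) := by
    intro v hv x
    have key : ∑ u ∈ J' v, w v u * (if C.depth u < C.depth v then P u else fun _ => 0) x =
        ∑ u ∈ J' v, w v u * P u x := by
      refine Finset.sum_congr rfl fun u hu => ?_
      simp only [if_pos ((h2 v hv).1 u hu)]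
    rw [hP v]
    simp only [hv, Fin.reduceEq, if_false, key]
  have hk : ∀ v, k v = 0 ∨ k v = 1 ∨ k v = 2 := by
    intro v
    have := (k v).isLt
    rcases hkv : (k v).val with _ | _ | _ | n
    · left; exact Fin.ext hkv
    · right; left; exact Fin.ext hkv
    · right; right; exact Fin.ext hkv
    · omega
  refine ⟨P, ?_, univ.biUnion BadAt, ?_, ?_⟩
  · -- the degrees
    intro v
    induction hd : C.depth v using Nat.strong_induction_on generalizing v with
    | _ d ih =>
      have hpred : ∀ u, C.depth u < C.depth v →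
          Deg ((ℓ * (p - 1)) ^ (d - 1)) (P u) := by
        intro u hu
        rw [hd] at hu
        refine (ih _ hu u rfl).mono ?_
        exact Nat.pow_le_pow_right hp1 (by omega)
      have hwire : ∀ u : C.Node × Bool, C.depth u.1 < C.depth v →
          Deg ((ℓ * (p - 1)) ^ (d - 1)) (fun x => wv (fun b => P b x) u) := by
        intro u hu
        unfold wv
        rcases hu2 : u.2 with _ | _
        · simp only [Bool.false_eq_true, if_false]
          exact (Deg.const _ _).sub (hpred _ hu)
        · simp only [if_true]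
          exact hpred _ hu
      rcases hk v with hv | hv | hv
      · have : P v = fun x => bv _ (C.val v x) := by
          funext x
          exact hP0 v hv x
        rw [this]
        obtain ⟨A, hA, hA2⟩ := h0 v hv
        refine Deg.of_jun ⟨A, hA.trans (Nat.one_le_pow _ _ hp1), fun x y hxy => ?_⟩
        show bv _ (C.val v x) = bv _ (C.val v y)
        rw [hA2 x y hxy]
      · have hprod : 1 ≤ d → Deg ((ℓ * (p - 1)) ^ d) (fun x => ∏ j ∈ range ℓ,
            (1 - (∑ u ∈ J v, T v j u * wv (fun b => P b x) u) ^ (p - 1))) := by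
          intro hd1
          have h3 := Deg.prod (I := I) (K := ZMod p) (range ℓ)
            (f := fun j x => 1 - (∑ u ∈ J v, T v j u * wv (fun b => P b x) u) ^ (p - 1))
            (k := (p - 1) * (ℓ * (p - 1)) ^ (d - 1)) (fun j _ => by
              apply (Deg.const _ _).sub
              apply Deg.pow
              apply Deg.sum
              intro u hu
              exact (hwire u ((h1 v hv).1 u hu)).smul _)
          refine h3.mono ?_
          rw [Finset.card_range]
          apply le_of_eq
          conv_rhs => rw [show d = (d - 1) + 1 by omega, pow_succ]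
          ring
        have hd1 : 1 ≤ d ∨ J v = ∅ := by
          by_contra hcon
          push Not at hcon
          obtain ⟨h3, h4⟩ := hcon
          obtain ⟨u, hu⟩ := h4
          have := (h1 v hv).1 u hu
          omega
        rcases hd1 with hd1 | hJ
        · have hprod' := hprod hd1
          rcases hc : c v with _ | _
          · have : P v = fun x => ∏ j ∈ range ℓ,
                (1 - (∑ u ∈ J v, T v j u * wv (fun b => P b x) u) ^ (p - 1)) := by
              funext x
              rw [hP1 v hv x, hc]
              simp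
            rw [this]
            exact hprod'
          · have : P v = fun x => 1 - ∏ j ∈ range ℓ,
                (1 - (∑ u ∈ J v, T v j u * wv (fun b => P b x) u) ^ (p - 1)) := by
              funext x
              rw [hP1 v hv x, hc]
              simp
            rw [this]
            exact (Deg.const _ _).sub hprod'
        · have : ∃ q : ZMod p, P v = fun _ => q := by
            refine ⟨if c v = true then 1 - ∏ j ∈ range ℓ, (1 - (0 : ZMod p) ^ (p - 1))
              else ∏ j ∈ range ℓ, (1 - (0 : ZMod p) ^ (p - 1)), ?_⟩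
            funext x
            rw [hP1 v hv x, hJ]
            simp only [Finset.sum_empty]
          obtain ⟨q, hq⟩ := this
          rw [hq]
          exact Deg.const _ _
      · have hfun : P v = fun x => 1 - ((∑ u ∈ J' v, w v u * P u x) - a v) ^ (p - 1) := by
          funext x
          exact hP2 v hv x
        have hd1 : 1 ≤ d ∨ J' v = ∅ := by
          by_contra hcon
          push Not at hcon
          obtain ⟨h3, h4⟩ := hcon
          obtain ⟨u, hu⟩ := h4
          have := (h2 v hv).1 u hu
          omega
        rcases hd1 with hd1 | hJ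
        · rw [hfun]
          apply (Deg.const _ _).sub
          have h3 : Deg ((p - 1) * (ℓ * (p - 1)) ^ (d - 1))
              (fun x => ((∑ u ∈ J' v, w v u * P u x) - a v) ^ (p - 1)) := by
            apply Deg.pow
            apply Deg.sub
            · apply Deg.sum
              intro u hu
              exact (hpred u ((h2 v hv).1 u hu)).smul _
            · exact Deg.const _ _
          refine h3.mono ?_
          conv_rhs => rw [show d = (d - 1) + 1 by omega, pow_succ, mul_comm]
          apply Nat.mul_le_mul_right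
          exact Nat.le_mul_of_pos_left _ hℓ
        · rw [hfun, hJ]
          simp only [Finset.sum_empty]
          exact Deg.const _ _
  · -- the weight of the bad set
    have h3 : ∑ x ∈ univ.biUnion BadAt, μ x ≤ ∑ v, ∑ x ∈ BadAt v, μ x :=
      sum_biUnion_le' univ BadAt μ hμ
    calc (∑ x ∈ univ.biUnion BadAt, μ x) * (p : ℝ) ^ ℓ
        ≤ (∑ v, ∑ x ∈ BadAt v, μ x) * (p : ℝ) ^ ℓ := by
          apply mul_le_mul_of_nonneg_right h3
          positivity
      _ = ∑ v, (∑ x ∈ BadAt v, μ x) * (p : ℝ) ^ ℓ := by rw [Finset.sum_mul]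
      _ ≤ ∑ _v : C.Node, ∑ x, μ x := Finset.sum_le_sum fun v _ => hT v
      _ = (Nat.card C.Node : ℝ) * ∑ x, μ x := by
          rw [Finset.sum_const, nsmul_eq_mul, Finset.card_univ, Nat.card_eq_fintype_card]
      _ ≤ s * ∑ x, μ x := by
          apply mul_le_mul_of_nonneg_right _ (Finset.sum_nonneg fun x _ => hμ x)
          exact_mod_cast hs
  · -- correctness
    intro x hx v
    rw [Finset.mem_biUnion] at hx
    push Not at hx
    induction hd : C.depth v using Nat.strong_induction_on generalizing v with
    | _ d ih =>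
      have hpred : ∀ u, C.depth u < C.depth v → P u x = bv _ (C.val u x) := by
        intro u hu
        rw [hd] at hu
        exact ih _ hu u rfl
      rcases hk v with hv | hv | hv
      · exact hP0 v hv x
      · have hsum : ∀ j, ∑ u ∈ J v, T v j u * wv (fun b => P b x) u =
            ∑ u ∈ (J v).filter (fun u => C.val u.1 x = u.2), T v j u := by
          intro j
          rw [Finset.sum_filter]
          refine Finset.sum_congr rfl fun u hu => ?_
          have h3 : wv (fun b => P b x) u = if C.val u.1 x = u.2 then (1 : ZMod p) else 0 := by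
            rw [← wv_bv (p := p) (fun b => C.val b x) u]
            unfold wv
            simp only [hpred u.1 ((h1 v hv).1 u hu)]
          rw [h3]
          split_ifs <;> simp
        have hprod : ∏ j ∈ range ℓ, (1 - (∑ u ∈ J v, T v j u * wv (fun b => P b x) u) ^ (p - 1)) =
            if ∃ u ∈ J v, C.val u.1 x = u.2 then (0 : ZMod p) else 1 := by
          simp only [hsum]
          by_cases hex : ∃ u ∈ J v, C.val u.1 x = u.2
          · rw [if_pos hex]
            have hne : ((J v).filter (fun u => C.val u.1 x = u.2)).Nonempty := by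
              obtain ⟨u, hu, hu2⟩ := hex
              exact ⟨u, Finset.mem_filter.2 ⟨hu, hu2⟩⟩
            have h3 := hx v (Finset.mem_univ _)
            rw [hBadAt] at h3
            simp only [Finset.mem_filter, Finset.mem_univ, true_and, not_and] at h3
            have h4 := h3 hne
            push Not at h4
            obtain ⟨j, hj, hj2⟩ := h4
            apply Finset.prod_eq_zero (Finset.mem_range.2 hj)
            rw [ZMod.pow_card_sub_one_eq_one hj2, sub_self]
          · rw [if_neg hex]
            apply Finset.prod_eq_one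
            intro j _
            have h3 : (J v).filter (fun u => C.val u.1 x = u.2) = ∅ := by
              rw [Finset.filter_eq_empty_iff]
              intro u hu hu2
              exact hex ⟨u, hu, hu2⟩
            rw [h3, Finset.sum_empty, zero_pow (by omega), sub_zero]
        rw [hP1 v hv x, hprod]
        have h3 := (h1 v hv).2 x
        by_cases hex : ∃ u ∈ J v, C.val u.1 x = u.2
        · have h4 := h3.2 hex
          rw [if_pos hex, h4]
          rcases c v with _ | _ <;> simp [bv]
        · have h4 : C.val v x ≠ c v := fun h => hex (h3.1 h)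
          rw [if_neg hex]
          rcases hc : c v with _ | _
          · have h5 : C.val v x = true := by
              rw [hc] at h4
              simpa using h4
            rw [h5]
            simp [bv]
          · have h5 : C.val v x = false := by
              rw [hc] at h4
              simpa using h4
            rw [h5]
            simp [bv]
      · rw [hP2 v hv x]
        have hsum : ∑ u ∈ J' v, w v u * P u x =
            ∑ u ∈ J' v, w v u * (if C.val u x = true then 1 else 0) := by
          refine Finset.sum_congr rfl fun u hu => ?_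
          rw [hpred u ((h2 v hv).1 u hu)]
          rfl
        rw [hsum]
        have h3 := (h2 v hv).2 x
        by_cases hex : ∑ u ∈ J' v, w v u * (if C.val u x = true then (1 : ZMod p) else 0) = a v
        · rw [h3.2 hex, hex, sub_self, zero_pow (by omega), bv_true, sub_zero]
        · have h5 : C.val v x = false := by
            by_contra hcon
            exact hex (h3.1 (by simpa using hcon))
          rw [h5, ZMod.pow_card_sub_one_eq_one (sub_ne_zero.2 hex), bv_false, sub_self]

end Approx

end Pool.Agent.W2helper86.MD
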