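import Pool.Agent.W2helper86.MD.Defs
import Pool.Agent.W2helper86.MD.RS

/-!
# Composition of circuits
-/

set_option autoImplicit false

namespace Pool.Agent.W2helper86.MD

open Finset

section Basic
variable {p : ℕ} {J : Type}

lemma gateVal_eq (C : Circuit p J) (x : J → Bool) (g : Fin C.size) :
    (C.kind g = GateKind.and →
      (C.gateVal x g = false ↔ ∃ v ∈ C.preds g, C.nodeVal x v = false)) ∧
    (C.kind g = GateKind.or →
      (C.gateVal x g = true ↔ ∃ v ∈ C.preds g, C.nodeVal x v = true)) ∧
    (C.kind g = GateKind.not →
      (C.gateVal x g = false ↔ ∃ v ∈ C.preds g, C.nodeVal x v = true)) ∧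
    (∀ a, C.kind g = GateKind.mod a → (C.gateVal x g = true ↔
      (((C.preds g).filter (fun v => C.nodeVal x v = true)).card : ZMod p) = a)) := by
  classical
  refine ⟨fun hk => ?_, fun hk => ?_, fun hk => ?_, fun a hk => ?_⟩
  · rw [Circuit.gateVal]
    simp only [hk]
    rw [decide_eq_false_iff_not]
    push Not
    constructor
    · rintro ⟨v, hv, h⟩
      refine ⟨v, hv, Bool.eq_false_iff.2 ?_⟩
      cases v <;> exact h
    · rintro ⟨v, hv, h⟩
      refine ⟨v, hv, ?_⟩
      cases v with
      | inl j =>
        show x j ≠ true
        have : x j = false := h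
        rw [this]; decide
      | inr h' =>
        show C.gateVal x h' ≠ true
        have : C.gateVal x h' = false := h
        rw [this]; decide
  · rw [Circuit.gateVal]
    simp only [hk]
    rw [decide_eq_true_iff]
    constructor
    · rintro ⟨v, hv, h⟩
      refine ⟨v, hv, ?_⟩
      cases v <;> exact h
    · rintro ⟨v, hv, h⟩
      refine ⟨v, hv, ?_⟩
      cases v <;> exact h
  · rw [Circuit.gateVal]
    simp only [hk]
    rw [decide_eq_false_iff_not]
    push Not
    constructor
    · rintro ⟨v, hv, h⟩
      refine ⟨v, hv, ?_⟩
      cases v with
      | inl j =>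
        have h' : x j ≠ false := h
        show x j = true
        simpa using h'
      | inr g' =>
        have h' : C.gateVal x g' ≠ false := h
        show C.gateVal x g' = true
        simpa using h'
    · rintro ⟨v, hv, h⟩
      refine ⟨v, hv, ?_⟩
      cases v with
      | inl j =>
        show x j ≠ false
        have : x j = true := h
        rw [this]; decide
      | inr h' =>
        show C.gateVal x h' ≠ false
        have : C.gateVal x h' = true := h
        rw [this]; decide
  · rw [Circuit.gateVal]
    simp only [hk]
    rw [decide_eq_true_iff]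
    refine iff_of_eq (congrArg (fun n : ℕ => (n : ZMod p) = a) ?_)
    rw [← Finset.card_map (Function.Embedding.subtype (fun v => v ∈ C.preds g))]
    congr 1
    ext v
    rw [Finset.mem_map, Finset.mem_filter]
    constructor
    · rintro ⟨⟨w, hw⟩, h, rfl⟩
      rw [Finset.mem_filter] at h
      refine ⟨hw, ?_⟩
      have h' := h.2
      cases w <;> exact h'
    · rintro ⟨hv, h⟩
      refine ⟨⟨v, hv⟩, ?_, rfl⟩
      rw [Finset.mem_filter]
      refine ⟨Finset.mem_attach _ _, ?_⟩
      cases v <;> exact h

lemma depth_lt (C : Circuit p J) {g : Fin C.size} {v : J ⊕ Fin C.size} (hv : v ∈ C.preds g) :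
    C.nodeDepth v < C.gateDepth g := by
  rw [Circuit.gateDepth, Nat.lt_succ_iff]
  have h := Finset.le_sup (f := fun v : {v // v ∈ C.preds g} =>
    (match v with
    | ⟨Sum.inl _, _⟩ => 0
    | ⟨Sum.inr h, _⟩ => C.gateDepth h : ℕ)) (Finset.mem_attach _ ⟨v, hv⟩)
  refine le_trans (le_of_eq ?_) h
  cases v <;> rfl

end Basic

section Comp
variable {p : ℕ} {I : Type}

/-- Composition of a circuit with a family of circuits which read its nodes. -/
noncomputable def comp (B : Ckt p I) {τ : Type} [Finite τ] (J : τ → Type)
    (C : ∀ t, Circuit p (J t)) (o : ∀ t, J t → B.Node) (e : ℕ)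
    (he : ∀ t j, B.depth (o t j) ≤ e) : Ckt p I where
  Node := B.Node ⊕ (Σ t, Fin (C t).size)
  finite := by
    have := B.finite
    infer_instance
  val := fun v x => match v with
    | Sum.inl b => B.val b x
    | Sum.inr ⟨t, g⟩ => (C t).gateVal (fun j => B.val (o t j) x) g
  depth := fun v => match v with
    | Sum.inl b => B.depth b
    | Sum.inr ⟨t, g⟩ => e + (C t).gateDepth g
  rule := by
    classical
    intro v
    rcases v with b | ⟨t, g⟩
    · rcases B.rule b with h | ⟨c, J', h1, h2⟩ | ⟨a, J', w, h1, h2⟩
      · left; exact h
      · right; left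
        refine ⟨c, J'.image (fun u => (Sum.inl u.1, u.2)), ?_, ?_⟩
        · intro u hu
          rw [Finset.mem_image] at hu
          obtain ⟨u', hu', rfl⟩ := hu
          exact h1 u' hu'
        · intro x
          show B.val b x = c ↔ _
          rw [h2 x]
          constructor
          · rintro ⟨u, hu, h⟩
            exact ⟨(Sum.inl u.1, u.2), Finset.mem_image_of_mem _ hu, h⟩
          · rintro ⟨u, hu, h⟩
            rw [Finset.mem_image] at hu
            obtain ⟨u', hu', rfl⟩ := hu
            exact ⟨u', hu', h⟩
      · right; right
        refine ⟨a, J'.map ⟨Sum.inl, Sum.inl_injective⟩, fun u => match u with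
          | Sum.inl u => w u
          | Sum.inr _ => 0, ?_, ?_⟩
        · intro u hu
          rw [Finset.mem_map] at hu
          obtain ⟨u', hu', rfl⟩ := hu
          exact h1 u' hu'
        · intro x
          show B.val b x = true ↔ _
          rw [h2 x, Finset.sum_map]
          exact Iff.rfl
    · -- a gate of the family
      set ι : J t ⊕ Fin (C t).size → B.Node ⊕ (Σ t, Fin (C t).size) := fun v =>
        match v with
        | Sum.inl j => Sum.inl (o t j)
        | Sum.inr h => Sum.inr ⟨t, h⟩ with hι
      set val : B.Node ⊕ (Σ t, Fin (C t).size) → (I → Bool) → Bool := fun v x => match v with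
        | Sum.inl b => B.val b x
        | Sum.inr ⟨t, g⟩ => (C t).gateVal (fun j => B.val (o t j) x) g with hval
      set depth : B.Node ⊕ (Σ t, Fin (C t).size) → ℕ := fun v => match v with
        | Sum.inl b => B.depth b
        | Sum.inr ⟨t, g⟩ => e + (C t).gateDepth g with hdepth
      have hv : ∀ v x, val (ι v) x = (C t).nodeVal (fun j => B.val (o t j) x) v := by
        intro v x
        cases v <;> rfl
      have hd : ∀ v ∈ (C t).preds g, depth (ι v) < e + (C t).gateDepth g := by
        intro v hv
        have h1 := depth_lt (C t) hv
        cases v with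
        | inl j =>
          show B.depth (o t j) < _
          have h2 := he t j
          omega
        | inr h =>
          show e + (C t).gateDepth h < _
          have h2 : (C t).nodeDepth (Sum.inr h) = (C t).gateDepth h := rfl
          omega
      show (∃ A : Finset I, A.card ≤ 1 ∧ ∀ x y, (∀ i ∈ A, x i = y i) →
          val (Sum.inr ⟨t, g⟩) x = val (Sum.inr ⟨t, g⟩) y) ∨
        (∃ (c : Bool) (J' : Finset ((B.Node ⊕ (Σ t, Fin (C t).size)) × Bool)),
          (∀ u ∈ J', depth u.1 < e + (C t).gateDepth g) ∧
          ∀ x, ((C t).gateVal (fun j => B.val (o t j) x) g = c ↔ ∃ u ∈ J', val u.1 x = u.2)) ∨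
        (∃ (a : ZMod p) (J' : Finset (B.Node ⊕ (Σ t, Fin (C t).size)))
          (w : B.Node ⊕ (Σ t, Fin (C t).size) → ZMod p),
          (∀ u ∈ J', depth u < e + (C t).gateDepth g) ∧
          ∀ x, ((C t).gateVal (fun j => B.val (o t j) x) g = true ↔
            ∑ u ∈ J', w u * (if val u x = true then 1 else 0) = a))
      obtain ⟨h1, h2, h3, h4⟩ : (∀ (_ : (C t).kind g = GateKind.and) (x : I → Bool),
          ((C t).gateVal (fun j => B.val (o t j) x) g = false ↔
            ∃ v ∈ (C t).preds g, val (ι v) x = false)) ∧
          (∀ (_ : (C t).kind g = GateKind.or) (x : I → Bool),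
          ((C t).gateVal (fun j => B.val (o t j) x) g = true ↔
            ∃ v ∈ (C t).preds g, val (ι v) x = true)) ∧
          (∀ (_ : (C t).kind g = GateKind.not) (x : I → Bool),
          ((C t).gateVal (fun j => B.val (o t j) x) g = false ↔
            ∃ v ∈ (C t).preds g, val (ι v) x = true)) ∧
          (∀ (a : ZMod p) (_ : (C t).kind g = GateKind.mod a) (x : I → Bool),
          ((C t).gateVal (fun j => B.val (o t j) x) g = true ↔
            (((C t).preds g).filter (fun v => val (ι v) x = true)).card = a)) := by
        refine ⟨fun hk x => ?_, fun hk x => ?_, fun hk x => ?_, fun a hk x => ?_⟩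
        · simp only [hv]; exact (gateVal_eq (C t) _ g).1 hk
        · simp only [hv]; exact (gateVal_eq (C t) _ g).2.1 hk
        · simp only [hv]; exact (gateVal_eq (C t) _ g).2.2.1 hk
        · simp only [hv]; exact (gateVal_eq (C t) _ g).2.2.2 a hk
      have hor : ∀ (b : Bool) (x : I → Bool), (∃ u ∈ ((C t).preds g).image (fun v => (ι v, b)),
          val u.1 x = u.2) ↔ ∃ v ∈ (C t).preds g, val (ι v) x = b := by
        intro b x
        constructor
        · rintro ⟨u, hu, h⟩
          rw [Finset.mem_image] at hu
          obtain ⟨v, hv, rfl⟩ := hu
          exact ⟨v, hv, h⟩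
        · rintro ⟨v, hv, h⟩
          exact ⟨(ι v, b), Finset.mem_image_of_mem _ hv, h⟩
      have hdor : ∀ (b : Bool), ∀ u ∈ ((C t).preds g).image (fun v => (ι v, b)),
          depth u.1 < e + (C t).gateDepth g := by
        intro b u hu
        rw [Finset.mem_image] at hu
        obtain ⟨v, hv, rfl⟩ := hu
        exact hd v hv
      cases hk : (C t).kind g with
      | and =>
        right; left
        exact ⟨false, ((C t).preds g).image (fun v => (ι v, false)), hdor false,
          fun x => by rw [hor, h1 hk x]⟩
      | or =>
        right; left
        exact ⟨true, ((C t).preds g).image (fun v => (ι v, true)), hdor true,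
          fun x => by rw [hor, h2 hk x]⟩
      | not =>
        right; left
        exact ⟨false, ((C t).preds g).image (fun v => (ι v, true)), hdor true,
          fun x => by rw [hor, h3 hk x]⟩
      | mod a =>
        right; right
        refine ⟨a, ((C t).preds g).image ι,
          fun u => ((((C t).preds g).filter (fun v => ι v = u)).card : ZMod p), ?_, ?_⟩
        · intro u hu
          rw [Finset.mem_image] at hu
          obtain ⟨v, hv, rfl⟩ := hu
          exact hd v hv
        · intro x
          rw [h4 a hk x]
          have h5 : ((((C t).preds g).filter (fun v => val (ι v) x = true)).card : ZMod p) =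
              ∑ u ∈ ((C t).preds g).image ι,
                ((((C t).preds g).filter (fun v => ι v = u)).card : ZMod p) *
                  (if val u x = true then 1 else 0) := by
            rw [Finset.card_filter]
            push_cast
            rw [← Finset.sum_fiberwise_of_maps_to (g := ι)
              (fun v hv => Finset.mem_image_of_mem ι hv)]
            refine Finset.sum_congr rfl fun u _ => ?_
            rw [Finset.sum_congr rfl (g := fun _ => if val u x = true then (1 : ZMod p) else 0)]
            · rw [Finset.sum_const, nsmul_eq_mul]
            · intro v hv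
              rw [(Finset.mem_filter.1 hv).2]
          rw [h5]

/-- The conjunction of conditions on the nodes. -/
noncomputable def andz (B : Ckt p I) {Q : ℕ} (o : Fin Q → B.Node) (z : Fin Q → Bool) (e : ℕ)
    (he : ∀ t, B.depth (o t) ≤ e) : Ckt p I where
  Node := Option B.Node
  finite := by
    have := B.finite
    infer_instance
  val := fun v x => match v with
    | some b => B.val b x
    | none => decide (∀ t, B.val (o t) x = z t)
  depth := fun v => match v with
    | some b => B.depth b
    | none => e + 1
  rule := by
    classical
    intro v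
    rcases v with _ | b
    · right; left
      refine ⟨false, univ.image (fun t : Fin Q => (some (o t), !z t)), ?_, ?_⟩
      · intro u hu
        rw [Finset.mem_image] at hu
        obtain ⟨t, _, rfl⟩ := hu
        show B.depth (o t) < e + 1
        have := he t
        omega
      · intro x
        show decide (∀ t, B.val (o t) x = z t) = false ↔ _
        rw [decide_eq_false_iff_not]
        push Not
        constructor
        · rintro ⟨t, ht⟩
          refine ⟨(some (o t), !z t), Finset.mem_image_of_mem _ (Finset.mem_univ t), ?_⟩
          show B.val (o t) x = !z t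
          cases h1 : B.val (o t) x <;> cases h2 : z t <;> simp_all
        · rintro ⟨u, hu, h⟩
          rw [Finset.mem_image] at hu
          obtain ⟨t, _, rfl⟩ := hu
          refine ⟨t, ?_⟩
          have h' : B.val (o t) x = !z t := h
          rw [h']
          cases z t <;> simp
    · rcases B.rule b with h | ⟨c, J', h1, h2⟩ | ⟨a, J', w, h1, h2⟩
      · left; exact h
      · right; left
        refine ⟨c, J'.image (fun u => (some u.1, u.2)), ?_, ?_⟩
        · intro u hu
          rw [Finset.mem_image] at hu
          obtain ⟨u', hu', rfl⟩ := hu
          exact h1 u' hu'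
        · intro x
          show B.val b x = c ↔ _
          rw [h2 x]
          constructor
          · rintro ⟨u, hu, h⟩
            exact ⟨(some u.1, u.2), Finset.mem_image_of_mem _ hu, h⟩
          · rintro ⟨u, hu, h⟩
            rw [Finset.mem_image] at hu
            obtain ⟨u', hu', rfl⟩ := hu
            exact ⟨u', hu', h⟩
      · right; right
        refine ⟨a, J'.map ⟨some, Option.some_injective _⟩, fun u => match u with
          | some u => w u
          | none => 0, ?_, ?_⟩
        · intro u hu
          rw [Finset.mem_map] at hu
          obtain ⟨u', hu', rfl⟩ := hu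
          exact h1 u' hu'
        · intro x
          show B.val b x = true ↔ _
          rw [h2 x, Finset.sum_map]
          exact Iff.rfl

/-- A circuit consisting of functions of at most one variable. -/
def leaves (p : ℕ) {W : Type} [Finite W] (f : W → (I → Bool) → Bool)
    (hf : ∀ j, ∃ A : Finset I, A.card ≤ 1 ∧ ∀ x y, (∀ i ∈ A, x i = y i) → f j x = f j y) :
    Ckt p I where
  Node := W
  val := f
  depth := fun _ => 0
  rule := fun j => Or.inl (hf j)

end Comp

end Pool.Agent.W2helper86.MD
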