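import Pool.Agent.W2helper86.MD.Core
import Pool.Agent.W2helper86.MD.Conv

/-!
# Majority and parity on many blocks
-/

set_option autoImplicit false

namespace Pool.Agent.W2helper86.MD

open Finset

/-- the number of ones -/
def wt {n : ℕ} (x : Fin n → Bool) : ℕ := (univ.filter (fun a => x a = true)).card

lemma wt_not {n : ℕ} (x : Fin n → Bool) : wt (fun a => !x a) + wt x = n := by
  unfold wt
  have h := Finset.card_filter_add_card_filter_not (s := (univ : Finset (Fin n)))
    (fun a => x a = true)
  rw [Finset.card_univ, Fintype.card_fin] at h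
  have h2 : (univ.filter (fun a : Fin n => (!x a) = true)) =
      (univ.filter (fun a : Fin n => ¬ x a = true)) := by
    refine Finset.filter_congr fun a _ => ?_
    simp
  rw [h2]
  omega

/-- A self-dual function on `2 * k + 1` bits such that no nonzero function of small degree is
supported on a product of sets of zeros. -/
structure HardBlock (p k : ℕ) [Fact p.Prime] (h : (Fin (2 * k + 1) → Bool) → Bool) : Prop where
  zero : h (fun _ => false) = false
  dual : ∀ x, h (fun i => !x i) = !h x
  thin : ∀ (S : Type) [Fintype S] [DecidableEq S],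
    Thin (ZMod p) {y : S × Fin (2 * k + 1) → Bool | ∀ i, h (fun a => y (i, a)) = false}
      (Fintype.card S * k)

/-- majority -/
def majF (k : ℕ) (x : Fin (2 * k + 1) → Bool) : Bool := decide (k < wt x)

/-- parity -/
def parF (k : ℕ) (x : Fin (2 * k + 1) → Bool) : Bool := decide (Odd (wt x))

lemma wt_false (n : ℕ) : wt (fun _ : Fin n => false) = 0 := by
  unfold wt
  simp

lemma card_prod_filter {S : Type} [Fintype S] [DecidableEq S] {n : ℕ} (P : S × Fin n → Prop)
    [DecidablePred P] :
    (univ.filter P).card = ∑ i, (univ.filter (fun a => P (i, a))).card := by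
  rw [Finset.card_filter, Fintype.sum_prod_type]
  refine Finset.sum_congr rfl fun i _ => ?_
  rw [Finset.card_filter]

theorem hard_maj (p k : ℕ) [Fact p.Prime] : HardBlock p k (majF k) where
  zero := by
    unfold majF
    rw [wt_false]
    simp
  dual := by
    intro x
    have h := wt_not x
    unfold majF
    by_cases h1 : k < wt x
    · rw [decide_eq_true h1, decide_eq_false (by omega)]
      rfl
    · rw [decide_eq_false h1, decide_eq_true (by omega)]
      rfl
  thin := by
    intro S _ _ D f hf hs hD
    refine supp_zero (ρ := Fintype.card S * k) hf ?_ hD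
    intro x hx
    rw [card_prod_filter]
    have h1 : ∀ i ∈ (univ : Finset S), (univ.filter (fun a => x (i, a) = true)).card ≤ k := by
      intro i _
      have h2 : majF k (fun a => x (i, a)) = false := hs x hx i
      unfold majF wt at h2
      rw [decide_eq_false_iff_not, not_lt] at h2
      exact h2
    refine (Finset.sum_le_card_nsmul _ _ _ h1).trans ?_
    rw [Finset.card_univ, smul_eq_mul]

section Par
variable {p : ℕ} [Fact p.Prime]

/-- the sign of a bit -/
def sg (p : ℕ) (b : Bool) : ZMod p := if b = true then (-1) else 1

lemma sg_mul_self (b : Bool) : sg p b * sg p b = 1 := by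
  unfold sg
  split_ifs <;> ring

/-- the characters -/
def ch {I : Type} [Fintype I] [DecidableEq I] (p : ℕ) (T : Finset I)
    (x : I → Bool) : ZMod p := ∏ q, if q ∈ T then sg p (x q) else 1

lemma ch_deg {I : Type} [Fintype I] [DecidableEq I] {k : ℕ} {T : Finset I} (h : T.card ≤ k) :
    Deg (K := ZMod p) k (ch p T) :=
  Deg.of_jun ⟨T, h, fun x y hxy => by
    unfold ch
    refine Finset.prod_congr rfl fun q _ => ?_
    by_cases hq : q ∈ T
    · rw [hxy q hq]
    · rw [if_neg hq, if_neg hq]⟩

lemma ch_sum {I : Type} [Fintype I] [DecidableEq I] (x y : I → Bool) :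
    ∑ T : Finset I, ch p T x * ch p T y = if x = y then 2 ^ (Fintype.card I) else 0 := by
  have h1 : ∀ T : Finset I, ch p T x * ch p T y = ∏ q ∈ T, (sg p (x q) * sg p (y q)) := by
    intro T
    unfold ch
    rw [← Finset.prod_mul_distrib]
    rw [← Finset.prod_filter_mul_prod_filter_not univ (fun q => q ∈ T)]
    have e1 : ∏ q ∈ univ.filter (fun q => q ∈ T), ((if q ∈ T then sg p (x q) else 1) *
        (if q ∈ T then sg p (y q) else 1)) = ∏ q ∈ T, (sg p (x q) * sg p (y q)) := by
      rw [Finset.filter_mem_eq_inter, Finset.univ_inter]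
      refine Finset.prod_congr rfl fun q hq => ?_
      rw [if_pos hq, if_pos hq]
    have e2 : ∏ q ∈ univ.filter (fun q => q ∉ T), ((if q ∈ T then sg p (x q) else 1) *
        (if q ∈ T then sg p (y q) else 1)) = 1 := by
      refine Finset.prod_eq_one fun q hq => ?_
      have := (Finset.mem_filter.1 hq).2
      rw [if_neg this, if_neg this, one_mul]
    rw [e1, e2, mul_one]
  rw [Finset.sum_congr rfl fun T _ => h1 T]
  have h2 := Finset.prod_one_add (f := fun q : I => sg p (x q) * sg p (y q)) univ
  rw [Finset.powerset_univ] at h2
  rw [← h2]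
  split_ifs with hxy
  · subst hxy
    rw [Finset.prod_congr rfl fun q _ => by rw [sg_mul_self]]
    rw [Finset.prod_const, Finset.card_univ]
    norm_num
  · obtain ⟨q, hq⟩ : ∃ q, x q ≠ y q := by
      by_contra hcon
      push Not at hcon
      exact hxy (funext hcon)
    apply Finset.prod_eq_zero (Finset.mem_univ q)
    unfold sg
    cases h3 : x q <;> cases h4 : y q <;> simp_all

lemma sg_prod {n : ℕ} (y : Fin n → Bool) : ∏ a, sg p (y a) = (-1) ^ (wt y) := by
  unfold sg wt
  rw [Finset.prod_ite, Finset.prod_const, Finset.prod_const, one_pow, mul_one]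

lemma ch_block {n : ℕ} (T : Finset (Fin n)) (y : Fin n → Bool) (hy : Even (wt y)) :
    ch p T y = ch p Tᶜ y := by
  have h0 : ∏ a, sg p (y a) = 1 := by rw [sg_prod, hy.neg_one_pow]
  have h1 : ch p T y * ch p Tᶜ y = 1 := by
    refine Eq.trans ?_ h0
    unfold ch
    rw [← Finset.prod_mul_distrib]
    refine Finset.prod_congr rfl fun a _ => ?_
    by_cases ha : a ∈ T
    · simp [ha]
    · simp [ha]
  have h2 : ch p T y * ch p T y = 1 := by
    unfold ch
    rw [← Finset.prod_mul_distrib]
    refine Finset.prod_eq_one fun a _ => ?_
    split_ifs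
    · exact sg_mul_self _
    · exact one_mul _
  calc ch p T y = ch p T y * (ch p T y * ch p Tᶜ y) := by rw [h1, mul_one]
    _ = (ch p T y * ch p T y) * ch p Tᶜ y := by ring
    _ = ch p Tᶜ y := by rw [h2, one_mul]

lemma ch_prod {S : Type} [Fintype S] [DecidableEq S] {n : ℕ} (T : Finset (S × Fin n))
    (x : S × Fin n → Bool) :
    ch p T x = ∏ i, ch p (univ.filter (fun a => (i, a) ∈ T)) (fun a => x (i, a)) := by
  unfold ch
  rw [Fintype.prod_prod_type]
  refine Finset.prod_congr rfl fun i _ => Finset.prod_congr rfl fun a _ => ?_
  simp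

theorem hard_par (k : ℕ) (hp : p ≠ 2) : HardBlock p k (parF k) where
  zero := by
    unfold parF
    rw [wt_false]
    simp
  dual := by
    intro x
    have h := wt_not x
    unfold parF
    by_cases h1 : Odd (wt x)
    · rw [decide_eq_true h1, decide_eq_false]
      · rfl
      · intro h2
        have h3 := h2.add_odd h1
        rw [h] at h3
        exact absurd (Nat.odd_iff.1 (⟨k, by ring⟩ : Odd (2 * k + 1)))
          (by have := Nat.even_iff.1 h3; omega)
    · rw [decide_eq_false h1, decide_eq_true]
      · rfl
      · rw [Nat.odd_iff] at h1 ⊢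
        omega
  thin := by
    intro S _ _ D f hf hs hD x0
    have h2 : (2 : ZMod p) ≠ 0 := by
      intro h
      have h3 : ((2 : ℕ) : ZMod p) = 0 := by exact_mod_cast h
      rw [ZMod.natCast_eq_zero_iff] at h3
      have h4 := (Nat.prime_dvd_prime_iff_eq (Fact.out : p.Prime) Nat.prime_two).1 h3
      exact hp h4
    -- orthogonality to all the characters
    have key : ∀ T : Finset (S × Fin (2 * k + 1)), ∑ x, sgn (ZMod p) x * (f x * ch p T x) = 0 := by
      intro T
      set T' : Finset (S × Fin (2 * k + 1)) := univ.filter (fun q =>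
        if (univ.filter (fun a => (q.1, a) ∈ T)).card ≤ k then q ∈ T else q ∉ T) with hT'
      have hblk : ∀ i, (univ.filter (fun a => (i, a) ∈ T')) =
          if (univ.filter (fun a => (i, a) ∈ T)).card ≤ k then (univ.filter (fun a => (i, a) ∈ T))
          else (univ.filter (fun a => (i, a) ∈ T))ᶜ := by
        intro i
        ext a
        rw [Finset.mem_filter, hT', Finset.mem_filter]
        by_cases hc : (univ.filter (fun a => (i, a) ∈ T)).card ≤ k
        · simp [hc]
        · simp [hc]
      have hcard : T'.card ≤ Fintype.card S * k := by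
        have h3 : T'.card = ∑ i, (univ.filter (fun a => (i, a) ∈ T')).card := by
          rw [← card_prod_filter (fun q => q ∈ T')]
          congr 1
          ext q
          simp
        rw [h3]
        refine (Finset.sum_le_card_nsmul _ _ k fun i _ => ?_).trans ?_
        · rw [hblk i]
          split_ifs with hc
          · exact hc
          · rw [Finset.card_compl, Fintype.card_fin]
            omega
        · rw [Finset.card_univ, smul_eq_mul]
      have heq : ∀ x, sgn (ZMod p) x * (f x * ch p T x) = sgn (ZMod p) x * (f x * ch p T' x) := by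
        intro x
        by_cases hfx : f x = 0
        · rw [hfx]; ring
        · have hx := hs x hfx
          congr 2
          rw [ch_prod, ch_prod T']
          refine Finset.prod_congr rfl fun i _ => ?_
          rw [hblk i]
          split_ifs with hc
          · rfl
          · apply ch_block
            have h5 : parF k (fun a => x (i, a)) = false := hx i
            unfold parF at h5
            rw [decide_eq_false_iff_not, Nat.not_odd_iff_even] at h5
            exact h5
      rw [Finset.sum_congr rfl fun x _ => heq x]
      refine sum_sgn (k := D + T'.card) (hf.mul (ch_deg le_rfl)) ?_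
      omega
    have h3 : ∑ T : Finset (S × Fin (2 * k + 1)),
        ch p T x0 * ∑ x, sgn (ZMod p) x * (f x * ch p T x) = 0 :=
      Finset.sum_eq_zero fun T _ => by rw [key T, mul_zero]
    have h4 : ∑ T : Finset (S × Fin (2 * k + 1)),
        ch p T x0 * ∑ x, sgn (ZMod p) x * (f x * ch p T x) =
        sgn (ZMod p) x0 * f x0 * 2 ^ (Fintype.card (S × Fin (2 * k + 1))) := by
      simp only [Finset.mul_sum]
      rw [Finset.sum_comm]
      have h5 : ∀ x, ∑ T : Finset (S × Fin (2 * k + 1)),
          ch p T x0 * (sgn (ZMod p) x * (f x * ch p T x)) =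
          sgn (ZMod p) x * f x * if x0 = x then 2 ^ (Fintype.card (S × Fin (2 * k + 1))) else 0 := by
        intro x
        rw [← ch_sum, Finset.mul_sum]
        refine Finset.sum_congr rfl fun T _ => ?_
        ring
      rw [Finset.sum_congr rfl fun x _ => h5 x]
      rw [Finset.sum_eq_single x0]
      · rw [if_pos rfl]
      · intro x _ hx
        rw [if_neg (Ne.symm hx), mul_zero]
      · intro h
        exact absurd (Finset.mem_univ _) h
    rw [h4] at h3
    rcases mul_eq_zero.1 h3 with h | h
    · rcases mul_eq_zero.1 h with h | h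
      · exact absurd h (sgn_ne_zero x0)
      · exact h
    · exact absurd h (pow_ne_zero _ h2)

end Par

end Pool.Agent.W2helper86.MD
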