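import Pool.Agent.W2helper86.MD.Hilb

/-!
# Lower bounds for the number of small subsets
-/

set_option autoImplicit false

namespace Pool.Agent.W2helper86.MD

open Finset

lemma cnt_eq_card (α : Type) [Fintype α] [DecidableEq α] (e : ℕ) :
    cnt (Fintype.card α) e = ((univ : Finset (Finset α)).filter (fun T => T.card < e)).card := by
  rw [Finset.card_eq_sum_card_fiberwise (f := fun T : Finset α => T.card) (t := range e)]
  · unfold cnt
    refine Finset.sum_congr rfl fun i hi => ?_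
    rw [← Finset.card_univ, ← Finset.card_powersetCard]
    congr 1
    ext T
    simp only [Finset.mem_powersetCard, Finset.subset_univ, true_and, Finset.mem_filter,
      Finset.mem_univ]
    have := Finset.mem_range.1 hi
    constructor
    · intro h; exact ⟨by omega, h⟩
    · intro h; exact h.2
  · intro T hT
    simp only [Finset.coe_filter, Finset.mem_univ, true_and, Set.mem_ofPred_eq] at hT
    simpa using hT

lemma cnt_mul (N₁ N₂ e f : ℕ) : cnt N₁ (e + 1) * cnt N₂ (f + 1) ≤ cnt (N₁ + N₂) (e + f + 1) := by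
  have h1 := cnt_eq_card (Fin N₁) (e + 1)
  have h2 := cnt_eq_card (Fin N₂) (f + 1)
  have h3 := cnt_eq_card (Fin N₁ ⊕ Fin N₂) (e + f + 1)
  rw [Fintype.card_fin] at h1 h2
  rw [Fintype.card_sum, Fintype.card_fin, Fintype.card_fin] at h3
  rw [h1, h2, h3, ← Finset.card_product]
  refine Finset.card_le_card_of_injOn (fun q => q.1.disjSum q.2) ?_ ?_
  · intro q hq
    simp only [Finset.coe_product, Finset.coe_filter, Finset.mem_univ, true_and, Set.mem_prod,
      Set.mem_ofPred_eq] at hq ⊢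
    rw [Finset.card_disjSum]
    omega
  · intro q _ q' _ h
    have h4 : q.1.disjSum q.2 = q'.1.disjSum q'.2 := h
    refine Prod.ext ?_ ?_
    · ext a
      rw [← Finset.inl_mem_disjSum (t := q.2), h4, Finset.inl_mem_disjSum]
    · ext a
      rw [← Finset.inr_mem_disjSum (s := q.1), h4, Finset.inr_mem_disjSum]

lemma cnt_pow (N e : ℕ) : ∀ b : ℕ, cnt N (e + 1) ^ b ≤ cnt (b * N) (b * e + 1) := by
  intro b
  induction b with
  | zero => simp [cnt]
  | succ b ih =>
    rw [pow_succ]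
    calc cnt N (e + 1) ^ b * cnt N (e + 1) ≤ cnt (b * N) (b * e + 1) * cnt N (e + 1) :=
          Nat.mul_le_mul_right _ ih
      _ ≤ cnt (b * N + N) (b * e + e + 1) := cnt_mul _ _ _ _
      _ = cnt ((b + 1) * N) ((b + 1) * e + 1) := by
          rw [Nat.add_mul, Nat.add_mul, one_mul, one_mul]

lemma cnt_full (N : ℕ) : cnt N (N + 1) = 2 ^ N := Nat.sum_range_choose N

lemma central_bound (w : ℕ) : (2 * w + 1) * Nat.centralBinom w ^ 2 ≤ 16 ^ w := by
  induction w with
  | zero => simp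
  | succ n ih =>
    have h1 := Nat.succ_mul_centralBinom_succ n
    set c := Nat.centralBinom n
    set c' := Nat.centralBinom (n + 1)
    have h2 : (n + 1) ^ 2 * ((2 * (n + 1) + 1) * c' ^ 2) ≤ (n + 1) ^ 2 * 16 ^ (n + 1) := by
      calc (n + 1) ^ 2 * ((2 * (n + 1) + 1) * c' ^ 2) = (2 * n + 3) * ((n + 1) * c') ^ 2 := by ring
        _ = (2 * n + 3) * (2 * (2 * n + 1) * c) ^ 2 := by rw [h1]
        _ = 4 * ((2 * n + 3) * (2 * n + 1)) * ((2 * n + 1) * c ^ 2) := by ring
        _ ≤ 4 * ((2 * n + 3) * (2 * n + 1)) * 16 ^ n := Nat.mul_le_mul_left _ ih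
        _ ≤ 4 * (4 * (n + 1) ^ 2) * 16 ^ n := by
            apply Nat.mul_le_mul_right
            apply Nat.mul_le_mul_left
            nlinarith
        _ = (n + 1) ^ 2 * 16 ^ (n + 1) := by ring
    exact Nat.le_of_mul_le_mul_left h2 (by positivity)

lemma choose_bound (w i : ℕ) : (2 * w + 1).choose i ≤ 2 * Nat.centralBinom w := by
  cases i with
  | zero =>
    rw [Nat.choose_zero_right]
    have := Nat.centralBinom_pos w
    omega
  | succ i =>
    rw [Nat.choose_succ_succ]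
    have h1 := Nat.choose_le_centralBinom i w
    have h2 := Nat.choose_le_centralBinom (i + 1) w
    have h3 : (i).succ = i + 1 := rfl
    rw [h3]
    omega

/-- The lower tail of the binomial distribution. -/
lemma tail {w u : ℕ} (hu : 16 * u ^ 2 ≤ 2 * w + 1) :
    2 ^ (2 * w + 1) ≤ cnt (2 * w + 1) (w - u + 1) * 4 := by
  have huw : u ≤ w := by
    rcases Nat.eq_zero_or_pos u with h | h
    · omega
    · nlinarith
  have h1 : cnt (2 * w + 1) (w + 1) = 4 ^ w := Nat.sum_range_choose_halfway w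
  have h2 : cnt (2 * w + 1) (w + 1) ≤ cnt (2 * w + 1) (w - u + 1) +
      u * (2 * Nat.centralBinom w) := by
    unfold cnt
    rw [show w + 1 = (w - u + 1) + u by omega, Finset.sum_range_add]
    apply Nat.add_le_add_left
    refine (Finset.sum_le_card_nsmul _ _ (2 * Nat.centralBinom w) fun i _ => choose_bound w _).trans ?_
    rw [Finset.card_range, smul_eq_mul]
  have h3 : 4 * u * Nat.centralBinom w ≤ 4 ^ w := by
    have h4 : (4 * u * Nat.centralBinom w) ^ 2 ≤ (4 ^ w) ^ 2 := by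
      calc (4 * u * Nat.centralBinom w) ^ 2 = 16 * u ^ 2 * Nat.centralBinom w ^ 2 := by ring
        _ ≤ (2 * w + 1) * Nat.centralBinom w ^ 2 := Nat.mul_le_mul_right _ hu
        _ ≤ 16 ^ w := central_bound w
        _ = (4 ^ w) ^ 2 := by rw [← pow_mul, mul_comm w 2, pow_mul]; norm_num
    exact (Nat.pow_le_pow_iff_left (by norm_num)).1 h4
  have h5 : 2 ^ (2 * w + 1) = 2 * 4 ^ w := by
    rw [pow_succ, pow_mul]
    norm_num
    ring
  have h6 : u * (2 * Nat.centralBinom w) * 2 = 4 * u * Nat.centralBinom w := by ring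
  rw [h5]
  omega

/-- The number of small subsets of a union of blocks. -/
lemma tail_blocks {M k b u ρ : ℕ} (hk : 2 * k + 1 = b * (16 * u ^ 2 + 1) + ρ) :
    2 ^ (M * (2 * k + 1)) ≤
      cnt (M * (2 * k + 1)) (M * (b * (8 * u ^ 2 - u) + ρ) + 1) * 4 ^ (M * b) := by
  have h1 : 2 ^ (16 * u ^ 2 + 1) ≤ cnt (16 * u ^ 2 + 1) (8 * u ^ 2 - u + 1) * 4 := by
    have := tail (w := 8 * u ^ 2) (u := u) (by omega)
    rw [show 2 * (8 * u ^ 2) + 1 = 16 * u ^ 2 + 1 by ring] at this
    exact this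
  set κ := 16 * u ^ 2 + 1
  set f := 8 * u ^ 2 - u
  have h2 : 2 ^ (2 * k + 1) ≤ cnt (2 * k + 1) (b * f + ρ + 1) * 4 ^ b := by
    calc 2 ^ (2 * k + 1) = (2 ^ κ) ^ b * 2 ^ ρ := by
          rw [hk, pow_add, mul_comm b κ, pow_mul]
      _ ≤ (cnt κ (f + 1) * 4) ^ b * 2 ^ ρ :=
          Nat.mul_le_mul_right _ (Nat.pow_le_pow_left h1 b)
      _ = cnt κ (f + 1) ^ b * cnt ρ (ρ + 1) * 4 ^ b := by rw [cnt_full, mul_pow]; ring
      _ ≤ cnt (b * κ) (b * f + 1) * cnt ρ (ρ + 1) * 4 ^ b := by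
          apply Nat.mul_le_mul_right
          apply Nat.mul_le_mul_right
          exact cnt_pow _ _ _
      _ ≤ cnt (b * κ + ρ) (b * f + ρ + 1) * 4 ^ b := by
          apply Nat.mul_le_mul_right
          exact cnt_mul _ _ _ _
      _ = cnt (2 * k + 1) (b * f + ρ + 1) * 4 ^ b := by rw [hk]
  calc 2 ^ (M * (2 * k + 1)) = (2 ^ (2 * k + 1)) ^ M := by rw [mul_comm, pow_mul]
    _ ≤ (cnt (2 * k + 1) (b * f + ρ + 1) * 4 ^ b) ^ M := Nat.pow_le_pow_left h2 M
    _ = cnt (2 * k + 1) (b * f + ρ + 1) ^ M * 4 ^ (M * b) := by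
        rw [mul_pow, mul_comm M b, pow_mul]
    _ ≤ cnt (M * (2 * k + 1)) (M * (b * f + ρ) + 1) * 4 ^ (M * b) :=
        Nat.mul_le_mul_right _ (cnt_pow _ _ _)

end Pool.Agent.W2helper86.MD
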