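import Pool.Agent.W2helper86.MD.Tail
import Pool.Agent.W2helper86.MD.RS

/-!
# A large set recognized by a circuit supports a nonzero function of small degree
-/

set_option autoImplicit false

namespace Pool.Agent.W2helper86.MD

open Finset

section Reindex
variable {I I' K : Type} [Field K]

lemma Deg.reindex (ε : I' → I) {k : ℕ} {f : (I' → Bool) → K} (h : Deg k f) :
    Deg k (fun x : I → Bool => f (fun i => x (ε i))) := by
  classical
  unfold Deg at h
  induction h using Submodule.span_induction with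
  | mem f hf =>
    obtain ⟨A, hA, h⟩ := hf
    refine Deg.of_jun ⟨A.image ε, Finset.card_image_le.trans hA, fun x y hxy => ?_⟩
    exact h _ _ fun i hi => hxy _ (Finset.mem_image_of_mem _ hi)
  | zero => exact Deg.const _ _
  | add a b _ _ ha hb => exact ha.add hb
  | smul c a _ ha => exact ha.smul c

variable [Fintype I] [DecidableEq I]

theorem exists_vanish' (K : Type) [Field K] {e : ℕ} (E A : Finset (I → Bool))
    (h : E.card * 2 ^ (Fintype.card I) < A.card * cnt (Fintype.card I) (e + 1)) :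
    ∃ v : (I → Bool) → K, Deg e v ∧ (∀ x ∈ E, v x = 0) ∧ ∃ x ∈ A, v x ≠ 0 := by
  classical
  set ε : Fin (Fintype.card I) ≃ I := (Fintype.equivFin I).symm with hε
  set θ : (I → Bool) ↪ (Fin (Fintype.card I) → Bool) :=
    ⟨fun x i => x (ε i), fun x y hxy => by
      funext i
      have := congrFun hxy (ε.symm i)
      simpa using this⟩ with hθ
  obtain ⟨v, hv, hE, x, hx, hvx⟩ := exists_vanish K (E.map θ) (A.map θ) (e := e)
    (by rw [Finset.card_map, Finset.card_map]; exact h)
  refine ⟨fun x => v (θ x), hv.reindex ε, fun x hx => ?_, ?_⟩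
  · exact hE _ (Finset.mem_map_of_mem _ hx)
  · rw [Finset.mem_map] at hx
    obtain ⟨y, hy, rfl⟩ := hx
    exact ⟨y, hy, hvx⟩

end Reindex

section Main
variable {p : ℕ} [Fact p.Prime] {I : Type} [Fintype I] [DecidableEq I]

/-- Amplification: a polynomial which is nonzero on most of the accepted inputs, and nonzero on
very few of the rejected inputs. -/
theorem amplify (C : Ckt p I) (v : C.Node) {s ℓ : ℕ} (hs : Nat.card C.Node ≤ s) (hs1 : 1 ≤ s)
    (hℓ : 1 ≤ ℓ) (a b : ℝ) (ha : 0 ≤ a) (hb : 0 ≤ b) : ∀ L : ℕ,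
    ∃ (g : (I → Bool) → ZMod p) (E Z : Finset (I → Bool)),
      Deg (L * (ℓ * (p - 1)) ^ (C.depth v)) g ∧
      (∀ x, C.val v x = false → g x ≠ 0 → x ∈ E) ∧
      (∀ x, C.val v x = true → g x = 0 → x ∈ Z) ∧
      a * ((p : ℝ) ^ ℓ / s) ^ L * E.card + b * Z.card ≤ a * 2 ^ (Fintype.card I) +
        L * (b * (s / (p : ℝ) ^ ℓ) *
          (univ.filter (fun x : I → Bool => C.val v x = true)).card) := by
  classical
  have hp0 : (0 : ℝ) < p := by
    have := (Fact.out : p.Prime).pos
    exact_mod_cast this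
  have hs0 : (0 : ℝ) < s := by exact_mod_cast hs1
  have hpl : (0 : ℝ) < (p : ℝ) ^ ℓ := by positivity
  intro L
  induction L with
  | zero =>
    refine ⟨fun _ => 1, univ, ∅, ?_, fun x _ _ => Finset.mem_univ _, ?_, ?_⟩
    · exact Deg.const _ _
    · intro x _ h
      exact absurd h one_ne_zero
    · simp [Finset.card_univ]
  | succ L ih =>
    obtain ⟨g, E, Z, hg, hE, hZ, hsum⟩ := ih
    set A : Finset (I → Bool) := univ.filter (fun x => C.val v x = true) with hA
    set r : ℝ := (p : ℝ) ^ ℓ / s with hr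
    have hr0 : 0 < r := by positivity
    have hr1 : s / (p : ℝ) ^ ℓ = r⁻¹ := by rw [hr, inv_div]
    set μ : (I → Bool) → ℝ := fun x =>
      (if x ∈ E then a * r ^ (L + 1) else 0) + (if x ∈ A then b else 0) with hμ
    have hμ0 : ∀ x, 0 ≤ μ x := by
      intro x
      rw [hμ]
      have : 0 ≤ a * r ^ (L + 1) := by positivity
      dsimp only
      split_ifs <;> linarith
    obtain ⟨P, hP, Bad, hBad, hcorr⟩ := approx C hs hℓ μ hμ0
    have htot : ∑ x, μ x = a * r ^ (L + 1) * E.card + b * A.card := by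
      rw [hμ, Finset.sum_add_distrib, ← Finset.sum_filter, ← Finset.sum_filter,
        Finset.filter_mem_eq_inter, Finset.filter_mem_eq_inter, Finset.univ_inter,
        Finset.univ_inter, Finset.sum_const, Finset.sum_const, nsmul_eq_mul, nsmul_eq_mul]
      ring
    have hbad : ∑ x ∈ Bad, μ x = a * r ^ (L + 1) * (E ∩ Bad).card + b * (A ∩ Bad).card := by
      rw [hμ, Finset.sum_add_distrib, ← Finset.sum_filter, ← Finset.sum_filter,
        Finset.filter_mem_eq_inter, Finset.filter_mem_eq_inter, Finset.inter_comm Bad E,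
        Finset.inter_comm Bad A, Finset.sum_const, Finset.sum_const, nsmul_eq_mul, nsmul_eq_mul]
      ring
    refine ⟨fun x => g x * P v x, E ∩ Bad, Z ∪ (A ∩ Bad), ?_, ?_, ?_, ?_⟩
    · have := hg.mul (hP v)
      refine this.mono ?_
      apply le_of_eq
      ring
    · intro x hx hgx
      rw [Finset.mem_inter]
      refine ⟨hE x hx (left_ne_zero_of_mul hgx), ?_⟩
      by_contra hxB
      apply right_ne_zero_of_mul hgx
      rw [hcorr x hxB v, hx, bv_false]
    · intro x hx hgx
      rw [Finset.mem_union, Finset.mem_inter]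
      by_cases hg0 : g x = 0
      · left; exact hZ x hx hg0
      · right
        refine ⟨by simp [hA, hx], ?_⟩
        by_contra hxB
        rcases mul_eq_zero.1 hgx with h | h
        · exact hg0 h
        · rw [hcorr x hxB v, hx, bv_true] at h
          exact one_ne_zero h
    · have h1 : ((Z ∪ (A ∩ Bad)).card : ℝ) ≤ Z.card + (A ∩ Bad).card := by
        exact_mod_cast Finset.card_union_le _ _
      rw [htot, hbad] at hBad
      have h2 : a * r ^ (L + 1) * (E ∩ Bad).card + b * (A ∩ Bad).card ≤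
          r⁻¹ * (a * r ^ (L + 1) * E.card + b * A.card) := by
        rw [← hr1, div_mul_eq_mul_div, le_div_iff₀ hpl]
        exact hBad
      have h3 : r⁻¹ * (a * r ^ (L + 1) * E.card + b * A.card) =
          a * r ^ L * E.card + b * r⁻¹ * A.card := by
        rw [pow_succ]
        field_simp
      rw [h3] at h2
      rw [hr1] at hsum ⊢
      have h4 : b * ((Z ∪ (A ∩ Bad)).card : ℝ) ≤ b * (Z.card + (A ∩ Bad).card) :=
        mul_le_mul_of_nonneg_left h1 hb
      push_cast
      linarith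

/-- Amplification, with the numbers filled in. -/
theorem amplify' (C : Ckt p I) (v : C.Node) {s ℓ L : ℕ} (hs : Nat.card C.Node ≤ s) (hs1 : 1 ≤ s)
    (hℓ : 1 ≤ ℓ) (hL : 1 ≤ L) (h4 : 4 * (L + 1) * s ≤ p ^ ℓ)
    (hne : (univ.filter (fun x : I → Bool => C.val v x = true)).Nonempty) :
    ∃ (g : (I → Bool) → ZMod p),
      Deg (L * (ℓ * (p - 1)) ^ (C.depth v)) g ∧
      (univ.filter (fun x => C.val v x = false ∧ g x ≠ 0)).card * 4 ^ L ≤ 2 ^ (Fintype.card I) ∧
      (univ.filter (fun x : I → Bool => C.val v x = true)).card ≤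
        2 * (univ.filter (fun x => C.val v x = true ∧ g x ≠ 0)).card := by
  classical
  set A : Finset (I → Bool) := univ.filter (fun x => C.val v x = true) with hA
  have hA0 : (0 : ℝ) < A.card := by exact_mod_cast Finset.card_pos.2 hne
  have hp0 : (0 : ℝ) < p := by
    have := (Fact.out : p.Prime).pos
    exact_mod_cast this
  have hs0 : (0 : ℝ) < s := by exact_mod_cast hs1
  have hL0 : (0 : ℝ) < L := by exact_mod_cast hL
  set r : ℝ := (p : ℝ) ^ ℓ / s with hr
  have hr4 : 4 * ((L : ℝ) + 1) ≤ r := by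
    rw [hr, le_div_iff₀ hs0]
    exact_mod_cast h4
  have hr0 : 0 < r := by positivity
  have hr1 : s / (p : ℝ) ^ ℓ = r⁻¹ := by rw [hr, inv_div]
  have hX : (0 : ℝ) < 2 ^ (Fintype.card I) := by positivity
  obtain ⟨g, E, Z, hg, hE, hZ, hsum⟩ := amplify C v hs hs1 hℓ (1 / 2 ^ (Fintype.card I))
    (r / A.card) (by positivity) (by positivity) L
  have e1 : (1 / 2 ^ (Fintype.card I) * (2 : ℝ) ^ (Fintype.card I) +
        L * (r / A.card * (s / (p : ℝ) ^ ℓ) * A.card)) = 1 + L := by
    rw [hr1]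
    field_simp
  rw [e1] at hsum
  refine ⟨g, hg, ?_, ?_⟩
  · have h1 : (univ.filter (fun x => C.val v x = false ∧ g x ≠ 0)).card ≤ E.card := by
      apply Finset.card_le_card
      intro x hx
      simp only [Finset.mem_filter, Finset.mem_univ, true_and] at hx
      exact hE x hx.1 hx.2
    have h2 : 1 / 2 ^ (Fintype.card I) * r ^ L * (E.card : ℝ) ≤ 1 + L := by
      have : 0 ≤ r / A.card * (Z.card : ℝ) := by positivity
      linarith
    have h3 : (4 : ℝ) ^ L * (1 + L) ≤ r ^ L := by
      obtain ⟨L', rfl⟩ : ∃ L', L = L' + 1 := ⟨L - 1, by omega⟩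
      have h5 : (4 : ℝ) ≤ r := by
        refine le_trans ?_ hr4
        linarith
      calc (4 : ℝ) ^ (L' + 1) * (1 + ((L' + 1 : ℕ) : ℝ)) =
            4 ^ L' * (4 * (((L' + 1 : ℕ) : ℝ) + 1)) := by ring
        _ ≤ r ^ L' * r := by
            apply mul_le_mul _ hr4 (by positivity) (by positivity)
            exact pow_le_pow_left₀ (by norm_num) h5 _
        _ = r ^ (L' + 1) := by ring
    have h4 : (E.card : ℝ) * 4 ^ L ≤ 2 ^ (Fintype.card I) := by
      have h5 : r ^ L * (E.card : ℝ) ≤ (1 + L) * 2 ^ (Fintype.card I) := by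
        have := mul_le_mul_of_nonneg_right h2 hX.le
        calc r ^ L * (E.card : ℝ) = 1 / 2 ^ (Fintype.card I) * r ^ L * (E.card : ℝ) *
              2 ^ (Fintype.card I) := by field_simp
          _ ≤ _ := this
      have h6 : (4 : ℝ) ^ L * (1 + L) * (E.card : ℝ) ≤ (1 + L) * 2 ^ (Fintype.card I) :=
        (mul_le_mul_of_nonneg_right h3 (by positivity)).trans h5
      have h7 : (0 : ℝ) < 1 + L := by positivity
      have h8 : (1 + (L : ℝ)) * ((E.card : ℝ) * 4 ^ L) ≤ (1 + L) * 2 ^ (Fintype.card I) := by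
        linarith
      exact le_of_mul_le_mul_left h8 h7
    have h5 : E.card * 4 ^ L ≤ 2 ^ (Fintype.card I) := by exact_mod_cast h4
    exact (Nat.mul_le_mul_right _ h1).trans h5
  · have h1 : 4 * (Z.card : ℝ) ≤ A.card := by
      have h2 : r / A.card * (Z.card : ℝ) ≤ 1 + L := by
        have : 0 ≤ 1 / 2 ^ (Fintype.card I) * r ^ L * (E.card : ℝ) := by positivity
        linarith
      have h3 : r * (Z.card : ℝ) ≤ (1 + L) * A.card := by
        rw [div_mul_eq_mul_div, div_le_iff₀ hA0] at h2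
        exact h2
      have h4 : 4 * ((L : ℝ) + 1) * Z.card ≤ (1 + L) * A.card :=
        (mul_le_mul_of_nonneg_right hr4 (by positivity)).trans h3
      have h7 : (0 : ℝ) < 1 + L := by positivity
      have h8 : (1 + (L : ℝ)) * (4 * (Z.card : ℝ)) ≤ (1 + L) * A.card := by linarith
      exact le_of_mul_le_mul_left h8 h7
    have h1' : 4 * Z.card ≤ A.card := by exact_mod_cast h1
    have h2 : A.card ≤ (univ.filter (fun x => C.val v x = true ∧ g x ≠ 0)).card + Z.card := by
      refine le_trans (Finset.card_le_card ?_) (Finset.card_union_le _ _)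
      intro x hx
      have hx' : C.val v x = true := by simpa [hA] using hx
      rw [Finset.mem_union]
      by_cases hgx : g x = 0
      · right; exact hZ x hx' hgx
      · left; simp [hx', hgx]
    omega

/-- A function supported on `V` of degree less than `|I| - ρ` vanishes. -/
def Thin (K : Type) [Field K] (V : Set (I → Bool)) (ρ : ℕ) : Prop :=
  ∀ (D : ℕ) (f : (I → Bool) → K), Deg D f → (∀ x, f x ≠ 0 → x ∈ V) →
    D + ρ < Fintype.card I → ∀ x, f x = 0

/-- The main estimate. -/
theorem core (C : Ckt p I) (v : C.Node) {s ℓ L e τ B ρ N : ℕ} (hN : Fintype.card I = N)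
    (hs : Nat.card C.Node ≤ s) (hs1 : 1 ≤ s)
    (hℓ : 1 ≤ ℓ) (hL : 1 ≤ L) (h4 : 4 * (L + 1) * s ≤ p ^ ℓ)
    {V : Set (I → Bool)} (hV : Thin (ZMod p) V ρ) (hsub : ∀ x, C.val v x = true → x ∈ V)
    (hA : 2 ^ N ≤ (univ.filter (fun x : I → Bool => C.val v x = true)).card * 2 ^ B)
    (htail : 2 ^ N ≤ cnt N (e + 1) * 2 ^ τ)
    (hLB : B + τ + 2 ≤ 2 * L)
    (hdeg : L * (ℓ * (p - 1)) ^ (C.depth v) + e + ρ < N) : False := by
  classical
  subst hN
  set N := Fintype.card I with hN
  set A : Finset (I → Bool) := univ.filter (fun x => C.val v x = true) with hAdef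
  have hne : A.Nonempty := by
    rw [Finset.nonempty_iff_ne_empty]
    intro h
    rw [h, Finset.card_empty, zero_mul] at hA
    have : 0 < 2 ^ N := by positivity
    omega
  obtain ⟨g, hg, hE, hA'⟩ := amplify' C v hs hs1 hℓ hL h4 hne
  set E := univ.filter (fun x => C.val v x = false ∧ g x ≠ 0) with hEdef
  set A' := univ.filter (fun x => C.val v x = true ∧ g x ≠ 0) with hA'def
  have hkey : E.card * 2 ^ N < A'.card * cnt N (e + 1) := by
    have h1 : 2 ^ N * 2 ^ N ≤ A'.card * cnt N (e + 1) * 2 ^ (B + τ + 1) := by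
      calc 2 ^ N * 2 ^ N ≤ (A.card * 2 ^ B) * (cnt N (e + 1) * 2 ^ τ) := Nat.mul_le_mul hA htail
        _ ≤ (2 * A'.card * 2 ^ B) * (cnt N (e + 1) * 2 ^ τ) := by
            apply Nat.mul_le_mul_right
            exact Nat.mul_le_mul_right _ hA'
        _ = A'.card * cnt N (e + 1) * 2 ^ (B + τ + 1) := by ring
    have h2 : E.card * 2 ^ N * 4 ^ L ≤ 2 ^ N * 2 ^ N := by
      calc E.card * 2 ^ N * 4 ^ L = (E.card * 4 ^ L) * 2 ^ N := by ring
        _ ≤ 2 ^ N * 2 ^ N := Nat.mul_le_mul_right _ hE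
    have h3 : 2 ^ (B + τ + 1) * 2 ≤ 4 ^ L := by
      have : 4 ^ L = 2 ^ (2 * L) := by rw [pow_mul]; norm_num
      rw [this, ← pow_succ]
      exact Nat.pow_le_pow_right (by norm_num) (by omega)
    have hpos : 0 < A'.card * cnt N (e + 1) := by
      by_contra hcon
      have h0 : A'.card * cnt N (e + 1) = 0 := by omega
      rw [h0, zero_mul] at h1
      have : 0 < 2 ^ N * 2 ^ N := by positivity
      omega
    have hW : 0 < 2 ^ (B + τ + 1) := by positivity
    have h5 : E.card * 2 ^ N * 2 * 2 ^ (B + τ + 1) ≤ A'.card * cnt N (e + 1) * 2 ^ (B + τ + 1) := by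
      calc E.card * 2 ^ N * 2 * 2 ^ (B + τ + 1) = E.card * 2 ^ N * (2 ^ (B + τ + 1) * 2) := by ring
        _ ≤ E.card * 2 ^ N * 4 ^ L := Nat.mul_le_mul_left _ h3
        _ ≤ _ := h2.trans h1
    have h6 : E.card * 2 ^ N * 2 ≤ A'.card * cnt N (e + 1) := Nat.le_of_mul_le_mul_right h5 hW
    omega
  obtain ⟨w, hw, hwE, x, hxA, hwx⟩ := exists_vanish' (ZMod p) E A' hkey
  have hdeg2 : Deg (L * (ℓ * (p - 1)) ^ (C.depth v) + e) (fun x => g x * w x) := hg.mul hw
  have hz := hV _ _ hdeg2 (fun y hy => by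
    apply hsub
    have h1 : g y ≠ 0 := left_ne_zero_of_mul hy
    have h2 : w y ≠ 0 := right_ne_zero_of_mul hy
    by_contra h3
    apply h2
    apply hwE
    rw [hEdef, Finset.mem_filter]
    exact ⟨Finset.mem_univ _, by simpa using h3, h1⟩) hdeg x
  have h1 : g x ≠ 0 := by
    rw [hA'def, Finset.mem_filter] at hxA
    exact hxA.2.2
  exact mul_ne_zero h1 hwx hz

end Main

end Pool.Agent.W2helper86.MD
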