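import Mathlib

/-!
# Definitions: distillation by circuits of constant depth with MOD p gates

Boolean circuits with unbounded fan-in AND, OR and MOD `p` gates and NOT gates, reductions and
randomized compressors given by such circuits, and the functions `F` which take the place of OR.
-/

set_option autoImplicit false

namespace Pool.Agent.W2helper86.MD

open Classical

/-- The kinds of gates: NOT, AND, OR, and for every residue `a` modulo `p` the gate `mod a`. -/
inductive GateKind (p : ℕ)
  | not
  | and
  | or
  | mod (a : ZMod p)

/-- A Boolean circuit whose input bits are indexed by `J`. Its nodes are the inputs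
`Sum.inl j` and the gates `Sum.inr g`, `g < size`. Every gate has a finite set of predecessor
nodes (unbounded fan-in); a predecessor that is a gate has a smaller number, so the circuit is a
directed acyclic graph. A NOT gate has exactly one predecessor. Its size is the number of its
gates. -/
structure Circuit (p : ℕ) (J : Type) where
  size : ℕ
  kind : Fin size → GateKind p
  preds : Fin size → Finset (J ⊕ Fin size)
  acyclic : ∀ g h : Fin size, Sum.inr h ∈ preds g → h < g
  unary : ∀ g, kind g = GateKind.not → (preds g).card = 1

/-- The value of gate `g` on the input assignment `x`: an AND gate is `true` iff all of its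
predecessors are, an OR gate is `true` iff some predecessor is, a NOT gate is `true` iff
its only predecessor is `false`, and a gate `mod a` is `true` iff the number of its predecessors
which are `true` is congruent to `a` modulo `p`. -/
noncomputable def Circuit.gateVal {p : ℕ} {J : Type} (C : Circuit p J) (x : J → Bool)
    (g : Fin C.size) : Bool :=
  let val : (v : J ⊕ Fin C.size) → v ∈ C.preds g → Bool := fun v hv =>
    match v, hv with
    | Sum.inl j, _ => x j
    | Sum.inr h, hh => Circuit.gateVal C x h
  match C.kind g with
  | GateKind.and => decide (∀ v, ∀ hv : v ∈ C.preds g, val v hv = true)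
  | GateKind.or => decide (∃ v, ∃ hv : v ∈ C.preds g, val v hv = true)
  | GateKind.not => decide (∀ v, ∀ hv : v ∈ C.preds g, val v hv = false)
  | GateKind.mod a =>
      decide ((((C.preds g).attach.filter (fun v => val v.1 v.2 = true)).card : ZMod p) = a)
termination_by g.val
decreasing_by exact C.acyclic g h hh

/-- The value of a node of the circuit. -/
noncomputable def Circuit.nodeVal {p : ℕ} {J : Type} (C : Circuit p J) (x : J → Bool) :
    J ⊕ Fin C.size → Bool
  | Sum.inl j => x j
  | Sum.inr g => C.gateVal x g

/-- The depth of a gate: the largest number of edges of a directed path ending at it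
(inputs have depth `0`; a gate is one deeper than its deepest predecessor). -/
noncomputable def Circuit.gateDepth {p : ℕ} {J : Type} (C : Circuit p J) (g : Fin C.size) : ℕ :=
  (C.preds g).attach.sup (fun v =>
    match v with
    | ⟨Sum.inl _, _⟩ => 0
    | ⟨Sum.inr h, hh⟩ => Circuit.gateDepth C h) + 1
termination_by g.val
decreasing_by exact C.acyclic g h hh

/-- The depth of a node. -/
noncomputable def Circuit.nodeDepth {p : ℕ} {J : Type} (C : Circuit p J) : J ⊕ Fin C.size → ℕ
  | Sum.inl _ => 0
  | Sum.inr g => C.gateDepth g

/-- MAJORITY: the bit strings with more ones than zeros. -/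
def majLang : Set (List Bool) := {w | w.length < 2 * w.count true}

/-- PARITY: the bit strings with an odd number of ones. -/
def parityLang : Set (List Bool) := {w | Odd (w.count true)}

/-- SAT, with the following encoding. A CNF formula with `N` clauses and variables
`0, ..., N - 1` is the bit string of length `2 * N ^ 2` whose bit number `2 * (c * N + v) + s`
(for `c, v < N` and `s = 0, 1`) says whether clause `c` contains the literal saying that variable
`v` has the truth value `s`. The string is in `cnfSat` if some assignment satisfies a literal of
every clause. -/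
def cnfSat : Set (List Bool) :=
  {w | ∃ N : ℕ, w.length = 2 * N ^ 2 ∧ ∃ τ : ℕ → Bool, ∀ c < N, ∃ v < N, ∃ s : Bool,
    w.getD (2 * (c * N + v) + s.toNat) false = true ∧ τ v = s}

/-- `A` many-one reduces to `B` by nonuniform circuits with MOD `p` gates of constant depth and
polynomial size: for every input length `k` there is a circuit with `len ≤ k ^ c + c` output
nodes, of size at most `k ^ c + c`, all of whose output nodes have depth at most `c`, which maps
`A` to `B`. -/
def Reduces (p : ℕ) (A B : Set (List Bool)) : Prop :=
  ∃ c : ℕ, ∀ k : ℕ, ∃ (len : ℕ) (C : Circuit p (Fin k)) (out : Fin len → Fin k ⊕ Fin C.size),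
    len ≤ k ^ c + c ∧ C.size ≤ k ^ c + c ∧ (∀ l, C.nodeDepth (out l) ≤ c) ∧
    ∀ w : Fin k → Bool, List.ofFn w ∈ A ↔ List.ofFn (fun l => C.nodeVal w (out l)) ∈ B

/-- A (randomized) compressor of `m` instances of length `n` to `Q` bits: a uniformly random seed
`r` from a finite nonempty set selects a circuit with MOD `p` gates on the `m * n` input bits,
`Q` output nodes of it, and a target set of `Q`-bit strings (the language of the output instance,
arbitrary). It is deterministic if there is only one seed. -/
structure Compressor (p m n Q : ℕ) where
  Seed : Type
  finite : Finite Seed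
  nonempty : Nonempty Seed
  circ : Seed → Circuit p (Fin m × Fin n)
  out : (r : Seed) → Fin Q → (Fin m × Fin n) ⊕ Fin (circ r).size
  target : Seed → Set (Fin Q → Bool)

/-- With the seed `r`, the output on the instances `x 0, ..., x (m - 1)` lies in the target. -/
def Compressor.Says {p m n Q : ℕ} (K : Compressor p m n Q) (r : K.Seed)
    (x : Fin m → Fin n → Bool) : Prop :=
  (fun t => (K.circ r).nodeVal (fun il => x il.1 il.2) (K.out r t)) ∈ K.target r

/-- the truth values of the instances -/
noncomputable def member {m n : ℕ} (R : Set (List Bool)) (x : Fin m → Fin n → Bool) :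
    Fin m → Bool :=
  fun i => decide (List.ofFn (x i) ∈ R)

/-- `K` is an `F`-compressor for `R` with error only at the value `e`, and with success
probability at least `σ` there: if `F (x 0 ∈ R, ..., x (m - 1) ∈ R) ≠ e`, then for every seed the
output lies in the target iff this value of `F` is `true`; if the value is `e`, then
the same holds with probability at least `σ` over the seed. -/
def Compressor.Correct {p m n Q : ℕ} (K : Compressor p m n Q) (R : Set (List Bool))
    (F : (Fin m → Bool) → Bool) (e : Bool) (σ : ℝ) : Prop :=
  ∀ x : Fin m → Fin n → Bool,
    (F (member R x) ≠ e → ∀ r, (K.Says r x ↔ F (member R x) = true)) ∧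
    (F (member R x) = e →
      σ * (Nat.card K.Seed : ℝ) ≤ (Nat.card {r : K.Seed // K.Says r x ↔ F (member R x) = true} : ℝ))

/-- all output nodes of all circuits have depth at most `d` -/
def Compressor.DepthLE {p m n Q : ℕ} (K : Compressor p m n Q) (d : ℕ) : Prop :=
  ∀ r t, (K.circ r).nodeDepth (K.out r t) ≤ d

/-- all circuits have at most `s` gates -/
def Compressor.SizeLE {p m n Q : ℕ} (K : Compressor p m n Q) (s : ℝ) : Prop :=
  ∀ r, ((K.circ r).size : ℝ) ≤ s

/-- `R` has an `F`-distillation by nonuniform circuits with MOD `p` gates of constant depth and
polynomial size, with arbitrary targets, randomized with error only at the value `e` of `F` and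
success probability at least `2 ^ (-(n ^ a + a))` there: there is a constant `a`
such that for all `m ≥ 1` and `n` there is such a compressor of `m` instances of length `n` to at
most `n ^ a + a` bits, of depth at most `a` and size at most `(m + n) ^ a + a`. (Distillation
without error is the special case of a single seed.) -/
def Distillable (p : ℕ) (R : Set (List Bool)) (F : (m : ℕ) → (Fin m → Bool) → Bool)
    (e : Bool) : Prop :=
  ∃ a : ℕ, ∀ m n : ℕ, 1 ≤ m →
    ∃ (Q : ℕ) (K : Compressor p m n Q), Q ≤ n ^ a + a ∧ K.DepthLE a ∧
      K.SizeLE (((m + n) ^ a + a : ℕ) : ℝ) ∧ K.Correct R (F m) e ((2 : ℝ) ^ (n ^ a + a))⁻¹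

/-- the disjunction -/
noncomputable def orFn (m : ℕ) (b : Fin m → Bool) : Bool := decide (∃ i, b i = true)

/-- the conjunction -/
noncomputable def andFn (m : ℕ) (b : Fin m → Bool) : Bool := decide (∀ i, b i = true)

/-- Among the points which differ from `b` only in coordinates in `S`, only `b` itself has the
value `F b`. (For OR: `b = 0` and `S` = all coordinates.) -/
def IsolatedAt {m : ℕ} (F : (Fin m → Bool) → Bool) (b : Fin m → Bool)
    (S : Finset (Fin m)) : Prop :=
  ∀ y : Fin m → Bool, (∀ i, i ∉ S → y i = b i) → y ≠ b → F y ≠ F b

/-- for all `m ≥ 1` the function `F m` takes the value `e` at a point which is isolated in a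
subcube of dimension at least `m ^ γ` -/
def PolyIsolated (F : (m : ℕ) → (Fin m → Bool) → Bool) (e : Bool) (γ : ℝ) : Prop :=
  ∀ m : ℕ, 1 ≤ m → ∃ (b : Fin m → Bool) (S : Finset (Fin m)),
    (m : ℝ) ^ γ ≤ (S.card : ℝ) ∧ F m b = e ∧ IsolatedAt (F m) b S

end Pool.Agent.W2helper86.MD
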