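import Mathlib

/-!
# The degree of a function on the cube with values in a field
-/

set_option autoImplicit false

namespace Pool.Agent.W2helper86.MD

open Finset

section
variable {I K : Type} [Field K]

/-- The function depends on at most `k` coordinates. -/
def Jun (k : ℕ) (f : (I → Bool) → K) : Prop :=
  ∃ A : Finset I, A.card ≤ k ∧ ∀ x y : I → Bool, (∀ i ∈ A, x i = y i) → f x = f y

/-- The function has degree at most `k`. -/
def Deg (k : ℕ) (f : (I → Bool) → K) : Prop :=
  f ∈ Submodule.span K {g : (I → Bool) → K | Jun k g}

lemma Deg.of_jun {k : ℕ} {f : (I → Bool) → K} (h : Jun k f) : Deg k f := Submodule.subset_span h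

lemma Deg.mono {k k' : ℕ} {f : (I → Bool) → K} (h : Deg k f) (hk : k ≤ k') : Deg k' f :=
  Submodule.span_mono (by
    rintro g ⟨A, hA, h⟩
    exact ⟨A, hA.trans hk, h⟩) h

lemma Deg.const (k : ℕ) (c : K) : Deg k (fun _ : I → Bool => c) :=
  Deg.of_jun ⟨∅, by simp, fun _ _ _ => rfl⟩

lemma Deg.add {k : ℕ} {f g : (I → Bool) → K} (hf : Deg k f) (hg : Deg k g) :
    Deg k (fun x => f x + g x) := Submodule.add_mem _ hf hg

lemma Deg.sub {k : ℕ} {f g : (I → Bool) → K} (hf : Deg k f) (hg : Deg k g) :
    Deg k (fun x => f x - g x) := Submodule.sub_mem _ hf hg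

lemma Deg.smul {k : ℕ} {f : (I → Bool) → K} (c : K) (hf : Deg k f) :
    Deg k (fun x => c * f x) := Submodule.smul_mem _ c hf

lemma Deg.sum {k : ℕ} {κ : Type*} (s : Finset κ) {f : κ → (I → Bool) → K}
    (h : ∀ i ∈ s, Deg k (f i)) : Deg k (fun x => ∑ i ∈ s, f i x) := by
  have : (fun x => ∑ i ∈ s, f i x) = ∑ i ∈ s, f i := by
    funext x; simp
  rw [this]
  exact Submodule.sum_mem _ h

lemma Deg.mul {k l : ℕ} {f g : (I → Bool) → K} (hf : Deg k f) (hg : Deg l g) :
    Deg (k + l) (fun x => f x * g x) := by
  classical
  unfold Deg at hf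
  induction hf using Submodule.span_induction with
  | mem f hf =>
    unfold Deg at hg
    induction hg using Submodule.span_induction with
    | mem g hg =>
      obtain ⟨A, hA, hfA⟩ := hf
      obtain ⟨B, hB, hgB⟩ := hg
      refine Deg.of_jun ⟨A ∪ B, (Finset.card_union_le _ _).trans (by omega), fun x y h => ?_⟩
      show f x * g x = f y * g y
      rw [hfA x y fun i hi => h i (Finset.mem_union_left _ hi),
        hgB x y fun i hi => h i (Finset.mem_union_right _ hi)]
    | zero =>
      have : (fun x => f x * (0 : (I → Bool) → K) x) = fun _ => (0 : K) := by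
        funext x; simp
      rw [this]
      exact Deg.const _ _
    | add a b _ _ ha hb =>
      have : (fun x => f x * (a + b) x) = fun x => f x * a x + f x * b x := by
        funext x; simp only [Pi.add_apply]; ring
      rw [this]
      exact ha.add hb
    | smul c a _ ha =>
      have : (fun x => f x * (c • a) x) = fun x => c * (f x * a x) := by
        funext x; simp only [Pi.smul_apply, smul_eq_mul]; ring
      rw [this]
      exact ha.smul c
  | zero =>
    have : (fun x => (0 : (I → Bool) → K) x * g x) = fun _ => (0 : K) := by
      funext x; simp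
    rw [this]
    exact Deg.const _ _
  | add a b _ _ ha hb =>
    have : (fun x => (a + b) x * g x) = fun x => a x * g x + b x * g x := by
      funext x; simp only [Pi.add_apply]; ring
    rw [this]
    exact ha.add hb
  | smul c a _ ha =>
    have : (fun x => (c • a) x * g x) = fun x => c * (a x * g x) := by
      funext x; simp only [Pi.smul_apply, smul_eq_mul]; ring
    rw [this]
    exact ha.smul c

lemma Deg.prod {k : ℕ} {κ : Type*} (s : Finset κ) {f : κ → (I → Bool) → K}
    (h : ∀ i ∈ s, Deg k (f i)) : Deg (s.card * k) (fun x => ∏ i ∈ s, f i x) := by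
  classical
  induction s using Finset.induction_on with
  | empty =>
    simp only [Finset.prod_empty]
    exact Deg.const _ _
  | insert a s ha ih =>
    simp only [Finset.prod_insert ha]
    rw [Finset.card_insert_of_notMem ha, add_mul, one_mul, add_comm]
    exact (h a (Finset.mem_insert_self _ _)).mul (ih fun i hi => h i (Finset.mem_insert_of_mem hi))

lemma Deg.pow {k : ℕ} (r : ℕ) {f : (I → Bool) → K} (h : Deg k f) :
    Deg (r * k) (fun x => f x ^ r) := by
  have h2 := Deg.prod (Finset.range r) (f := fun _ => f) (k := k) (fun _ _ => h)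
  simpa using h2

/-- The monomial of a set. -/
noncomputable def mon (T : Finset I) (x : I → Bool) : K :=
  ∏ i ∈ T, if x i = true then 1 else 0

lemma mon_true {T : Finset I} {x : I → Bool} (h : ∀ i ∈ T, x i = true) : mon (K := K) T x = 1 :=
  Finset.prod_eq_one fun i hi => by rw [h i hi]; simp

lemma mon_false {T : Finset I} {x : I → Bool} {i : I} (hi : i ∈ T) (h : x i = false) :
    mon (K := K) T x = 0 :=
  Finset.prod_eq_zero hi (by rw [h]; simp)

lemma Deg.mon {k : ℕ} {T : Finset I} (h : T.card ≤ k) : Deg (K := K) k (MD.mon T) :=
  Deg.of_jun ⟨T, h, fun x y hxy => by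
    unfold MD.mon
    exact Finset.prod_congr rfl fun i hi => by rw [hxy i hi]⟩

end

section Top
variable {I K : Type} [Fintype I] [DecidableEq I] [Field K]

/-- the sign of a point -/
noncomputable def sgn (K : Type) [Field K] (x : I → Bool) : K := ∏ i, if x i = true then (-1) else 1

lemma sgn_ne_zero (x : I → Bool) : sgn K x ≠ 0 := by
  unfold sgn
  rw [Finset.prod_ne_zero_iff]
  intro i _
  split_ifs <;> simp

lemma sgn_flip (x : I → Bool) (i : I) : sgn K (Function.update x i (!x i)) = - sgn K x := by
  unfold sgn
  rw [Fintype.prod_eq_mul_prod_compl i, Fintype.prod_eq_mul_prod_compl i]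
  have h1 : ∏ j ∈ ({i} : Finset I)ᶜ, (if Function.update x i (!x i) j = true then (-1 : K) else 1) =
      ∏ j ∈ ({i} : Finset I)ᶜ, (if x j = true then (-1 : K) else 1) := by
    refine Finset.prod_congr rfl fun j hj => ?_
    rw [Function.update_of_ne]
    simpa using hj
  rw [h1, Function.update_self]
  cases x i <;> simp

lemma sum_sgn_jun {k : ℕ} {f : (I → Bool) → K} (h : Jun k f) (hk : k < Fintype.card I) :
    ∑ x, sgn K x * f x = 0 := by
  obtain ⟨A, hA, hf⟩ := h
  obtain ⟨i, hi⟩ : ∃ i, i ∉ A := by
    by_contra hcon
    push Not at hcon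
    have h1 : A = univ := Finset.eq_univ_iff_forall.2 hcon
    rw [h1, Finset.card_univ] at hA
    omega
  refine Finset.sum_involution (fun x _ => Function.update x i (!x i)) ?_ ?_ ?_ ?_
  · intro x _
    have h1 : f (Function.update x i (!x i)) = f x := hf _ _ fun j hj => by
      rw [Function.update_of_ne]
      rintro rfl
      exact hi hj
    rw [h1, sgn_flip]
    ring
  · intro x _ _ h2
    have h3 := congrFun h2 i
    rw [Function.update_self] at h3
    cases hx : x i <;> rw [hx] at h3 <;> simp at h3
  · intro x _
    exact Finset.mem_univ _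
  · intro x _
    funext j
    by_cases hj : j = i
    · subst hj; simp
    · simp [Function.update_of_ne hj]

/-- A function of degree less than the number of variables is orthogonal to the sign. -/
lemma sum_sgn {k : ℕ} {f : (I → Bool) → K} (h : Deg k f) (hk : k < Fintype.card I) :
    ∑ x, sgn K x * f x = 0 := by
  unfold Deg at h
  induction h using Submodule.span_induction with
  | mem f hf => exact sum_sgn_jun hf hk
  | zero => simp
  | add a b _ _ ha hb =>
    simp only [Pi.add_apply, mul_add, Finset.sum_add_distrib, ha, hb, add_zero]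
  | smul c a _ ha =>
    have : ∀ x, sgn K x * (c • a) x = c * (sgn K x * a x) := by
      intro x; simp only [Pi.smul_apply, smul_eq_mul]; ring
    simp only [this, ← Finset.mul_sum, ha, mul_zero]

/-- A function of small degree supported on points of small weight vanishes. -/
theorem supp_zero {D ρ : ℕ} {f : (I → Bool) → K} (hf : Deg D f)
    (hs : ∀ x, f x ≠ 0 → (univ.filter (fun i => x i = true)).card ≤ ρ)
    (hD : D + ρ < Fintype.card I) : ∀ x, f x = 0 := by
  have : DecidablePred (fun x => f x ≠ 0) := Classical.decPred _
  by_contra hne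
  push Not at hne
  set B : Finset (I → Bool) := univ.filter (fun x => f x ≠ 0) with hB
  have hBne : B.Nonempty := by
    obtain ⟨x, hx⟩ := hne
    exact ⟨x, by simp [hB, hx]⟩
  obtain ⟨x, hxB, hmax⟩ := Finset.exists_max_image B
    (fun x => (univ.filter (fun i => x i = true)).card) hBne
  have hfx : f x ≠ 0 := by simpa [hB] using hxB
  set T : Finset I := univ.filter (fun i => x i = true) with hT
  have h1 : Deg (D + T.card) (fun y => f y * mon T y) := hf.mul (Deg.mon le_rfl)
  have h2 := sum_sgn h1 (lt_of_le_of_lt (Nat.add_le_add_left (hs x hfx) _) hD)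
  have h3 : ∀ y, y ≠ x → sgn K y * (f y * mon T y) = 0 := by
    intro y hy
    by_cases hfy : f y = 0
    · rw [hfy]; ring
    · have h4 := hmax y (by simp [hB, hfy])
      have h5 : ∃ i ∈ T, y i = false := by
        by_contra hcon
        push Not at hcon
        have h6 : T ⊆ univ.filter (fun i => y i = true) := by
          intro i hi
          simpa using hcon i hi
        have h7 := Finset.eq_of_subset_of_card_le h6 h4
        apply hy
        funext i
        by_cases hi : i ∈ T
        · have e1 : y i = true := by simpa using hcon i hi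
          have e2 : x i = true := by simpa [hT] using hi
          rw [e1, e2]
        · have e1 : y i ≠ true := by
            intro hc
            apply hi
            rw [h7]
            simpa using hc
          have e2 : x i ≠ true := by
            intro hc
            apply hi
            simpa [hT] using hc
          simp only [Bool.not_eq_true] at e1 e2
          rw [e1, e2]
      obtain ⟨i, hi, hyi⟩ := h5
      rw [mon_false hi hyi]
      ring
  rw [Finset.sum_eq_single x (fun y _ hy => h3 y hy) (by simp)] at h2
  have h8 : mon (K := K) T x = 1 := mon_true (by simp [hT])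
  rw [h8, mul_one] at h2
  rcases mul_eq_zero.1 h2 with h | h
  · exact sgn_ne_zero x h
  · exact hfx h

end Top

end Pool.Agent.W2helper86.MD
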