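import Pool.Agent.W2helper86.MD.Num

/-!
# The final statements
-/

set_option autoImplicit false

namespace Pool.Agent.W2helper86.MD

open Finset Filter

/-- majority or parity reduces to `R` by projections followed by circuits of depth `e` -/
def PP (p : ℕ) [Fact p.Prime] (R : Set (List Bool)) (e c k₁ : ℕ) (len : ℕ → ℕ) : Prop :=
  ∀ k, k₁ ≤ k → len k ≤ k ^ c + c ∧
    ∃ (H : (Fin (2 * k + 1) → Bool) → Bool) (ν : ℕ) (π : (Fin (2 * k + 1) → Bool) → (Fin ν → Bool))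
      (G : Circuit p (Fin ν)) (o : Fin (len k) → Fin ν ⊕ Fin G.size),
      HardBlock p k H ∧ IsProj π ∧ (∀ l, G.nodeDepth (o l) ≤ e) ∧
      ν + G.size ≤ k ^ c + c ∧ (∀ x, List.ofFn (inst π G o x) ∈ R ↔ H x = true)

lemma isProj_id {k : ℕ} : IsProj (id : (Fin k → Bool) → (Fin k → Bool)) := by
  intro j
  right; left
  exact ⟨j, fun x => rfl⟩

lemma pow_aux {k c : ℕ} (hk : 3 ≤ k) :
    (2 * k + 1) ^ c + c ≤ k ^ (2 * c + 4) + (2 * c + 4) ∧
    2 * k + 1 + ((2 * k + 1) ^ c + c) ≤ k ^ (2 * c + 4) + (2 * c + 4) := by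
  have h1 : 2 * k + 1 ≤ k ^ 2 := by nlinarith
  have h2 : (2 * k + 1) ^ c ≤ k ^ (2 * c) := by
    rw [pow_mul]
    exact Nat.pow_le_pow_left h1 c
  have h3 : k ^ (2 * c) ≤ k ^ (2 * c + 3) := Nat.pow_le_pow_right (by omega) (by omega)
  have h4 : k ^ 2 ≤ k ^ (2 * c + 3) := Nat.pow_le_pow_right (by omega) (by omega)
  have h5 : k ^ (2 * c + 4) = k * k ^ (2 * c + 3) := by ring
  have h6 : 3 * k ^ (2 * c + 3) ≤ k * k ^ (2 * c + 3) := Nat.mul_le_mul_right _ hk
  constructor <;> omega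

variable {p : ℕ} [Fact p.Prime]

lemma PP_of_block {A R : Set (List Bool)} (h : Reduces p A R)
    (H : (k : ℕ) → (Fin (2 * k + 1) → Bool) → Bool) (hH : ∀ k, HardBlock p k (H k))
    (hA : ∀ k (x : Fin (2 * k + 1) → Bool), List.ofFn x ∈ A ↔ H k x = true) :
    ∃ (e c k₁ : ℕ) (len : ℕ → ℕ), PP p R e c k₁ len := by
  obtain ⟨c, hc⟩ := h
  choose len C out h1 h2 h3 h4 using hc
  refine ⟨c, 2 * c + 4, 3, fun k => len (2 * k + 1), fun k hk => ⟨?_, ?_⟩⟩
  · exact (h1 _).trans (pow_aux hk).1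
  · refine ⟨H k, 2 * k + 1, id, C (2 * k + 1), out (2 * k + 1), hH k, isProj_id, h3 _, ?_, ?_⟩
    · have := h2 (2 * k + 1)
      have := (pow_aux (c := c) hk).2
      omega
    · intro x
      rw [← hA k x, h4 (2 * k + 1) x]
      rfl

lemma PP_of_sat {R : Set (List Bool)} (h : Reduces p cnfSat R) :
    ∃ (e c k₁ : ℕ) (len : ℕ → ℕ), PP p R e c k₁ len := by
  obtain ⟨c, hc⟩ := h
  choose len C out h1 h2 h3 h4 using hc
  refine ⟨c, 15 * c + 16, 3, fun k => len (2 * NC k ^ 2), fun k hk => ?_⟩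
  have hN : NC k ≤ k ^ 7 := by
    unfold NC
    have e1 : k + 1 ≤ k ^ 2 := by nlinarith
    have e2 : 2 * k + 1 ≤ k ^ 2 := by nlinarith
    calc (k + 1) + (2 * k + 1) * (k + 1) * (k + 1) ≤ k ^ 2 + k ^ 2 * k ^ 2 * k ^ 2 := by
          gcongr
      _ = k ^ 2 + k ^ 6 := by ring
      _ ≤ k ^ 6 + k ^ 6 := by
          have : k ^ 2 ≤ k ^ 6 := Nat.pow_le_pow_right (by omega) (by omega)
          omega
      _ = 2 * k ^ 6 := by ring
      _ ≤ k * k ^ 6 := Nat.mul_le_mul_right _ (by omega)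
      _ = k ^ 7 := by ring
  have hb : 2 * NC k ^ 2 ≤ k ^ 15 := by
    calc 2 * NC k ^ 2 ≤ k * (k ^ 7) ^ 2 :=
          Nat.mul_le_mul (by omega) (Nat.pow_le_pow_left hN 2)
      _ = k ^ 15 := by ring
  have hb1 : (2 * NC k ^ 2) ^ c ≤ k ^ (15 * c) := by
    rw [pow_mul]
    exact Nat.pow_le_pow_left hb c
  have hb2 : k ^ (15 * c) ≤ k ^ (15 * c + 15) := Nat.pow_le_pow_right (by omega) (by omega)
  have hb3 : k ^ 15 ≤ k ^ (15 * c + 15) := Nat.pow_le_pow_right (by omega) (by omega)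
  have hb4 : k ^ (15 * c + 16) = k * k ^ (15 * c + 15) := by ring
  have hb5 : 2 * k ^ (15 * c + 15) ≤ k * k ^ (15 * c + 15) := Nat.mul_le_mul_right _ (by omega)
  have hl := h1 (2 * NC k ^ 2)
  have hs := h2 (2 * NC k ^ 2)
  refine ⟨by
    show len (2 * NC k ^ 2) ≤ _
    omega, majF k, 2 * NC k ^ 2, majInst, C _, out _, hard_maj p k, majInst_proj, h3 _,
    by omega, ?_⟩
  intro x
  rw [← majInst_spec, h4 (2 * NC k ^ 2) (majInst x)]
  rfl

/-- the quantitative statement -/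
def Quant (p : ℕ) (R : Set (List Bool)) : Prop :=
  ∃ (c : ℕ) (len : ℕ → ℕ), (∀ᶠ k in atTop, len k ≤ k ^ c + c) ∧
    ∀ (d : ℕ) (ε : ℝ), 0 < ε → ∃ δ : ℝ, 0 < δ ∧ ∀ᶠ k : ℕ in atTop,
      ∀ (m Q h : ℕ) (F : (Fin m → Bool) → Bool) (b : Fin m → Bool) (S : Finset (Fin m)),
        (m : ℝ) ≤ 2 ^ ((k : ℝ) ^ δ) → S.Nonempty →
        (Q : ℝ) + h ≤ S.card * (k : ℝ) ^ (1 - ε) → IsolatedAt F b S →
      ∀ K : Compressor p m (len k) Q, K.DepthLE d → K.SizeLE (2 ^ ((k : ℝ) ^ δ)) →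
        ¬ K.Correct R F (F b) ((2 : ℝ) ^ h)⁻¹

lemma quant_of_PP {R : Set (List Bool)} {e c k₁ : ℕ} {len : ℕ → ℕ} (h : PP p R e c k₁ len) :
    Quant p R := by
  have hp1 : 1 ≤ p := (Fact.out : p.Prime).one_lt.le
  refine ⟨c, len, ?_, ?_⟩
  · filter_upwards [eventually_ge_atTop k₁] with k hk
    exact (h k hk).1
  · intro d ε hε
    have hε' : 0 < min ε 1 := lt_min hε one_pos
    obtain ⟨δ, hδ, hev⟩ := eventually_uu p (e + d + 1) hp1 hε'
    refine ⟨δ, hδ, ?_⟩
    filter_upwards [eventually_ge_atTop k₁, eventually_ge_atTop (max 3 c), hev,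
      eventually_pow_le (c + 2) hδ, eventually_pow_le 2 hδ] with k hk hk3 hku hkc hk2
    intro m Q h' F b S hm hS hQ hiso K hKd hKs hK
    obtain ⟨_, H, ν, π, G, o, hH, hπ, ho, hG, hred⟩ := h k hk
    have hk3' : 3 ≤ k := (le_max_left _ _).trans hk3
    have hck : c ≤ k := (le_max_right _ _).trans hk3
    have hkR : (1 : ℝ) ≤ k := by exact_mod_cast (by omega : 1 ≤ k)
    have hk0 : (0 : ℝ) < k := by linarith
    set t : ℕ := ⌈(k : ℝ) ^ δ⌉₊ with ht
    have hx1 : (1 : ℝ) ≤ (k : ℝ) ^ δ := Real.one_le_rpow hkR hδ.le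
    have ht1 : 1 ≤ t := by
      rw [ht, Nat.one_le_ceil_iff]
      linarith
    have h2t : (2 : ℝ) ^ ((k : ℝ) ^ δ) ≤ ((2 ^ t : ℕ) : ℝ) := by
      push_cast
      rw [← Real.rpow_natCast]
      exact Real.rpow_le_rpow_of_exponent_le (by norm_num) (Nat.le_ceil _)
    set κ : ℕ := 16 * uu p t (e + d + 1) ^ 2 + 1 with hκ
    have hu1 : 1 ≤ uu p t (e + d + 1) := by
      unfold uu
      have : 1 ≤ (10 * t * (p - 1)) ^ (e + d + 1) :=
        Nat.one_le_pow _ _ (Nat.mul_pos (by omega)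
          (by have := (Fact.out : p.Prime).two_le; omega))
      omega
    have hkk : (k : ℝ) ^ (min ε 1) ≤ k := by
      calc (k : ℝ) ^ (min ε 1) ≤ (k : ℝ) ^ (1 : ℝ) :=
            Real.rpow_le_rpow_of_exponent_le hkR (min_le_right _ _)
        _ = k := Real.rpow_one _
    refine step K hK hiso hH hπ G o ho hred hKd ht1 ?_ ?_ ?_ ?_ hS ?_ ?_
    · have := hm.trans h2t
      exact_mod_cast this
    · intro r
      have := (hKs r).trans h2t
      exact_mod_cast this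
    · have e1 : k ^ c + c ≤ k ^ (c + 2) := by
        have f1 : k ^ c ≤ k ^ (c + 1) := Nat.pow_le_pow_right (by omega) (by omega)
        have f2 : c ≤ k ^ (c + 1) := hck.trans
          (by simpa using Nat.pow_le_pow_right (by omega : 0 < k) (by omega : 1 ≤ c + 1))
        have f3 : k ^ (c + 2) = k * k ^ (c + 1) := by ring
        have f4 : 2 * k ^ (c + 1) ≤ k * k ^ (c + 1) := Nat.mul_le_mul_right _ (by omega)
        omega
      have e2 := hkc.trans h2t
      have e3 : k ^ (c + 2) ≤ 2 ^ t := by exact_mod_cast e2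
      omega
    · have e2 := hk2.trans h2t
      have e3 : k ^ 2 ≤ 2 ^ t := by exact_mod_cast e2
      have e4 : 2 * k + 1 ≤ k ^ 2 := by nlinarith
      omega
    · have e1 := hku.trans hkk
      have e2 : 16 * uu p t (e + d + 1) * κ ≤ k := by exact_mod_cast e1
      show 16 * uu p t (e + d + 1) * κ ≤ 2 * k + 1
      omega
    · -- the output length
      have hκk : (κ : ℝ) ≤ (k : ℝ) ^ (min ε 1) := by
        refine le_trans ?_ hku
        have : κ ≤ 16 * uu p t (e + d + 1) * κ := Nat.le_mul_of_pos_left _ (by omega)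
        exact_mod_cast this
      set bb : ℕ := (2 * k + 1) / κ with hbb
      have hκ0 : 0 < κ := by omega
      have hb1 : 2 * k + 1 < κ * (bb + 1) := by
        rw [hbb]
        exact Nat.lt_mul_div_succ _ hκ0
      have hb2 : (2 * k + 1 : ℝ) < κ * (bb + 1) := by exact_mod_cast hb1
      have hke : (0 : ℝ) < (k : ℝ) ^ (min ε 1) := by positivity
      have hsplit : (k : ℝ) = (k : ℝ) ^ (min ε 1) * (k : ℝ) ^ (1 - min ε 1) := by
        rw [← Real.rpow_add hk0, add_sub_cancel, Real.rpow_one]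
      set y : ℝ := (k : ℝ) ^ (1 - min ε 1) with hy
      have hy1 : 1 ≤ y := Real.one_le_rpow hkR (by linarith [min_le_right ε 1])
      have hb3 : 2 * y ≤ bb + 1 := by
        have h5 : (k : ℝ) ^ (min ε 1) * (2 * y) ≤ (k : ℝ) ^ (min ε 1) * (bb + 1) := by
          have h6 : (κ : ℝ) * (bb + 1) ≤ (k : ℝ) ^ (min ε 1) * (bb + 1) :=
            mul_le_mul_of_nonneg_right hκk (by positivity)
          have h7 : (k : ℝ) ^ (min ε 1) * (2 * y) = 2 * k := by
            conv_rhs => rw [hsplit]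
            ring
          rw [h7]
          linarith
        exact le_of_mul_le_mul_left h5 hke
      have hb4 : (k : ℝ) ^ (1 - ε) ≤ bb := by
        have h5 : (k : ℝ) ^ (1 - ε) ≤ y :=
          Real.rpow_le_rpow_of_exponent_le hkR (by linarith [min_le_left ε 1])
        linarith
      have h5 : (Q : ℝ) + h' ≤ S.card * bb :=
        hQ.trans (mul_le_mul_of_nonneg_left hb4 (Nat.cast_nonneg _))
      exact_mod_cast h5

theorem quant_of {R : Set (List Bool)} (h : Reduces p cnfSat R ∨ Reduces p majLang R ∨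
    (p ≠ 2 ∧ Reduces p parityLang R)) : Quant p R := by
  rcases h with h | h | ⟨hp, h⟩
  · obtain ⟨e, c, k₁, len, hP⟩ := PP_of_sat h
    exact quant_of_PP hP
  · obtain ⟨e, c, k₁, len, hP⟩ := PP_of_block h majF (fun k => hard_maj p k) (fun k x => maj_iff x)
    exact quant_of_PP hP
  · obtain ⟨e, c, k₁, len, hP⟩ := PP_of_block h parF (fun k => hard_par k hp)
      (fun k x => par_iff x)
    exact quant_of_PP hP

theorem not_distillable {R : Set (List Bool)} (hR : Quant p R)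
    (F : (m : ℕ) → (Fin m → Bool) → Bool) (e₀ : Bool) (γ : ℝ) (hγ : 0 < γ)
    (hF : PolyIsolated F e₀ γ) : ¬ Distillable p R F e₀ := by
  rintro ⟨a, hD⟩
  obtain ⟨c, len, hlen, hq⟩ := hR
  obtain ⟨δ, hδ, hk⟩ := hq a 1 one_pos
  set A : ℕ := (c + 2) * a + 3 with hA
  set B : ℕ := ⌈(A : ℝ) / γ⌉₊ with hB
  have hBA : (A : ℝ) ≤ B * γ := by
    have := Nat.le_ceil ((A : ℝ) / γ)
    rw [div_le_iff₀ hγ] at this
    exact this
  obtain ⟨k, ⟨⟨h1, h2⟩, ⟨h3, h4⟩⟩, h5⟩ := (((hlen.and hk).and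
    ((eventually_pow_le ((B + c + 3) * a + 2) hδ).and (eventually_ge_atTop (max 2 (max c a))))).and
    (eventually_pow_le B hδ)).exists
  have hk2 : 2 ≤ k := (le_max_left _ _).trans h4
  have hkc : c ≤ k := (le_max_left _ _).trans ((le_max_right _ _).trans h4)
  have hka : a ≤ k := (le_max_right _ _).trans ((le_max_right _ _).trans h4)
  have hk1 : 1 ≤ k := by omega
  set n : ℕ := len k with hn
  have hkp : ∀ i j : ℕ, i ≤ j → k ^ i ≤ k ^ j := fun i j hij => Nat.pow_le_pow_right hk1 hij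
  have hn2 : n ≤ k ^ (c + 2) := by
    have e1 : k ^ c ≤ k ^ (c + 1) := hkp _ _ (by omega)
    have e2 : c ≤ k ^ (c + 1) := hkc.trans (by simpa using hkp 1 (c + 1) (by omega))
    have e3 : k ^ (c + 2) = k * k ^ (c + 1) := by ring
    have e4 : 2 * k ^ (c + 1) ≤ k * k ^ (c + 1) := Nat.mul_le_mul_right _ hk2
    omega
  have hna : n ^ a + a ≤ k ^ ((c + 2) * a + 2) := by
    have e1 : n ^ a ≤ k ^ ((c + 2) * a) := by
      rw [pow_mul]
      exact Nat.pow_le_pow_left hn2 a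
    have e2 : k ^ ((c + 2) * a) ≤ k ^ ((c + 2) * a + 1) := hkp _ _ (by omega)
    have e3 : a ≤ k ^ ((c + 2) * a + 1) := hka.trans (by simpa using hkp 1 _ (by omega))
    have e4 : k ^ ((c + 2) * a + 2) = k * k ^ ((c + 2) * a + 1) := by ring
    have e5 : 2 * k ^ ((c + 2) * a + 1) ≤ k * k ^ ((c + 2) * a + 1) :=
      Nat.mul_le_mul_right _ hk2
    omega
  set m : ℕ := k ^ B with hm
  have hm1 : 1 ≤ m := Nat.one_le_pow _ _ hk1
  have hmn : (m + n) ^ a + a ≤ k ^ ((B + c + 3) * a + 2) := by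
    have e0 : m + n ≤ k ^ (B + c + 3) := by
      have f1 : m ≤ k ^ (B + c + 2) := hkp _ _ (by omega)
      have f2 : n ≤ k ^ (B + c + 2) := hn2.trans (hkp _ _ (by omega))
      have f3 : k ^ (B + c + 3) = k * k ^ (B + c + 2) := by ring
      have f4 : 2 * k ^ (B + c + 2) ≤ k * k ^ (B + c + 2) := Nat.mul_le_mul_right _ hk2
      omega
    have e1 : (m + n) ^ a ≤ k ^ ((B + c + 3) * a) := by
      rw [pow_mul]
      exact Nat.pow_le_pow_left e0 a
    have e2 : k ^ ((B + c + 3) * a) ≤ k ^ ((B + c + 3) * a + 1) := hkp _ _ (by omega)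
    have e3 : a ≤ k ^ ((B + c + 3) * a + 1) := hka.trans (by simpa using hkp 1 _ (by omega))
    have e4 : k ^ ((B + c + 3) * a + 2) = k * k ^ ((B + c + 3) * a + 1) := by ring
    have e5 : 2 * k ^ ((B + c + 3) * a + 1) ≤ k * k ^ ((B + c + 3) * a + 1) :=
      Nat.mul_le_mul_right _ hk2
    omega
  obtain ⟨Q, K, hQ, hKd, hKs, hKx⟩ := hD m n hm1
  obtain ⟨b, S, hS, hb, hiso⟩ := hF m hm1
  have hkR : (1 : ℝ) ≤ k := by exact_mod_cast hk1
  have hQS : (Q : ℝ) + ((n ^ a + a : ℕ) : ℝ) ≤ S.card * (k : ℝ) ^ ((1 : ℝ) - 1) := by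
    rw [sub_self, Real.rpow_zero, mul_one]
    refine le_trans ?_ hS
    have e1 : (m : ℝ) ^ γ = (k : ℝ) ^ ((B : ℝ) * γ) := by
      rw [hm]
      push_cast
      rw [Real.rpow_mul (by linarith), Real.rpow_natCast]
    rw [e1]
    have e2 : (k : ℝ) ^ (A : ℝ) ≤ (k : ℝ) ^ ((B : ℝ) * γ) :=
      Real.rpow_le_rpow_of_exponent_le hkR hBA
    refine le_trans ?_ e2
    rw [Real.rpow_natCast]
    have e3 : Q + (n ^ a + a) ≤ k ^ A := by
      calc Q + (n ^ a + a) ≤ k ^ ((c + 2) * a + 2) + k ^ ((c + 2) * a + 2) :=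
            Nat.add_le_add (hQ.trans hna) hna
        _ = 2 * k ^ ((c + 2) * a + 2) := by ring
        _ ≤ k * k ^ ((c + 2) * a + 2) := Nat.mul_le_mul_right _ hk2
        _ = k ^ A := by rw [hA]; ring
    exact_mod_cast e3
  have hSne : S.Nonempty := by
    rw [← Finset.card_pos]
    have : (0 : ℝ) < (m : ℝ) ^ γ := by
      have : (0 : ℝ) < m := by exact_mod_cast hm1
      positivity
    have h6 : (0 : ℝ) < S.card := lt_of_lt_of_le this hS
    exact_mod_cast h6
  have hmδ : (m : ℝ) ≤ 2 ^ ((k : ℝ) ^ δ) := by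
    refine le_trans ?_ h5
    rw [hm]
    push_cast
    exact le_rfl
  have hKs' : K.SizeLE (2 ^ ((k : ℝ) ^ δ)) := by
    intro r
    refine (hKs r).trans (le_trans ?_ h3)
    exact_mod_cast hmn
  refine h2 m Q (n ^ a + a) (F m) b S hmδ hSne hQS hiso K hKd hKs' ?_
  rw [hb]
  exact hKx

lemma orFn_iso : PolyIsolated orFn false 1 := by
  intro m _
  refine ⟨fun _ => false, univ, by simp, ?_, ?_⟩
  · unfold orFn
    simp
  · intro y _ hy
    have h1 : ∃ i, y i = true := by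
      by_contra hcon
      push Not at hcon
      apply hy
      funext i
      simpa using hcon i
    unfold orFn
    rw [decide_eq_true h1, decide_eq_false (by simp)]
    simp

lemma andFn_iso : PolyIsolated andFn true 1 := by
  intro m _
  refine ⟨fun _ => true, univ, by simp, ?_, ?_⟩
  · unfold andFn
    simp
  · intro y _ hy
    have h1 : ¬ ∀ i, y i = true := by
      intro h
      exact hy (funext h)
    unfold andFn
    rw [decide_eq_false h1, decide_eq_true (by simp)]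
    simp

/-- a circuit with one gate -/
def oneCircuit (p k : ℕ) : Circuit p (Fin k) where
  size := 1
  kind := fun _ => GateKind.and
  preds := fun _ => ∅
  acyclic := fun g h hh => absurd hh (Finset.notMem_empty _)
  unary := fun g hg => by cases hg

lemma Reduces_refl (p : ℕ) (A : Set (List Bool)) : Reduces p A A := by
  refine ⟨1, fun k => ⟨k, oneCircuit p k, fun l => Sum.inl l, by simp, ?_, ?_, ?_⟩⟩
  · show 1 ≤ k ^ 1 + 1
    omega
  · intro l
    show 0 ≤ 1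
    omega
  · intro w
    exact Iff.rfl

end Pool.Agent.W2helper86.MD
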