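import Pool.Agent.W2helper86.MD.Deg

/-!
# Independent monomials on a set of points, and polynomials which vanish on a set
-/

set_option autoImplicit false

namespace Pool.Agent.W2helper86.MD

open Finset

/-- the number of subsets of an `N`-set with fewer than `e` elements -/
def cnt (N e : ℕ) : ℕ := ∑ i ∈ range e, N.choose i

lemma cnt_succ (N e : ℕ) : cnt (N + 1) e = cnt N e + cnt N (e - 1) := by
  unfold cnt
  cases e with
  | zero => simp
  | succ e =>
    rw [Finset.sum_range_succ', Nat.add_sub_cancel, Finset.sum_range_succ' (fun i => N.choose i) e]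
    simp only [Nat.choose_succ_succ, Finset.sum_add_distrib, Nat.choose_zero_right]
    ring

lemma cnt_mono (N : ℕ) {e e' : ℕ} (h : e ≤ e') : cnt N e ≤ cnt N e' := by
  unfold cnt
  exact Finset.sum_le_sum_of_subset (Finset.range_mono h)

/-- the monomials of the sets in `D` are linearly independent on `A` -/
def Ind (K : Type) [Field K] {N : ℕ} (A : Finset (Fin N → Bool)) (D : Finset (Finset (Fin N))) :
    Prop :=
  ∀ c : Finset (Fin N) → K, (∀ x ∈ A, ∑ T ∈ D, c T * mon T x = 0) → ∀ T ∈ D, c T = 0

variable {K : Type} [Field K]

/-- shift a set -/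
def e1 {N : ℕ} (T : Finset (Fin N)) : Finset (Fin (N + 1)) := T.map (Fin.succEmb N)

/-- shift a set and add `0` -/
def e2 {N : ℕ} (T : Finset (Fin N)) : Finset (Fin (N + 1)) := insert 0 (e1 T)

lemma zero_notMem_e1 {N : ℕ} (T : Finset (Fin N)) : (0 : Fin (N + 1)) ∉ e1 T := by
  unfold e1
  rw [Finset.mem_map]
  rintro ⟨i, _, hi⟩
  exact Fin.succ_ne_zero i hi

lemma e1_inj {N : ℕ} : Function.Injective (e1 (N := N)) := fun _ _ h => Finset.map_injective _ h

lemma e2_inj {N : ℕ} : Function.Injective (e2 (N := N)) := by
  intro T T' h
  apply e1_inj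
  have h1 : (e2 T).erase 0 = (e2 T').erase 0 := by rw [h]
  unfold e2 at h1
  rwa [Finset.erase_insert (zero_notMem_e1 T), Finset.erase_insert (zero_notMem_e1 T')] at h1

lemma card_e1 {N : ℕ} (T : Finset (Fin N)) : (e1 T).card = T.card := Finset.card_map _

lemma card_e2 {N : ℕ} (T : Finset (Fin N)) : (e2 T).card = T.card + 1 := by
  unfold e2
  rw [Finset.card_insert_of_notMem (zero_notMem_e1 T), card_e1]

lemma mon_e1 {N : ℕ} (T : Finset (Fin N)) (b : Bool) (y : Fin N → Bool) :
    mon (K := K) (e1 T) (Fin.cons b y : Fin (N + 1) → Bool) = mon T y := by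
  unfold mon e1
  rw [Finset.prod_map]
  refine Finset.prod_congr rfl fun i _ => ?_
  simp

lemma mon_e2 {N : ℕ} (T : Finset (Fin N)) (b : Bool) (y : Fin N → Bool) :
    mon (K := K) (e2 T) (Fin.cons b y : Fin (N + 1) → Bool) =
      (if b = true then 1 else 0) * mon T y := by
  rw [← mon_e1 T b y]
  unfold mon e2
  rw [Finset.prod_insert (zero_notMem_e1 T)]
  simp

theorem exists_ind (K : Type) [Field K] : ∀ (N : ℕ) (A : Finset (Fin N → Bool)),
    ∃ D : Finset (Finset (Fin N)), Ind K A D ∧
      ∀ e, A.card * cnt N e ≤ (D.filter (fun T => T.card < e)).card * 2 ^ N := by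
  classical
  intro N
  induction N with
  | zero =>
    intro A
    by_cases hA : A = ∅
    · refine ⟨∅, ?_, ?_⟩
      · intro c _ T hT
        simp at hT
      · intro e
        rw [hA]
        simp
    · obtain ⟨x, hx⟩ := Finset.nonempty_iff_ne_empty.2 hA
      refine ⟨{∅}, ?_, ?_⟩
      · intro c hc T hT
        have h1 := hc x hx
        rw [Finset.sum_singleton] at h1
        have h2 : mon (K := K) (∅ : Finset (Fin 0)) x = 1 := by simp [mon]
        rw [h2, mul_one] at h1
        rw [Finset.mem_singleton.1 hT, h1]
      · intro e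
        have h1 : A.card ≤ 1 := by
          refine Finset.card_le_one.2 fun a _ b _ => ?_
          exact Subsingleton.elim _ _
        cases e with
        | zero => simp [cnt]
        | succ e =>
          have h2 : cnt 0 (e + 1) ≤ 1 := by
            unfold cnt
            rw [Finset.sum_range_succ']
            simp
          have h3 : (({∅} : Finset (Finset (Fin 0))).filter (fun T => T.card < e + 1)).card = 1 := by
            rw [Finset.filter_true_of_mem]
            · simp
            · intro T hT
              rw [Finset.mem_singleton.1 hT]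
              simp
          rw [h3]
          calc A.card * cnt 0 (e + 1) ≤ 1 * 1 := Nat.mul_le_mul h1 h2
            _ = 1 * 2 ^ 0 := by norm_num
  | succ N ih =>
    intro A
    set U0 : Finset (Fin N → Bool) :=
      univ.filter (fun y => (Fin.cons false y : Fin (N + 1) → Bool) ∈ A) with hU0
    set U1 : Finset (Fin N → Bool) :=
      univ.filter (fun y => (Fin.cons true y : Fin (N + 1) → Bool) ∈ A) with hU1
    have hcard : A.card = (U0 ∪ U1).card + (U0 ∩ U1).card := by
      rw [Finset.card_union_add_card_inter]
      have h1 : A = U0.image (fun y => (Fin.cons false y : Fin (N + 1) → Bool)) ∪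
          U1.image (fun y => (Fin.cons true y : Fin (N + 1) → Bool)) := by
        ext x
        rw [Finset.mem_union, Finset.mem_image, Finset.mem_image]
        constructor
        · intro hx
          have h2 : x = (Fin.cons (x 0) (Fin.tail x) : Fin (N + 1) → Bool) :=
            (Fin.cons_self_tail x).symm
          rcases hb : x 0 with _ | _
          · left
            refine ⟨Fin.tail x, ?_, ?_⟩
            · rw [hU0, Finset.mem_filter]
              refine ⟨Finset.mem_univ _, ?_⟩
              rw [hb] at h2
              rwa [← h2]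
            · rw [hb] at h2
              exact h2.symm
          · right
            refine ⟨Fin.tail x, ?_, ?_⟩
            · rw [hU1, Finset.mem_filter]
              refine ⟨Finset.mem_univ _, ?_⟩
              rw [hb] at h2
              rwa [← h2]
            · rw [hb] at h2
              exact h2.symm
        · rintro (⟨y, hy, rfl⟩ | ⟨y, hy, rfl⟩)
          · exact (Finset.mem_filter.1 hy).2
          · exact (Finset.mem_filter.1 hy).2
      have h3 : Disjoint (U0.image (fun y => (Fin.cons false y : Fin (N + 1) → Bool)))
          (U1.image (fun y => (Fin.cons true y : Fin (N + 1) → Bool))) := by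
        rw [Finset.disjoint_left]
        intro x hx hx'
        rw [Finset.mem_image] at hx hx'
        obtain ⟨y, _, hy⟩ := hx
        obtain ⟨z, _, hz⟩ := hx'
        have := congrFun (hy.trans hz.symm) 0
        simp at this
      conv_lhs => rw [h1]
      rw [Finset.card_union_of_disjoint h3, Finset.card_image_of_injective,
        Finset.card_image_of_injective]
      · exact fun y z h => (Fin.cons_inj.1 h).2
      · exact fun y z h => (Fin.cons_inj.1 h).2
    obtain ⟨DU, hDU, hU⟩ := ih (U0 ∪ U1)
    obtain ⟨DI, hDI, hI⟩ := ih (U0 ∩ U1)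
    have hdis : Disjoint (DU.image e1) (DI.image e2) := by
      rw [Finset.disjoint_left]
      intro T hT hT'
      rw [Finset.mem_image] at hT hT'
      obtain ⟨X, _, rfl⟩ := hT
      obtain ⟨Y, _, hY⟩ := hT'
      apply zero_notMem_e1 X
      rw [← hY]
      exact Finset.mem_insert_self _ _
    refine ⟨DU.image e1 ∪ DI.image e2, ?_, ?_⟩
    · intro c hc
      have hev : ∀ (b : Bool) (y : Fin N → Bool), (Fin.cons b y : Fin (N + 1) → Bool) ∈ A →
          ∑ T ∈ DU, c (e1 T) * mon T y +
            (if b = true then 1 else 0) * ∑ T ∈ DI, c (e2 T) * mon T y = 0 := by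
        intro b y hy
        have h1 := hc _ hy
        rw [Finset.sum_union hdis, Finset.sum_image (fun _ _ _ _ h => e1_inj h),
          Finset.sum_image (fun _ _ _ _ h => e2_inj h)] at h1
        simp only [mon_e1, mon_e2] at h1
        refine Eq.trans ?_ h1
        rw [Finset.mul_sum]
        congr 1
        refine Finset.sum_congr rfl fun T _ => ?_
        ring
      have hI0 : ∀ T ∈ DI, c (e2 T) = 0 := by
        apply hDI (fun T => c (e2 T))
        intro y hy
        rw [Finset.mem_inter] at hy
        have h1 := hev false y (Finset.mem_filter.1 hy.1).2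
        have h2 := hev true y (Finset.mem_filter.1 hy.2).2
        simp only [Bool.false_eq_true, if_false, zero_mul, add_zero, if_true, one_mul] at h1 h2
        rwa [h1, zero_add] at h2
      have hU0' : ∀ T ∈ DU, c (e1 T) = 0 := by
        apply hDU (fun T => c (e1 T))
        intro y hy
        have hz : ∑ T ∈ DI, c (e2 T) * mon T y = 0 :=
          Finset.sum_eq_zero fun T hT => by rw [hI0 T hT, zero_mul]
        rw [Finset.mem_union] at hy
        rcases hy with hy | hy
        · have h1 := hev false y (Finset.mem_filter.1 hy).2
          rwa [hz, mul_zero, add_zero] at h1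
        · have h1 := hev true y (Finset.mem_filter.1 hy).2
          rwa [hz, mul_zero, add_zero] at h1
      intro T hT
      rw [Finset.mem_union, Finset.mem_image, Finset.mem_image] at hT
      rcases hT with ⟨X, hX, rfl⟩ | ⟨X, hX, rfl⟩
      · exact hU0' X hX
      · exact hI0 X hX
    · intro e
      have hd : ((DU.image e1 ∪ DI.image e2).filter (fun T => T.card < e)).card =
          (DU.filter (fun T => T.card < e)).card + (DI.filter (fun T => T.card < e - 1)).card := by
        rw [Finset.filter_union, Finset.card_union_of_disjoint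
          (Finset.disjoint_filter_filter hdis), Finset.filter_image, Finset.filter_image,
          Finset.card_image_of_injective _ e1_inj, Finset.card_image_of_injective _ e2_inj]
        congr 2
        · refine Finset.filter_congr fun T _ => ?_
          rw [card_e1]
        · refine Finset.filter_congr fun T _ => ?_
          rw [card_e2]
          omega
      rw [hd, hcard, cnt_succ, pow_succ]
      have h1 := hU e
      have h2 := hI (e - 1)
      have h3 : (U0 ∩ U1).card ≤ (U0 ∪ U1).card :=
        Finset.card_le_card (Finset.inter_subset_left.trans Finset.subset_union_left)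
      have h4 : cnt N (e - 1) ≤ cnt N e := cnt_mono N (Nat.sub_le _ _)
      set u := (U0 ∪ U1).card
      set v := (U0 ∩ U1).card
      set c1 := cnt N e
      set c2 := cnt N (e - 1)
      set d1 := (DU.filter (fun T => T.card < e)).card
      set d2 := (DI.filter (fun T => T.card < e - 1)).card
      obtain ⟨a, ha⟩ := Nat.exists_eq_add_of_le h3
      obtain ⟨b, hb⟩ := Nat.exists_eq_add_of_le h4
      have h5 : (u + v) * (c1 + c2) ≤ 2 * (u * c1 + v * c2) := by
        rw [ha, hb]
        nlinarith [Nat.zero_le (a * b)]
      calc (u + v) * (c1 + c2) ≤ 2 * (u * c1 + v * c2) := h5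
        _ ≤ 2 * (d1 * 2 ^ N + d2 * 2 ^ N) := by omega
        _ = (d1 + d2) * (2 ^ N * 2) := by ring

/-- If `A` is large compared to `E`, some polynomial of small degree vanishes on `E` but not
on `A`. -/
theorem exists_vanish (K : Type) [Field K] {N e : ℕ} (E A : Finset (Fin N → Bool))
    (h : E.card * 2 ^ N < A.card * cnt N (e + 1)) :
    ∃ v : (Fin N → Bool) → K, Deg e v ∧ (∀ x ∈ E, v x = 0) ∧ ∃ x ∈ A, v x ≠ 0 := by
  classical
  obtain ⟨D, hD, hc⟩ := exists_ind K N A
  have h1 := hc (e + 1)
  set D' := D.filter (fun T => T.card < e + 1) with hD'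
  have h2 : E.card < D'.card := by
    have h3 : E.card * 2 ^ N < D'.card * 2 ^ N := lt_of_lt_of_le h h1
    exact lt_of_mul_lt_mul_right h3 (Nat.zero_le _)
  -- the evaluation map
  let φ : (D' → K) →ₗ[K] (E → K) :=
    { toFun := fun c x => ∑ T, c T * mon T.1 x.1
      map_add' := by
        intro c c'
        funext x
        simp [add_mul, Finset.sum_add_distrib]
      map_smul' := by
        intro a c
        funext x
        simp [mul_assoc, Finset.mul_sum] }
  have h4 : LinearMap.ker φ ≠ ⊥ := by
    apply LinearMap.ker_ne_bot_of_finrank_lt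
    simp only [Module.finrank_fintype_fun_eq_card, Fintype.card_coe]
    exact h2
  obtain ⟨c, hcφ, hcne⟩ := Submodule.exists_mem_ne_zero_of_ne_bot h4
  set c' : Finset (Fin N) → K := fun T => if hT : T ∈ D' then c ⟨T, hT⟩ else 0 with hc'
  have hsum : ∀ x, ∑ T ∈ D', c' T * mon T x = ∑ T : D', c T * mon T.1 x := by
    intro x
    rw [← Finset.sum_coe_sort D']
    refine Finset.sum_congr rfl fun T _ => ?_
    rw [hc']
    simp
  refine ⟨fun x => ∑ T ∈ D', c' T * mon T x, ?_, ?_, ?_⟩
  · apply Deg.sum
    intro T hT
    apply Deg.smul
    apply Deg.mon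
    have := (Finset.mem_filter.1 hT).2
    omega
  · intro x hx
    show ∑ T ∈ D', c' T * mon T x = 0
    rw [hsum]
    have := congrFun (LinearMap.mem_ker.1 hcφ) ⟨x, hx⟩
    exact this
  · by_contra hcon
    push Not at hcon
    apply hcne
    have h5 : ∀ x ∈ A, ∑ T ∈ D, (if T ∈ D' then c' T else 0) * mon T x = 0 := by
      intro x hx
      refine Eq.trans ?_ (hcon x hx)
      have h6 : D' ⊆ D := Finset.filter_subset _ _
      rw [← Finset.sum_subset h6]
      · refine Finset.sum_congr rfl fun T hT => ?_
        rw [if_pos hT]
      · intro T _ hT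
        rw [if_neg hT, zero_mul]
    have h7 := hD _ h5
    funext T
    have h8 := h7 T.1 ((Finset.filter_subset _ _) T.2)
    rw [if_pos T.2, hc'] at h8
    simpa using h8

end Pool.Agent.W2helper86.MD
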