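import Pool.Agent.W2helper86.MD.Hard

/-!
# A compressor composed with a reduction from majority or parity
-/

set_option autoImplicit false

namespace Pool.Agent.W2helper86.MD

open Finset

/-- every coordinate of `π` is a constant, a variable, or a negated variable -/
def IsProj {k ν : ℕ} (π : (Fin k → Bool) → (Fin ν → Bool)) : Prop :=
  ∀ j, (∃ c, ∀ x, π x j = c) ∨ (∃ a, ∀ x, π x j = x a) ∨ (∃ a, ∀ x, π x j = !x a)

/-- the instance produced from a block by the reduction -/
noncomputable def inst {p n ν n₀ : ℕ} (π : (Fin n₀ → Bool) → (Fin ν → Bool))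
    (G : Circuit p (Fin ν)) (o : Fin n → Fin ν ⊕ Fin G.size) (x : Fin n₀ → Bool) : Fin n → Bool :=
  fun l => G.nodeVal (π x) (o l)

/-- the blocks: the blocks outside `S` are constant, those in `S` are free, up to complement -/
def plug {m n₀ : ℕ} (S : Finset (Fin m)) (b : Fin m → Bool) (y : S × Fin n₀ → Bool)
    (i : Fin m) (a : Fin n₀) : Bool :=
  if h : i ∈ S then xor (y (⟨i, h⟩, a)) (b i) else b i

lemma plug_dep {m n₀ ν : ℕ} (S : Finset (Fin m)) (b : Fin m → Bool)
    {π : (Fin n₀ → Bool) → (Fin ν → Bool)} (hπ : IsProj π) (q : Fin m × Fin ν) :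
    ∃ A : Finset (S × Fin n₀), A.card ≤ 1 ∧ ∀ y y' : S × Fin n₀ → Bool,
      (∀ i ∈ A, y i = y' i) → π (plug S b y q.1) q.2 = π (plug S b y' q.1) q.2 := by
  classical
  have key : ∀ a : Fin n₀, ∃ A : Finset (S × Fin n₀), A.card ≤ 1 ∧ ∀ y y' : S × Fin n₀ → Bool,
      (∀ i ∈ A, y i = y' i) → plug S b y q.1 a = plug S b y' q.1 a := by
    intro a
    by_cases h : q.1 ∈ S
    · refine ⟨{(⟨q.1, h⟩, a)}, by simp, fun y y' hy => ?_⟩
      unfold plug
      rw [dif_pos h, dif_pos h, hy _ (Finset.mem_singleton_self _)]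
    · refine ⟨∅, by simp, fun y y' _ => ?_⟩
      unfold plug
      rw [dif_neg h, dif_neg h]
  rcases hπ q.2 with ⟨c, hc⟩ | ⟨a, ha⟩ | ⟨a, ha⟩
  · exact ⟨∅, by simp, fun y y' _ => by rw [hc, hc]⟩
  · obtain ⟨A, hA, h⟩ := key a
    exact ⟨A, hA, fun y y' hy => by rw [ha, ha, h y y' hy]⟩
  · obtain ⟨A, hA, h⟩ := key a
    exact ⟨A, hA, fun y y' hy => by rw [ha, ha, h y y' hy]⟩

section Big
variable {p m n Q ν n₀ : ℕ}

/-- The circuit which tests whether the outputs of the compressor are `z`. -/
theorem exists_big (C : Circuit p (Fin m × Fin n)) (out : Fin Q → (Fin m × Fin n) ⊕ Fin C.size)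
    {d : ℕ} (hd : ∀ t, C.nodeDepth (out t) ≤ d)
    {π : (Fin n₀ → Bool) → (Fin ν → Bool)} (hπ : IsProj π) (G : Circuit p (Fin ν))
    (o : Fin n → Fin ν ⊕ Fin G.size) {e : ℕ} (ho : ∀ l, G.nodeDepth (o l) ≤ e)
    (S : Finset (Fin m)) (b : Fin m → Bool) (z : Fin Q → Bool) :
    ∃ (B : Ckt p (S × Fin n₀)) (v : B.Node), B.depth v = e + d + 1 ∧
      Nat.card B.Node = m * ν + m * G.size + C.size + 1 ∧
      ∀ y, (B.val v y = true ↔ ∀ t, C.nodeVal
        (fun il => inst π G o (plug S b y il.1) il.2) (out t) = z t) := by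
  classical
  let B0 : Ckt p (S × Fin n₀) := leaves p (W := Fin m × Fin ν)
    (fun q y => π (plug S b y q.1) q.2) (plug_dep S b hπ)
  let B1 : Ckt p (S × Fin n₀) := comp B0 (τ := Fin m) (fun _ => Fin ν) (fun _ => G)
    (fun i j => (i, j)) 0 (fun _ _ => le_rfl)
  let n1 : Fin m → Fin n → B1.Node := fun i l => match o l with
    | Sum.inl j => (Sum.inl (i, j) : (Fin m × Fin ν) ⊕ (Σ _ : Fin m, Fin G.size))
    | Sum.inr g => (Sum.inr ⟨i, g⟩ : (Fin m × Fin ν) ⊕ (Σ _ : Fin m, Fin G.size))
  have hn1v : ∀ i l y, B1.val (n1 i l) y = inst π G o (plug S b y i) l := by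
    intro i l y
    show B1.val (match o l with
      | Sum.inl j => (Sum.inl (i, j) : (Fin m × Fin ν) ⊕ (Σ _ : Fin m, Fin G.size))
      | Sum.inr g => (Sum.inr ⟨i, g⟩ : (Fin m × Fin ν) ⊕ (Σ _ : Fin m, Fin G.size))) y =
      G.nodeVal (π (plug S b y i)) (o l)
    cases o l <;> rfl
  have hn1d : ∀ i l, B1.depth (n1 i l) ≤ e := by
    intro i l
    have h := ho l
    show B1.depth (match o l with
      | Sum.inl j => (Sum.inl (i, j) : (Fin m × Fin ν) ⊕ (Σ _ : Fin m, Fin G.size))
      | Sum.inr g => (Sum.inr ⟨i, g⟩ : (Fin m × Fin ν) ⊕ (Σ _ : Fin m, Fin G.size))) ≤ e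
    cases hol : o l with
    | inl j => exact Nat.zero_le _
    | inr g =>
      rw [hol] at h
      show 0 + G.gateDepth g ≤ e
      rw [zero_add]
      exact h
  let B2 : Ckt p (S × Fin n₀) := comp B1 (τ := Unit) (fun _ => Fin m × Fin n) (fun _ => C)
    (fun _ q => n1 q.1 q.2) e (fun _ q => hn1d q.1 q.2)
  let n2 : Fin Q → B2.Node := fun t => match out t with
    | Sum.inl q => (Sum.inl (n1 q.1 q.2) : B1.Node ⊕ (Σ _ : Unit, Fin C.size))
    | Sum.inr g => (Sum.inr ⟨(), g⟩ : B1.Node ⊕ (Σ _ : Unit, Fin C.size))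
  have hn2v : ∀ t y, B2.val (n2 t) y = C.nodeVal
      (fun il => inst π G o (plug S b y il.1) il.2) (out t) := by
    intro t y
    have hin : (fun il : Fin m × Fin n => B1.val (n1 il.1 il.2) y) =
        fun il => inst π G o (plug S b y il.1) il.2 := by
      funext il
      exact hn1v il.1 il.2 y
    rw [← hin]
    show B2.val (match out t with
      | Sum.inl q => (Sum.inl (n1 q.1 q.2) : B1.Node ⊕ (Σ _ : Unit, Fin C.size))
      | Sum.inr g => (Sum.inr ⟨(), g⟩ : B1.Node ⊕ (Σ _ : Unit, Fin C.size))) y =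
      C.nodeVal (fun il : Fin m × Fin n => B1.val (n1 il.1 il.2) y) (out t)
    cases out t <;> rfl
  have hn2d : ∀ t, B2.depth (n2 t) ≤ e + d := by
    intro t
    have h := hd t
    show B2.depth (match out t with
      | Sum.inl q => (Sum.inl (n1 q.1 q.2) : B1.Node ⊕ (Σ _ : Unit, Fin C.size))
      | Sum.inr g => (Sum.inr ⟨(), g⟩ : B1.Node ⊕ (Σ _ : Unit, Fin C.size))) ≤ e + d
    cases hot : out t with
    | inl q =>
      show B1.depth (n1 q.1 q.2) ≤ e + d
      have := hn1d q.1 q.2
      omega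
    | inr g =>
      rw [hot] at h
      show e + C.gateDepth g ≤ e + d
      have h2 : C.nodeDepth (Sum.inr g) = C.gateDepth g := rfl
      omega
  refine ⟨andz B2 n2 z (e + d) hn2d, none, rfl, ?_, ?_⟩
  · show Nat.card (Option (((Fin m × Fin ν) ⊕ (Σ _ : Fin m, Fin G.size)) ⊕
      (Σ _ : Unit, Fin C.size))) = _
    rw [Finite.card_option, Nat.card_sum, Nat.card_sum, Nat.card_prod, Nat.card_sigma,
      Nat.card_sigma]
    simp
  · intro y
    show decide (∀ t, B2.val (n2 t) y = z t) = true ↔ _
    rw [decide_eq_true_iff]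
    simp only [hn2v]

end Big

section Count
variable {k : ℕ} {H : (Fin (2 * k + 1) → Bool) → Bool}

lemma card_false (hdual : ∀ x, H (fun i => !x i) = !H x) :
    (univ.filter (fun x => H x = false)).card * 2 = 2 ^ (2 * k + 1) := by
  classical
  have h1 : (univ.filter (fun x => H x = false)).card = (univ.filter (fun x => ¬ H x = false)).card := by
    refine Finset.card_bij' (fun x _ => fun i => !x i) (fun x _ => fun i => !x i) ?_ ?_ ?_ ?_
    · intro x hx
      simp only [Finset.mem_filter, Finset.mem_univ, true_and] at hx ⊢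
      rw [hdual, hx]
      simp
    · intro x hx
      simp only [Finset.mem_filter, Finset.mem_univ, true_and] at hx ⊢
      rw [hdual]
      simpa using hx
    · intro x _
      funext i
      simp
    · intro x _
      funext i
      simp
  have h2 := Finset.card_filter_add_card_filter_not (s := (univ : Finset (Fin (2 * k + 1) → Bool)))
    (fun x => H x = false)
  rw [← h1, Finset.card_univ, Fintype.card_fun, Fintype.card_bool, Fintype.card_fin] at h2
  omega

lemma card_blocks {S : Type} [Fintype S] [DecidableEq S] (hdual : ∀ x, H (fun i => !x i) = !H x) :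
    (univ.filter (fun y : S × Fin (2 * k + 1) → Bool =>
      ∀ i, H (fun a => y (i, a)) = false)).card * 2 ^ (Fintype.card S) =
      2 ^ (Fintype.card S * (2 * k + 1)) := by
  classical
  have h1 : (univ.filter (fun y : S × Fin (2 * k + 1) → Bool =>
      ∀ i, H (fun a => y (i, a)) = false)).card =
      (Fintype.piFinset (fun _ : S => univ.filter (fun x => H x = false))).card := by
    refine Finset.card_bij' (fun y _ => fun i a => y (i, a)) (fun f _ => fun q => f q.1 q.2)
      ?_ ?_ ?_ ?_
    · intro y hy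
      simp only [Finset.mem_filter, Finset.mem_univ, true_and, Fintype.mem_piFinset] at hy ⊢
      exact hy
    · intro f hf
      simp only [Finset.mem_filter, Finset.mem_univ, true_and, Fintype.mem_piFinset] at hf ⊢
      exact hf
    · intro y _
      rfl
    · intro f _
      rfl
  rw [h1, Fintype.card_piFinset, Finset.prod_const, Finset.card_univ, ← mul_pow,
    card_false hdual, ← pow_mul, mul_comm]

end Count

section Main
variable {p : ℕ} [Fact p.Prime] {m n Q ν k : ℕ}

/-- The truth values of the instances obtained from the blocks. -/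
lemma member_eq {H : (Fin (2 * k + 1) → Bool) → Bool} (hH : HardBlock p k H)
    {π : (Fin (2 * k + 1) → Bool) → (Fin ν → Bool)} {G : Circuit p (Fin ν)}
    {o : Fin n → Fin ν ⊕ Fin G.size} {R : Set (List Bool)}
    (hred : ∀ x, List.ofFn (inst π G o x) ∈ R ↔ H x = true)
    (S : Finset (Fin m)) (b : Fin m → Bool) (y : S × Fin (2 * k + 1) → Bool) :
    (∀ (i : Fin m) (h : i ∈ S), member R (fun i => inst π G o (plug S b y i)) i =
      xor (H (fun a => y (⟨i, h⟩, a))) (b i)) ∧
    (∀ i, i ∉ S → member R (fun i => inst π G o (plug S b y i)) i = b i) := by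
  classical
  have hmem : ∀ i, member R (fun i => inst π G o (plug S b y i)) i = H (plug S b y i) := by
    intro i
    unfold member
    rcases hb : H (plug S b y i) with _ | _
    · rw [decide_eq_false_iff_not, hred, hb]
      simp
    · rw [decide_eq_true_iff, hred, hb]
  constructor
  · intro i h
    rw [hmem]
    have h1 : plug S b y i = fun a => xor (y (⟨i, h⟩, a)) (b i) := by
      funext a
      unfold plug
      rw [dif_pos h]
    rw [h1]
    rcases b i with _ | _
    · simp
    · simp only [Bool.xor_true]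
      exact hH.dual _
  · intro i h
    rw [hmem]
    have h1 : plug S b y i = fun _ => b i := by
      funext a
      unfold plug
      rw [dif_neg h]
    rw [h1]
    rcases b i with _ | _
    · exact hH.zero
    · have := hH.dual (fun _ => false)
      rw [hH.zero] at this
      simpa using this

/-- No compressor exists if the parameters fit. -/
theorem main (K : Compressor p m n Q) {R : Set (List Bool)} {F : (Fin m → Bool) → Bool}
    {e₀ : Bool} {σ : ℝ} (hK : K.Correct R F e₀ σ) {b : Fin m → Bool} {S : Finset (Fin m)}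
    (hb : F b = e₀) (hiso : IsolatedAt F b S)
    {H : (Fin (2 * k + 1) → Bool) → Bool} (hH : HardBlock p k H)
    {π : (Fin (2 * k + 1) → Bool) → (Fin ν → Bool)} (hπ : IsProj π) (G : Circuit p (Fin ν))
    (o : Fin n → Fin ν ⊕ Fin G.size) {e : ℕ} (ho : ∀ l, G.nodeDepth (o l) ≤ e)
    (hred : ∀ x, List.ofFn (inst π G o x) ∈ R ↔ H x = true)
    {d : ℕ} (hd : K.DepthLE d) {s : ℕ} (hs : ∀ r, m * ν + m * G.size + (K.circ r).size + 1 ≤ s)
    {h : ℕ} (hσ : ((2 : ℝ) ^ h)⁻¹ ≤ σ) {ℓ L f τ : ℕ}
    (hℓ : 1 ≤ ℓ) (hL : 1 ≤ L) (h4 : 4 * (L + 1) * s ≤ p ^ ℓ)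
    (htail : 2 ^ (S.card * (2 * k + 1)) ≤ cnt (S.card * (2 * k + 1)) (f + 1) * 2 ^ τ)
    (hLB : S.card + Q + h + τ + 2 ≤ 2 * L)
    (hdeg : L * (ℓ * (p - 1)) ^ (e + d + 1) + f + S.card * k < S.card * (2 * k + 1)) : False := by
  classical
  have := K.finite
  have := K.nonempty
  let _ : Fintype K.Seed := Fintype.ofFinite _
  set X : (S × Fin (2 * k + 1) → Bool) → Fin m → Fin n → Bool :=
    fun y i => inst π G o (plug S b y i) with hX
  set VS : Finset (S × Fin (2 * k + 1) → Bool) :=
    univ.filter (fun y => ∀ i, H (fun a => y (i, a)) = false) with hVS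
  have hcardVS : VS.card * 2 ^ S.card = 2 ^ (S.card * (2 * k + 1)) := by
    have := card_blocks (S := S) hH.dual
    rwa [Fintype.card_coe] at this
  have hVSpos : 0 < VS.card := by
    by_contra hcon
    have h0 : VS.card = 0 := by omega
    rw [h0, zero_mul] at hcardVS
    have : 0 < 2 ^ (S.card * (2 * k + 1)) := by positivity
    omega
  -- on `VS` the truth values are `b`
  have hVSb : ∀ y, y ∈ VS ↔ member R (X y) = b := by
    intro y
    obtain ⟨h1, h2⟩ := member_eq hH hred S b y
    rw [hVS, Finset.mem_filter]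
    constructor
    · rintro ⟨_, hy⟩
      funext i
      by_cases hi : i ∈ S
      · rw [h1 i hi, hy ⟨i, hi⟩]
        simp
      · exact h2 i hi
    · intro hy
      refine ⟨Finset.mem_univ _, fun i => ?_⟩
      have h3 := h1 i.1 i.2
      rw [hy] at h3
      rcases hHi : H (fun a => y (i, a)) with _ | _
      · rfl
      · rw [hHi] at h3
        cases hbi : b i.1 <;> rw [hbi] at h3 <;> simp at h3
  have hiso2 : ∀ y, F (member R (X y)) = e₀ → y ∈ VS := by
    intro y hy
    rw [hVSb]
    by_contra hne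
    obtain ⟨h1, h2⟩ := member_eq hH hred S b y
    exact hiso (member R (X y)) h2 hne (by rw [hy, hb])
  -- a good seed
  set Gd : K.Seed → Finset (S × Fin (2 * k + 1) → Bool) :=
    fun r => VS.filter (fun y => K.Says r (X y) ↔ e₀ = true) with hGd
  have hseed : ∃ r, (VS.card : ℝ) * σ ≤ (Gd r).card := by
    by_contra hcon
    push Not at hcon
    have h1 : ∑ r, ((Gd r).card : ℝ) < ∑ _r : K.Seed, (VS.card : ℝ) * σ :=
      Finset.sum_lt_sum_of_nonempty Finset.univ_nonempty fun r _ => hcon r
    have h2 : ∑ r, ((Gd r).card : ℝ) = ∑ y ∈ VS,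
        ((univ.filter (fun r => K.Says r (X y) ↔ e₀ = true)).card : ℝ) := by
      simp only [hGd, Finset.card_filter]
      push_cast
      rw [Finset.sum_comm]
    have h3 : ∀ y ∈ VS, σ * (Nat.card K.Seed : ℝ) ≤
        ((univ.filter (fun r => K.Says r (X y) ↔ e₀ = true)).card : ℝ) := by
      intro y hy
      have h4 : F (member R (X y)) = e₀ := by rw [(hVSb y).1 hy, hb]
      have h5 := (hK (X y)).2 h4
      rw [h4] at h5
      rw [← Fintype.card_subtype, ← Nat.card_eq_fintype_card]
      exact h5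
    have h6 : ∑ _y ∈ VS, σ * (Nat.card K.Seed : ℝ) ≤ ∑ r, ((Gd r).card : ℝ) := by
      rw [h2]
      exact Finset.sum_le_sum h3
    rw [Finset.sum_const, nsmul_eq_mul] at h6
    rw [Finset.sum_const, nsmul_eq_mul, Finset.card_univ, ← Nat.card_eq_fintype_card] at h1
    linarith
  obtain ⟨r, hr⟩ := hseed
  -- a frequent output
  set outp : (S × Fin (2 * k + 1) → Bool) → (Fin Q → Bool) := fun y t =>
    (K.circ r).nodeVal (fun il => X y il.1 il.2) (K.out r t) with houtp
  have hGpos : 0 < (Gd r).card := by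
    have h1 : (0 : ℝ) < (VS.card : ℝ) * σ := by
      have : (0 : ℝ) < σ := lt_of_lt_of_le (by positivity) hσ
      have : (0 : ℝ) < VS.card := by exact_mod_cast hVSpos
      positivity
    have h2 : (0 : ℝ) < (Gd r).card := lt_of_lt_of_le h1 hr
    exact_mod_cast h2
  have hz : ∃ z, (Gd r).card ≤ ((Gd r).filter (fun y => outp y = z)).card * 2 ^ Q := by
    by_contra hcon
    push Not at hcon
    have h1 := Finset.card_eq_sum_card_fiberwise (s := Gd r) (t := (univ : Finset (Fin Q → Bool)))
      (f := outp) (by intro y _; simp)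
    have h2 : ∑ z : Fin Q → Bool, ((Gd r).filter (fun y => outp y = z)).card * 2 ^ Q <
        ∑ _z : Fin Q → Bool, (Gd r).card :=
      Finset.sum_lt_sum_of_nonempty Finset.univ_nonempty fun z _ => hcon z
    rw [← Finset.sum_mul, ← h1, Finset.sum_const, Finset.card_univ, Fintype.card_fun,
      Fintype.card_bool, Fintype.card_fin, smul_eq_mul, mul_comm] at h2
    exact lt_irrefl _ h2
  obtain ⟨z, hz⟩ := hz
  have hzT : (z ∈ K.target r ↔ e₀ = true) := by
    have h1 : 0 < ((Gd r).filter (fun y => outp y = z)).card := by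
      by_contra hcon
      have h0 : ((Gd r).filter (fun y => outp y = z)).card = 0 := by omega
      rw [h0, zero_mul] at hz
      omega
    obtain ⟨y, hy⟩ := Finset.card_pos.1 h1
    rw [Finset.mem_filter] at hy
    obtain ⟨hy1, hy2⟩ := hy
    rw [hGd, Finset.mem_filter] at hy1
    rw [← hy2]
    exact hy1.2
  -- the circuit
  obtain ⟨B, v, hBd, hBc, hBv⟩ := exists_big (K.circ r) (K.out r) (hd r) hπ G o ho S b z
  have hval : ∀ y, B.val v y = true ↔ outp y = z := by
    intro y
    rw [hBv y]
    constructor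
    · intro h; funext t; exact h t
    · intro h t; exact congrFun h t
  refine core B v (N := S.card * (2 * k + 1)) ?_ (s := s) ?_ ?_ hℓ hL h4 (hH.thin S)
    (B := S.card + Q + h) ?_ ?_ htail hLB ?_
  · rw [Fintype.card_prod, Fintype.card_coe, Fintype.card_fin]
  · rw [hBc]; exact hs r
  · have := hs r; omega
  · intro y hy
    rw [hval] at hy
    have h1 : F (member R (X y)) = e₀ := by
      by_contra hne
      have h2 := (hK (X y)).1 hne r
      have h3 : K.Says r (X y) ↔ e₀ = true := by
        rw [← hzT, ← hy]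
        exact Iff.rfl
      rw [h3] at h2
      cases he : e₀ <;> cases hF : F (member R (X y)) <;> simp_all
    have h4 := hiso2 y h1
    rw [hVS, Finset.mem_filter] at h4
    exact h4.2
  · have h1 : ((Gd r).filter (fun y => outp y = z)).card ≤
        (univ.filter (fun y => B.val v y = true)).card := by
      apply Finset.card_le_card
      intro y hy
      rw [Finset.mem_filter] at hy ⊢
      exact ⟨Finset.mem_univ _, (hval y).2 hy.2⟩
    have h2 : (VS.card : ℝ) ≤ (Gd r).card * 2 ^ h := by
      have h3 : (VS.card : ℝ) * ((2 : ℝ) ^ h)⁻¹ ≤ (Gd r).card :=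
        (mul_le_mul_of_nonneg_left hσ (by positivity)).trans hr
      rwa [← div_eq_mul_inv, div_le_iff₀ (by positivity)] at h3
    have h2' : VS.card ≤ (Gd r).card * 2 ^ h := by exact_mod_cast h2
    calc 2 ^ (S.card * (2 * k + 1)) = VS.card * 2 ^ S.card := hcardVS.symm
      _ ≤ ((Gd r).card * 2 ^ h) * 2 ^ S.card := Nat.mul_le_mul_right _ h2'
      _ ≤ (((Gd r).filter (fun y => outp y = z)).card * 2 ^ Q * 2 ^ h) * 2 ^ S.card := by
          apply Nat.mul_le_mul_right
          exact Nat.mul_le_mul_right _ hz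
      _ ≤ ((univ.filter (fun y => B.val v y = true)).card * 2 ^ Q * 2 ^ h) * 2 ^ S.card := by
          apply Nat.mul_le_mul_right
          apply Nat.mul_le_mul_right
          exact Nat.mul_le_mul_right _ h1
      _ = (univ.filter (fun y => B.val v y = true)).card * 2 ^ (S.card + Q + h) := by ring
  · rw [hBd, Fintype.card_coe]
    exact hdeg

end Main

end Pool.Agent.W2helper86.MD
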