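import Pool.Agent.W2helper86.MD.Sat

/-!
# The choice of the parameters
-/

set_option autoImplicit false

namespace Pool.Agent.W2helper86.MD

open Finset Filter

/-- the deviation parameter -/
def uu (p t D : ℕ) : ℕ := 6 * (10 * t * (p - 1)) ^ D

lemma deg_ineq {M k b u Δ ρ : ℕ} (hM : 1 ≤ M) (hu : u = 6 * Δ) (hΔ : 1 ≤ Δ)
    (hk : 2 * k + 1 = b * (16 * u ^ 2 + 1) + ρ) (hρ : ρ < 16 * u ^ 2 + 1) (hb : 16 * u ≤ b) :
    3 * (M * b) * Δ + M * (b * (8 * u ^ 2 - u) + ρ) + M * k < M * (2 * k + 1) := by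
  have hu1 : 1 ≤ u := by omega
  obtain ⟨w, hw⟩ : ∃ w, 8 * u ^ 2 = u + w := ⟨8 * u ^ 2 - u, by
    have : u ≤ 8 * u ^ 2 := by nlinarith
    omega⟩
  have hw' : 8 * u ^ 2 - u = w := by omega
  rw [hw']
  have h1 : 3 * b * Δ + (b * w + ρ) + k < 2 * k + 1 := by
    have e1 : 2 * (3 * b * Δ) = b * u := by rw [hu]; ring
    have e2 : 2 * (b * w) + 2 * (b * u) = b * (16 * u ^ 2) := by
      have : 16 * u ^ 2 = 2 * (u + w) := by omega
      rw [this]; ring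
    have e3 : b * (16 * u ^ 2 + 1) = b * (16 * u ^ 2) + b := by ring
    have e4 : 16 * u ^ 2 ≤ b * u := by
      calc 16 * u ^ 2 = (16 * u) * u := by ring
        _ ≤ b * u := Nat.mul_le_mul_right _ hb
    omega
  calc 3 * (M * b) * Δ + M * (b * w + ρ) + M * k = M * (3 * b * Δ + (b * w + ρ) + k) := by ring
    _ < M * (2 * k + 1) := Nat.mul_lt_mul_of_pos_left h1 hM

section
variable {p : ℕ} [Fact p.Prime] {m n Q ν k : ℕ}

/-- No compressor exists if the parameters fit, second form. -/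
theorem step (K : Compressor p m n Q) {R : Set (List Bool)} {F : (Fin m → Bool) → Bool}
    {h : ℕ} {b : Fin m → Bool} {S : Finset (Fin m)}
    (hK : K.Correct R F (F b) ((2 : ℝ) ^ h)⁻¹) (hiso : IsolatedAt F b S)
    {H : (Fin (2 * k + 1) → Bool) → Bool} (hH : HardBlock p k H)
    {π : (Fin (2 * k + 1) → Bool) → (Fin ν → Bool)} (hπ : IsProj π) (G : Circuit p (Fin ν))
    (o : Fin n → Fin ν ⊕ Fin G.size) {e : ℕ} (ho : ∀ l, G.nodeDepth (o l) ≤ e)
    (hred : ∀ x, List.ofFn (inst π G o x) ∈ R ↔ H x = true)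
    {d : ℕ} (hd : K.DepthLE d) {t : ℕ} (ht : 1 ≤ t) (hm : m ≤ 2 ^ t)
    (hs : ∀ r, (K.circ r).size ≤ 2 ^ t) (hG : ν + G.size ≤ 2 ^ t) (hk : 2 * k + 1 ≤ 2 ^ t)
    (hS : S.Nonempty)
    (hu : 16 * uu p t (e + d + 1) * (16 * uu p t (e + d + 1) ^ 2 + 1) ≤ 2 * k + 1)
    (hQ : Q + h ≤ S.card * ((2 * k + 1) / (16 * uu p t (e + d + 1) ^ 2 + 1))) : False := by
  have hp2 : 2 ≤ p := (Fact.out : p.Prime).two_le
  set u := uu p t (e + d + 1) with hudef
  set Δ := (10 * t * (p - 1)) ^ (e + d + 1) with hΔ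
  have hu6 : u = 6 * Δ := rfl
  have hΔ1 : 1 ≤ Δ := Nat.one_le_pow _ _ (Nat.mul_pos (by omega) (by omega))
  set κ := 16 * u ^ 2 + 1 with hκ
  set bb := (2 * k + 1) / κ with hbb
  set ρ := (2 * k + 1) % κ with hρ
  have hκ0 : 0 < κ := by omega
  have hkdiv : 2 * k + 1 = bb * κ + ρ := by
    rw [hbb, hρ, mul_comm ((2 * k + 1) / κ) κ]
    exact (Nat.div_add_mod _ _).symm
  have hρlt : ρ < κ := Nat.mod_lt _ hκ0
  have hb16 : 16 * u ≤ bb := by
    rw [hbb, Nat.le_div_iff_mul_le hκ0]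
    exact hu
  have hM1 : 1 ≤ S.card := Finset.card_pos.2 hS
  have hMm : S.card ≤ m := by
    have := Finset.card_le_univ S
    rwa [Fintype.card_fin] at this
  have hb1 : 1 ≤ bb := by omega
  have hbk : bb ≤ 2 * k + 1 := Nat.div_le_self _ _
  have hMb : S.card * bb ≤ 2 ^ (2 * t) := by
    calc S.card * bb ≤ 2 ^ t * 2 ^ t := Nat.mul_le_mul (hMm.trans hm) (hbk.trans hk)
      _ = 2 ^ (2 * t) := by rw [← pow_add]; congr 1; ring
  have hMb1 : S.card ≤ S.card * bb := Nat.le_mul_of_pos_right _ hb1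
  have h2t : 1 ≤ 2 ^ (2 * t) := Nat.one_le_two_pow
  have h2t2 : 2 ^ (2 * t + 2) = 4 * 2 ^ (2 * t) := by rw [pow_add]; ring
  refine main K (s := 2 ^ (2 * t + 2)) hK rfl hiso hH hπ G o ho hred hd ?_ (h := h) le_rfl
    (ℓ := 10 * t) (L := 3 * (S.card * bb)) (f := S.card * (bb * (8 * u ^ 2 - u) + ρ))
    (τ := 2 * (S.card * bb)) (by omega) (by omega) ?_ ?_ ?_ ?_
  · intro r
    have h1 : m * ν + m * G.size ≤ 2 ^ (2 * t) := by
      calc m * ν + m * G.size = m * (ν + G.size) := by ring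
        _ ≤ 2 ^ t * 2 ^ t := Nat.mul_le_mul hm hG
        _ = 2 ^ (2 * t) := by rw [← pow_add]; congr 1; ring
    have h2 := hs r
    have h3 : 2 ^ t ≤ 2 ^ (2 * t) := Nat.pow_le_pow_right (by norm_num) (by omega)
    omega
  · have h1 : 3 * (S.card * bb) + 1 ≤ 2 ^ (2 * t + 2) := by omega
    calc 4 * (3 * (S.card * bb) + 1) * 2 ^ (2 * t + 2)
        ≤ 4 * 2 ^ (2 * t + 2) * 2 ^ (2 * t + 2) := by
          apply Nat.mul_le_mul_right
          exact Nat.mul_le_mul_left _ h1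
      _ = 2 ^ (4 * t + 6) := by
          rw [show (4 : ℕ) = 2 ^ 2 by norm_num, ← pow_add, ← pow_add]
          congr 1
          ring
      _ ≤ 2 ^ (10 * t) := Nat.pow_le_pow_right (by norm_num) (by omega)
      _ ≤ p ^ (10 * t) := Nat.pow_le_pow_left hp2 _
  · have h1 := tail_blocks (M := S.card) (k := k) (b := bb) (u := u) (ρ := ρ) hkdiv
    have h2 : 4 ^ (S.card * bb) = 2 ^ (2 * (S.card * bb)) := by
      rw [pow_mul 2 2]; norm_num
    rwa [h2] at h1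
  · omega
  · exact deg_ineq hM1 hu6 hΔ1 hkdiv hρlt hb16

end

lemma tendsto_pow_mul_exp (δ b : ℝ) (hδ : 0 < δ) (hb : 0 < b) (c : ℕ) :
    Tendsto (fun x : ℝ => x ^ c * Real.exp (-b * x ^ δ)) atTop (nhds 0) := by
  have h := (tendsto_rpow_mul_exp_neg_mul_atTop_nhds_zero ((c : ℝ) / δ) b hb).comp
    (tendsto_rpow_atTop hδ)
  refine h.congr' ?_
  filter_upwards [eventually_gt_atTop (0 : ℝ)] with x hx
  simp only [Function.comp]
  rw [← Real.rpow_mul hx.le, mul_div_cancel₀ _ hδ.ne', Real.rpow_natCast]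

lemma eventually_pow_le (E : ℕ) {δ : ℝ} (hδ : 0 < δ) :
    ∀ᶠ k : ℕ in atTop, (k : ℝ) ^ E ≤ 2 ^ ((k : ℝ) ^ δ) := by
  have h := (tendsto_pow_mul_exp δ (Real.log 2) hδ (Real.log_pos (by norm_num)) E).eventually
    (gt_mem_nhds (one_pos))
  filter_upwards [tendsto_natCast_atTop_atTop.eventually h] with k hk
  rw [Real.rpow_def_of_pos (by norm_num)]
  rw [show -Real.log 2 * (k : ℝ) ^ δ = -(Real.log 2 * (k : ℝ) ^ δ) by ring, Real.exp_neg,
    mul_inv_lt_iff₀ (Real.exp_pos _)] at hk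
  linarith

lemma eventually_uu (p D : ℕ) (hp : 1 ≤ p) {ε : ℝ} (hε : 0 < ε) : ∃ δ : ℝ, 0 < δ ∧
    ∀ᶠ k : ℕ in atTop, ((16 * uu p ⌈(k : ℝ) ^ δ⌉₊ D * (16 * uu p ⌈(k : ℝ) ^ δ⌉₊ D ^ 2 + 1) : ℕ) : ℝ)
      ≤ (k : ℝ) ^ ε := by
  set δ : ℝ := ε / (3 * D + 1) with hδ
  have hδ0 : 0 < δ := by positivity
  set A : ℝ := 6 * (20 * p) ^ D with hA
  have hp1 : (1 : ℝ) ≤ p := by exact_mod_cast hp
  have hA1 : 1 ≤ A := by
    have : (1 : ℝ) ≤ (20 * p) ^ D := one_le_pow₀ (by linarith)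
    rw [hA]; linarith
  refine ⟨δ, hδ0, ?_⟩
  have L1 : ∀ᶠ x : ℝ in atTop, 272 * A ^ 3 ≤ x ^ δ :=
    (tendsto_rpow_atTop hδ0).eventually (eventually_ge_atTop _)
  filter_upwards [tendsto_natCast_atTop_atTop.eventually L1, eventually_ge_atTop 1] with k hk hk1
  have hkR : (1 : ℝ) ≤ k := by exact_mod_cast hk1
  have hk0 : (0 : ℝ) < k := by linarith
  set x : ℝ := (k : ℝ) ^ δ with hx
  have hx1 : 1 ≤ x := Real.one_le_rpow hkR hδ0.le
  set t : ℕ := ⌈x⌉₊ with ht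
  have htx : (t : ℝ) ≤ 2 * x := by
    have := Nat.ceil_lt_add_one (by linarith : (0 : ℝ) ≤ x)
    rw [← ht] at this
    linarith
  have hpp : ((p - 1 : ℕ) : ℝ) ≤ p := by exact_mod_cast Nat.sub_le p 1
  have hu : (uu p t D : ℝ) ≤ A * x ^ D := by
    unfold uu
    push_cast
    have e0 : A * x ^ D = 6 * (20 * p * x) ^ D := by rw [hA, mul_pow (20 * (p : ℝ)) x]; ring
    rw [e0]
    apply mul_le_mul_of_nonneg_left _ (by norm_num)
    apply pow_le_pow_left₀ (by positivity)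
    calc (10 : ℝ) * t * ((p - 1 : ℕ) : ℝ) ≤ 10 * (2 * x) * p := by
          apply mul_le_mul (by linarith) hpp (by positivity) (by positivity)
      _ = 20 * p * x := by ring
  set y : ℝ := A * x ^ D with hy
  have hy1 : 1 ≤ y := by
    have : (1 : ℝ) ≤ x ^ D := one_le_pow₀ hx1
    rw [hy]
    nlinarith
  have hu0 : (0 : ℝ) ≤ uu p t D := by positivity
  push_cast
  calc (16 : ℝ) * (uu p t D) * (16 * (uu p t D : ℝ) ^ 2 + 1) ≤ 16 * y * (16 * y ^ 2 + 1) := by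
        have h1 : (uu p t D : ℝ) ^ 2 ≤ y ^ 2 := pow_le_pow_left₀ hu0 hu 2
        apply mul_le_mul (by linarith) (by linarith) (by positivity) (by positivity)
    _ ≤ 272 * y ^ 3 := by nlinarith [pow_le_pow_left₀ (by norm_num) hy1 2]
    _ = 272 * A ^ 3 * (x ^ D) ^ 3 := by rw [hy]; ring
    _ ≤ x * (x ^ D) ^ 3 := by
        apply mul_le_mul_of_nonneg_right hk
        positivity
    _ = x ^ (3 * D + 1) := by ring
    _ = (k : ℝ) ^ ε := by
        rw [hx, ← Real.rpow_natCast, ← Real.rpow_mul hk0.le]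
        congr 1
        rw [hδ]
        push_cast
        field_simp

end Pool.Agent.W2helper86.MD
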