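import Pool.Agent.W2helper86.MD.Main

/-!
# Majority is a projection of SAT
-/

set_option autoImplicit false

namespace Pool.Agent.W2helper86.MD

open Finset

/-- the bit `i` of `x`, or `false` -/
def bitAt {k : ℕ} (x : Fin k → Bool) (i : ℕ) : Bool := if h : i < k then x ⟨i, h⟩ else false

lemma bitAt_lt {k : ℕ} (x : Fin k → Bool) {i : ℕ} (h : i < k) : bitAt x i = x ⟨i, h⟩ := by
  unfold bitAt
  rw [dif_pos h]

/-- the number of clauses -/
def NC (k : ℕ) : ℕ := (k + 1) + (2 * k + 1) * (k + 1) * (k + 1)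

/-- The literals of the clauses which say that `k + 1` different ones of `x` are chosen: variable
`j * (2 * k + 1) + i` says that the one number `j` is at the place `i`. -/
def litM {k : ℕ} (x : Fin (2 * k + 1) → Bool) (c v : ℕ) (s : Bool) : Bool :=
  if c < k + 1 then (s && decide (v / (2 * k + 1) = c) && bitAt x (v % (2 * k + 1)))
  else
    if (c - (k + 1)) % (k + 1) = (c - (k + 1)) / (k + 1) % (k + 1) then decide (v = 0)
    else !s && (decide (v = (c - (k + 1)) % (k + 1) * (2 * k + 1) +
        (c - (k + 1)) / (k + 1) / (k + 1)) ||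
      decide (v = (c - (k + 1)) / (k + 1) % (k + 1) * (2 * k + 1) +
        (c - (k + 1)) / (k + 1) / (k + 1)))

/-- the formula, as a bit string -/
def majInst {k : ℕ} (x : Fin (2 * k + 1) → Bool) (j : Fin (2 * NC k ^ 2)) : Bool :=
  litM x ((j : ℕ) / 2 / NC k) ((j : ℕ) / 2 % NC k) (decide ((j : ℕ) % 2 = 1))

lemma majInst_proj {k : ℕ} : IsProj (majInst (k := k)) := by
  intro j
  unfold majInst
  set c := (j : ℕ) / 2 / NC k
  set v := (j : ℕ) / 2 % NC k
  set s := decide ((j : ℕ) % 2 = 1)
  unfold litM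
  by_cases h1 : c < k + 1
  · simp only [h1, if_true]
    have hv : v % (2 * k + 1) < 2 * k + 1 := Nat.mod_lt _ (by omega)
    simp only [bitAt_lt _ hv]
    rcases hb : (s && decide (v / (2 * k + 1) = c)) with _ | _
    · left; exact ⟨false, fun x => by simp⟩
    · right; left; exact ⟨⟨v % (2 * k + 1), hv⟩, fun x => by simp⟩
  · left
    simp only [h1, if_false]
    exact ⟨_, fun x => rfl⟩

lemma getD_majInst {k : ℕ} (x : Fin (2 * k + 1) → Bool) {c v : ℕ} (hc : c < NC k) (hv : v < NC k)
    (s : Bool) : (List.ofFn (majInst x)).getD (2 * (c * NC k + v) + s.toNat) false =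
      litM x c v s := by
  have hs : s.toNat ≤ 1 := by cases s <;> simp
  have hlt : 2 * (c * NC k + v) + s.toNat < 2 * NC k ^ 2 := by
    have h1 : c * NC k + v + 1 ≤ NC k ^ 2 := by
      have : (c + 1) * NC k ≤ NC k * NC k := Nat.mul_le_mul_right _ hc
      rw [pow_two]
      nlinarith
    omega
  rw [List.getD_eq_getElem?_getD, List.getElem?_eq_getElem (by simpa using hlt)]
  rw [Option.getD_some, List.getElem_ofFn]
  unfold majInst
  have h2 : (2 * (c * NC k + v) + s.toNat) / 2 = c * NC k + v := by omega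
  have h3 : (2 * (c * NC k + v) + s.toNat) % 2 = s.toNat := by omega
  simp only [h2, h3]
  have hN : 0 < NC k := by unfold NC; omega
  have h4 : (c * NC k + v) / NC k = c := by
    rw [mul_comm, Nat.mul_add_div hN, Nat.div_eq_of_lt hv, add_zero]
  have h5 : (c * NC k + v) % NC k = v := by
    rw [mul_comm, Nat.mul_add_mod, Nat.mod_eq_of_lt hv]
  rw [h4, h5]
  cases s <;> simp

theorem majInst_spec {k : ℕ} (x : Fin (2 * k + 1) → Bool) :
    List.ofFn (majInst x) ∈ cnfSat ↔ majF k x = true := by
  classical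
  have hn0 : 0 < (2 * k + 1) := by omega
  have hw0 : 0 < (k + 1) := by omega
  have hNC : NC k = (k + 1) + (2 * k + 1) * (k + 1) * (k + 1) := rfl
  have hNCvar : (2 * k + 1) * (k + 1) ≤ NC k := by
    rw [hNC]
    have : (2 * k + 1) * (k + 1) * 1 ≤ (2 * k + 1) * (k + 1) * (k + 1) := Nat.mul_le_mul_left _ hw0
    omega
  constructor
  · rintro ⟨N, hN, τ, hτ⟩
    have hNN : N = NC k := by
      rw [List.length_ofFn] at hN
      have h1 : NC k ^ 2 = N ^ 2 := by omega
      exact (Nat.pow_left_injective (n := 2) (by norm_num) h1).symm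
    subst hNN
    -- the chosen places
    have hslot : ∀ j : Fin (k + 1), ∃ i : Fin (2 * k + 1), x i = true ∧ τ (j * (2 * k + 1) + i) = true := by
      intro j
      obtain ⟨v, hv, s, hl, hvs⟩ := hτ j (by rw [hNC]; have := j.isLt; omega)
      rw [getD_majInst x (by rw [hNC]; have := j.isLt; omega) hv] at hl
      unfold litM at hl
      rw [if_pos j.isLt] at hl
      simp only [Bool.and_eq_true, decide_eq_true_eq] at hl
      obtain ⟨⟨h1, h2⟩, h3⟩ := hl
      have hm : v % (2 * k + 1) < (2 * k + 1) := Nat.mod_lt _ hn0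
      rw [bitAt_lt _ hm] at h3
      refine ⟨⟨v % (2 * k + 1), hm⟩, h3, ?_⟩
      have h4 : (j : ℕ) * (2 * k + 1) + v % (2 * k + 1) = v := by
        rw [← h2, mul_comm]
        exact Nat.div_add_mod v (2 * k + 1)
      show τ ((j : ℕ) * (2 * k + 1) + v % (2 * k + 1)) = true
      rw [h4, hvs, h1]
    choose g hg1 hg2 using hslot
    have hinj : Function.Injective g := by
      intro j j' hjj
      by_contra hne
      -- the conflict clause
      set q := ((g j : ℕ) * (k + 1) + j) * (k + 1) + j' with hq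
      have hq1 : q % (k + 1) = j' := by
        rw [hq, mul_comm, Nat.mul_add_mod, Nat.mod_eq_of_lt j'.isLt]
      have hq2 : q / (k + 1) = (g j : ℕ) * (k + 1) + j := by
        rw [hq, mul_comm, Nat.mul_add_div hw0, Nat.div_eq_of_lt j'.isLt, add_zero]
      have hq3 : q / (k + 1) % (k + 1) = j := by
        rw [hq2, mul_comm, Nat.mul_add_mod, Nat.mod_eq_of_lt j.isLt]
      have hq4 : q / (k + 1) / (k + 1) = g j := by
        rw [hq2, mul_comm, Nat.mul_add_div hw0, Nat.div_eq_of_lt j.isLt, add_zero]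
      have hqlt : q < (2 * k + 1) * (k + 1) * (k + 1) := by
        have h1 : (g j : ℕ) * (k + 1) + j < (2 * k + 1) * (k + 1) := by
          have := (g j).isLt
          have := j.isLt
          have h2 : ((g j : ℕ) + 1) * (k + 1) ≤ (2 * k + 1) * (k + 1) := Nat.mul_le_mul_right _ (g j).isLt
          nlinarith
        have h2 : ((g j : ℕ) * (k + 1) + j + 1) * (k + 1) ≤ (2 * k + 1) * (k + 1) * (k + 1) := Nat.mul_le_mul_right _ h1
        have := j'.isLt
        nlinarith
      have hc : (k + 1) + q < NC k := by rw [hNC]; omega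
      obtain ⟨v, hv, s, hl, hvs⟩ := hτ ((k + 1) + q) hc
      rw [getD_majInst x hc hv] at hl
      unfold litM at hl
      rw [if_neg (by omega), Nat.add_sub_cancel_left, hq1, hq3, hq4,
        if_neg (by intro h; exact hne (Fin.ext h.symm))] at hl
      simp only [Bool.and_eq_true, Bool.not_eq_true', Bool.or_eq_true, decide_eq_true_eq] at hl
      obtain ⟨h1, h2 | h2⟩ := hl
      · rw [h2, h1, hjj, hg2 j'] at hvs
        cases hvs
      · rw [h2, h1, hg2 j] at hvs
        cases hvs
    unfold majF wt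
    rw [decide_eq_true_iff]
    have h1 : Fintype.card (Fin (k + 1)) ≤ Fintype.card {i : Fin (2 * k + 1) // x i = true} :=
      Fintype.card_le_of_injective (fun j => (⟨g j, hg1 j⟩ : {i : Fin (2 * k + 1) // x i = true}))
        (fun j j' h => hinj (by simpa using h))
    rw [Fintype.card_fin, Fintype.card_subtype] at h1
    omega
  · intro hx
    unfold majF wt at hx
    rw [decide_eq_true_iff] at hx
    have h1 : Fintype.card (Fin (k + 1)) ≤ Fintype.card {i : Fin (2 * k + 1) // x i = true} := by
      rw [Fintype.card_fin, Fintype.card_subtype]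
      omega
    obtain ⟨g⟩ := Function.Embedding.nonempty_of_card_le h1
    set τ : ℕ → Bool := fun v => decide (∃ j : Fin (k + 1), v = j * (2 * k + 1) + (g j).1) with hτ
    have hun : ∀ (j j' : Fin (k + 1)) (i : ℕ), i < (2 * k + 1) → (j : ℕ) * (2 * k + 1) + i = j' * (2 * k + 1) + (g j').1 →
        j = j' ∧ i = (g j').1 := by
      intro j j' i hi h
      have h2 : (j : ℕ) = j' := by
        have e1 : ((j : ℕ) * (2 * k + 1) + i) / (2 * k + 1) = j := by
          rw [mul_comm, Nat.mul_add_div hn0, Nat.div_eq_of_lt hi, add_zero]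
        have e2 : ((j' : ℕ) * (2 * k + 1) + ((g j').1 : ℕ)) / (2 * k + 1) = j' := by
          rw [mul_comm, Nat.mul_add_div hn0, Nat.div_eq_of_lt (g j').1.isLt, add_zero]
        rw [← e1, h, e2]
      refine ⟨Fin.ext h2, ?_⟩
      rw [h2] at h
      omega
    refine ⟨NC k, by simp, τ, ?_⟩
    intro c hc
    by_cases hcw : c < (k + 1)
    · have hv : c * (2 * k + 1) + (g ⟨c, hcw⟩).1 < NC k := by
        have h2 : (c + 1) * (2 * k + 1) ≤ (k + 1) * (2 * k + 1) := Nat.mul_le_mul_right _ hcw
        have h3 := (g ⟨c, hcw⟩).1.isLt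
        have h4 : (k + 1) * (2 * k + 1) = (2 * k + 1) * (k + 1) := mul_comm _ _
        have h5 : (c + 1) * (2 * k + 1) = c * (2 * k + 1) + (2 * k + 1) := by ring
        omega
      refine ⟨c * (2 * k + 1) + (g ⟨c, hcw⟩).1, hv, true, ?_, ?_⟩
      · rw [getD_majInst x hc hv]
        unfold litM
        rw [if_pos hcw]
        have e1 : (c * (2 * k + 1) + ((g ⟨c, hcw⟩).1 : ℕ)) / (2 * k + 1) = c := by
          rw [mul_comm, Nat.mul_add_div hn0, Nat.div_eq_of_lt (g ⟨c, hcw⟩).1.isLt, add_zero]
        have e2 : (c * (2 * k + 1) + ((g ⟨c, hcw⟩).1 : ℕ)) % (2 * k + 1) = (g ⟨c, hcw⟩).1 := by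
          rw [mul_comm, Nat.mul_add_mod, Nat.mod_eq_of_lt (g ⟨c, hcw⟩).1.isLt]
        rw [e1, e2, bitAt_lt _ (g ⟨c, hcw⟩).1.isLt]
        have e3 : x ⟨((g ⟨c, hcw⟩).1 : ℕ), (g ⟨c, hcw⟩).1.isLt⟩ = true := (g ⟨c, hcw⟩).2
        rw [e3]
        simp
      · rw [hτ, decide_eq_true_iff]
        exact ⟨⟨c, hcw⟩, rfl⟩
    · set q := c - (k + 1) with hq
      have hqlt : q < (2 * k + 1) * (k + 1) * (k + 1) := by rw [hNC] at hc; omega
      have hj' : q % (k + 1) < (k + 1) := Nat.mod_lt _ hw0
      have hj : q / (k + 1) % (k + 1) < (k + 1) := Nat.mod_lt _ hw0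
      have hi : q / (k + 1) / (k + 1) < (2 * k + 1) := by
        apply Nat.div_lt_of_lt_mul
        rw [mul_comm (k + 1) (2 * k + 1)]
        apply Nat.div_lt_of_lt_mul
        rw [mul_comm]
        exact hqlt
      by_cases hjj : q % (k + 1) = q / (k + 1) % (k + 1)
      · refine ⟨0, by rw [hNC]; omega, τ 0, ?_, rfl⟩
        rw [getD_majInst x hc (by rw [hNC]; omega)]
        unfold litM
        rw [if_neg hcw, ← hq, if_pos hjj]
        simp
      · have hvb : ∀ j, j < (k + 1) → j * (2 * k + 1) + q / (k + 1) / (k + 1) < NC k := by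
          intro j hj
          have h2 : (j + 1) * (2 * k + 1) ≤ (k + 1) * (2 * k + 1) := Nat.mul_le_mul_right _ hj
          have h4 : (k + 1) * (2 * k + 1) = (2 * k + 1) * (k + 1) := mul_comm _ _
          have h5 : (j + 1) * (2 * k + 1) = j * (2 * k + 1) + (2 * k + 1) := by ring
          omega
        by_cases ht : τ (q % (k + 1) * (2 * k + 1) + q / (k + 1) / (k + 1)) = true
        · refine ⟨q / (k + 1) % (k + 1) * (2 * k + 1) + q / (k + 1) / (k + 1), hvb _ hj, false, ?_, ?_⟩
          · rw [getD_majInst x hc (hvb _ hj)]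
            unfold litM
            rw [if_neg hcw, ← hq, if_neg hjj]
            simp
          · by_contra hcon
            rw [Bool.not_eq_false] at hcon
            rw [hτ, decide_eq_true_iff] at ht hcon
            obtain ⟨a, ha⟩ := ht
            obtain ⟨b, hb⟩ := hcon
            obtain ⟨ha1, ha2⟩ := hun ⟨q % (k + 1), hj'⟩ a _ hi ha
            obtain ⟨hb1, hb2⟩ := hun ⟨q / (k + 1) % (k + 1), hj⟩ b _ hi hb
            have h3 : g a = g b := by
              apply Subtype.ext
              apply Fin.ext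
              rw [← ha2, ← hb2]
            have h4 := g.injective h3
            rw [← ha1, ← hb1] at h4
            exact hjj (Fin.mk.inj_iff.1 h4)
        · refine ⟨q % (k + 1) * (2 * k + 1) + q / (k + 1) / (k + 1), hvb _ hj', false, ?_, by simpa using ht⟩
          rw [getD_majInst x hc (hvb _ hj')]
          unfold litM
          rw [if_neg hcw, ← hq, if_neg hjj]
          simp

lemma count_ofFn : ∀ {k : ℕ} (x : Fin k → Bool), (List.ofFn x).count true = wt x := by
  intro k
  unfold wt
  induction k with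
  | zero => intro x; simp
  | succ k ih =>
    intro x
    rw [List.ofFn_succ, List.count_cons, ih, Finset.card_filter, Finset.card_filter,
      Fin.sum_univ_succ]
    rcases x 0 with _ | _ <;> simp [add_comm]

lemma maj_iff {k : ℕ} (x : Fin (2 * k + 1) → Bool) :
    List.ofFn x ∈ majLang ↔ majF k x = true := by
  unfold majLang majF
  rw [Set.mem_ofPred_eq, count_ofFn, decide_eq_true_eq, List.length_ofFn]
  omega

lemma par_iff {k : ℕ} (x : Fin (2 * k + 1) → Bool) :
    List.ofFn x ∈ parityLang ↔ parF k x = true := by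
  unfold parityLang parF
  rw [Set.mem_ofPred_eq, count_ofFn, decide_eq_true_eq]

end Pool.Agent.W2helper86.MD
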